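import Pool.Agent.Lib.MP_d8bd92_nt.Fr.Defs
import Pool.Agent.Lib.MP_d8bd92_nt.CdK2
import Pool.Agent.Lib.MP_d8bd92_nt.CdK3
import Pool.Agent.Lib.MP_d8bd92_nt.As.D1

set_option autoImplicit false

/-!
ROW fr-D1. The exact classification of the semistable curves with full rational 2-torsion.

`ff w` = the pair (c₄, c₆) of the curve y² + x y = x³ + (t - 4 b) x² - b (4 t + 1) x, where the first component of w is 4 t + 1 and
b the second: this is `K3W b t` (CdK3), Δ = (x b (x + 16 b))², x = 4 t + 1.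
PROOF of curve_f: W = K3W w.2 ((w.1 - 1)/4), K3W_c₄, K3W_Δ, `two_points` (in P4/FullLow.lean of helper10, or as in CdK3 K3_mem);
coprime: c₄ = x² + 16 x b + 256 b² against x, b, x + 16 b (x odd, x, b coprime).
PROOF of param. `full_two_param` (CdK1) and `cd_c6` (CdK2) give coprime naturals a, b' >= 1 and g ∈ {1,2} with c₄ = g² (a² + a b' + b'²),
256 Δ = g⁶ (a b' (a + b'))², c₆ = ± g³ (a - b')(2a + b')(a + 2b')/2. g = 2 is impossible: a² + a b' + b'² is odd, so c₄ % 8 = 4, against As.D1_c4.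
g = 1: 16 | a b' (a + b'), exactly one of a, b', a + b' is even, so it is 16 β, β >= 1. If a = 16 β: x is b' or -(b' + 16 β), the one with x % 4 = 1.
If b' = 16 β: the same with a. If a + b' = 16 β: x is -a or -b', the one with x % 4 = 1. In all cases c₄ = x² + 16 x β + 256 β²,
Δ = (x β (x + 16 β))², and c₆ = ± (x - 16 β)(x + 8 β)(x + 32 β), the sign from c₆ % 4 = 3 (As.D1_c6: c₄ odd). Good: coprime x β from coprime a b'.
PROOF of ff_inj: z³ - 3 c₄ z - 2 c₆ = (z - (x - 16 b)) (z - (x + 32 b)) (z + 2 (x + 8 b)); the even root is -2(x + 8b) (x odd), so x + 8 b is determined,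
and the difference of the two odd roots is 48 b > 0.
-/

namespace Pool.Agent.Lib.MP_d8bd92_nt

namespace Fr

open Finset Filter Topology Pool.Agent.Lib.Szpiro

/-- the pair `(c₄, c₆)` of the curve of `w` -/
def ff (w : ℤ × ℤ) : ℤ × ℤ := (w.1 ^ 2 + 16 * w.1 * w.2 + 256 * w.2 ^ 2,
  -((w.1 - 16 * w.2) * (w.1 + 8 * w.2) * (w.1 + 32 * w.2)))

/-- the pair from `x`, `β` -/
theorem D1_fin (W : WeierstrassCurve ℤ) (x β : ℤ) (hβ : 0 < β) (hx : x % 4 = 1)
    (hcop : IsCoprime x β) (h4 : W.c₄ = x ^ 2 + 16 * x * β + 256 * β ^ 2)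
    (hD : W.Δ = (x * β * (x + 16 * β)) ^ 2) :
    ∃ w : ℤ × ℤ, Good w ∧ (W.c₄, W.c₆) = ff w ∧ W.Δ = (w.1 * w.2 * cc w) ^ 2 := by
  obtain ⟨q, hq⟩ : ∃ q : ℤ, x = 4 * q + 1 := ⟨x / 4, by omega⟩
  have hodd : W.c₄ % 2 = 1 := by
    have e : W.c₄ = 2 * (8 * q ^ 2 + 4 * q + 8 * x * β + 128 * β ^ 2) + 1 := by
      rw [h4, hq]; ring
    rw [e]
    generalize 8 * q ^ 2 + 4 * q + 8 * x * β + 128 * β ^ 2 = z
    omega
  have h6 := As.D1_c6 W hodd
  have hsq : W.c₆ ^ 2 = ((x - 16 * β) * (x + 8 * β) * (x + 32 * β)) ^ 2 := by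
    have hrel := W.c_relation
    rw [h4, hD] at hrel
    linear_combination hrel
  rcases sq_eq_sq_iff_eq_or_eq_neg.1 hsq with h | h
  · exfalso
    have e : W.c₆ = 4 * (16 * q ^ 3 + 12 * q ^ 2 + 3 * q + 6 * x ^ 2 * β - 96 * x * β ^ 2
        - 1024 * β ^ 3) + 1 := by
      rw [h, hq]; ring
    rw [e] at h6
    generalize 16 * q ^ 3 + 12 * q ^ 2 + 3 * q + 6 * x ^ 2 * β - 96 * x * β ^ 2
        - 1024 * β ^ 3 = z at h6
    omega
  · refine ⟨(x, β), ⟨hx, hβ, hcop⟩, ?_, ?_⟩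
    · rw [ff, Prod.mk.injEq]
      exact ⟨h4, h⟩
    · rw [hD]
      rfl

/-- the even difference of roots is `a` -/
theorem D1_sixteen (W : WeierstrassCurve ℤ) (a b : ℤ) (ha : 0 < a) (hb : b % 2 = 1)
    (hab : IsCoprime a b) (h16 : (16 : ℤ) ∣ a) (h4 : W.c₄ = a ^ 2 + a * b + b ^ 2)
    (hD : 256 * W.Δ = (a * b * (a + b)) ^ 2) :
    ∃ w : ℤ × ℤ, Good w ∧ (W.c₄, W.c₆) = ff w ∧ W.Δ = (w.1 * w.2 * cc w) ^ 2 := by
  obtain ⟨β, rfl⟩ := h16
  have hβ : 0 < β := by omega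
  obtain ⟨u, v, huv⟩ := hab
  have hb4 : b % 4 = 1 ∨ b % 4 = 3 := by omega
  rcases hb4 with hb1 | hb3
  · refine D1_fin W b β hβ hb1 ⟨v, 16 * u, ?_⟩ ?_ ?_
    · linear_combination huv
    · rw [h4]; ring
    · have e : 256 * W.Δ = 256 * (b * β * (b + 16 * β)) ^ 2 := by rw [hD]; ring
      exact mul_left_cancel₀ (by norm_num) e
  · refine D1_fin W (-(16 * β + b)) β hβ (by omega) ⟨-v, 16 * u - 16 * v, ?_⟩ ?_ ?_
    · linear_combination huv
    · rw [h4]; ring
    · have e : 256 * W.Δ = 256 * (-(16 * β + b) * β * (-(16 * β + b) + 16 * β)) ^ 2 := by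
        rw [hD]; ring
      exact mul_left_cancel₀ (by norm_num) e

theorem D1_cop16 {x : ℤ} (h : x % 2 = 1) : IsCoprime (16 : ℤ) x := by
  have h2 : IsCoprime ((2 : ℤ) ^ 4) x := (As.D1_cop2 h).pow_left
  norm_num at h2
  exact h2

theorem D1_mul_odd {x y : ℤ} (hx : x % 2 = 1) (hy : y % 2 = 1) : (x * y) % 2 = 1 := by
  rw [Int.mul_emod, hx, hy]; rfl

theorem param (W : WeierstrassCurve ℤ) (hΔ : W.Δ ≠ 0) (hss : IsCoprime W.c₄ W.Δ)
    (hP : ∃ S T : (W.baseChange ℚ).toAffine.Point, addOrderOf S = 2 ∧ addOrderOf T = 2 ∧ S ≠ T) :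
    ∃ w : ℤ × ℤ, Good w ∧ (W.c₄, W.c₆) = ff w ∧ W.Δ = (w.1 * w.2 * cc w) ^ 2 := by
  obtain ⟨a, b, g, ha, hb, hab, hg, h4, hD⟩ := full_two_param W hΔ hss hP
  have habZ : IsCoprime (a : ℤ) (b : ℤ) := Nat.isCoprime_iff_coprime.2 hab
  have ha' : (0 : ℤ) < (a : ℤ) := by exact_mod_cast ha
  have hb' : (0 : ℤ) < (b : ℤ) := by exact_mod_cast hb
  generalize (a : ℤ) = A at *
  generalize (b : ℤ) = B at *
  have hne : ¬ (A % 2 = 0 ∧ B % 2 = 0) := by
    rintro ⟨h1, h2⟩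
    have hu := habZ.isUnit_of_dvd' (Int.dvd_of_emod_eq_zero h1) (Int.dvd_of_emod_eq_zero h2)
    rw [Int.isUnit_iff] at hu
    omega
  rcases hg with rfl | rfl
  · -- `g = 1`
    have h4' : W.c₄ = A ^ 2 + A * B + B ^ 2 := by rw [h4]; push_cast; ring
    have hD' : 256 * W.Δ = (A * B * (A + B)) ^ 2 := by rw [hD]; push_cast; ring
    have h16 : (16 : ℤ) ∣ A * B * (A + B) := by
      have h1 : (16 : ℤ) ^ 2 ∣ (A * B * (A + B)) ^ 2 := ⟨W.Δ, by rw [← hD']; norm_num⟩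
      exact (Int.pow_dvd_pow_iff two_ne_zero).1 h1
    rcases Int.emod_two_eq_zero_or_one A with hA | hA <;>
      rcases Int.emod_two_eq_zero_or_one B with hB | hB
    · exact absurd ⟨hA, hB⟩ hne
    · have hodd : (B * (A + B)) % 2 = 1 := D1_mul_odd hB (by omega)
      have h : (16 : ℤ) ∣ A := by
        rw [mul_assoc] at h16
        exact (D1_cop16 hodd).dvd_of_dvd_mul_right h16
      exact D1_sixteen W A B ha' hB habZ h h4' hD'
    · have hodd : (A * (A + B)) % 2 = 1 := D1_mul_odd hA (by omega)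
      have h : (16 : ℤ) ∣ B := by
        have e : A * B * (A + B) = B * (A * (A + B)) := by ring
        rw [e] at h16
        exact (D1_cop16 hodd).dvd_of_dvd_mul_right h16
      exact D1_sixteen W B A hb' hA habZ.symm h (by rw [h4']; ring) (by rw [hD']; ring)
    · have hodd : (A * B) % 2 = 1 := D1_mul_odd hA hB
      have h : (16 : ℤ) ∣ A + B := (D1_cop16 hodd).dvd_of_dvd_mul_left h16
      refine D1_sixteen W (A + B) (-A) (by omega) (by omega) ?_ h (by rw [h4']; ring)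
        (by rw [hD']; ring)
      obtain ⟨u, v, huv⟩ := habZ
      exact ⟨v, v - u, by linear_combination huv⟩
  · -- `g = 2`
    exfalso
    obtain ⟨z, hz⟩ : ∃ z : ℤ, z = A ^ 2 + A * B + B ^ 2 := ⟨_, rfl⟩
    have h4' : W.c₄ = 4 * z := by rw [h4, hz]; push_cast; ring
    have hodd : z % 2 = 1 := by
      obtain ⟨p, hp⟩ : ∃ p : ℤ, A = 2 * p ∨ A = 2 * p + 1 := ⟨A / 2, by omega⟩
      obtain ⟨q, hq⟩ : ∃ q : ℤ, B = 2 * q ∨ B = 2 * q + 1 := ⟨B / 2, by omega⟩
      rcases hp with hp | hp <;> rcases hq with hq | hq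
      · exact absurd ⟨by omega, by omega⟩ hne
      · have e : z = 2 * (2 * p ^ 2 + p * (2 * q + 1) + 2 * q ^ 2 + 2 * q) + 1 := by
          rw [hz, hp, hq]; ring
        rw [e]
        generalize 2 * p ^ 2 + p * (2 * q + 1) + 2 * q ^ 2 + 2 * q = y
        omega
      · have e : z = 2 * (2 * p ^ 2 + 2 * p + (2 * p + 1) * q + 2 * q ^ 2) + 1 := by
          rw [hz, hp, hq]; ring
        rw [e]
        generalize 2 * p ^ 2 + 2 * p + (2 * p + 1) * q + 2 * q ^ 2 = y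
        omega
      · have e : z = 2 * (2 * p ^ 2 + 2 * p + 2 * p * q + p + q + 2 * q ^ 2 + 2 * q + 1) + 1 := by
          rw [hz, hp, hq]; ring
        rw [e]
        generalize 2 * p ^ 2 + 2 * p + 2 * p * q + p + q + 2 * q ^ 2 + 2 * q + 1 = y
        omega
    have h8 := As.D1_c4 W (by omega)
    omega

theorem curve_f (w : ℤ × ℤ) (hw : Good w) : ∃ W : WeierstrassCurve ℤ, (W.c₄, W.c₆) = ff w ∧
    W.Δ = (w.1 * w.2 * cc w) ^ 2 ∧ IsCoprime W.c₄ W.Δ ∧
    ∃ S T : (W.baseChange ℚ).toAffine.Point, addOrderOf S = 2 ∧ addOrderOf T = 2 ∧ S ≠ T := by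
  obtain ⟨a, b⟩ := w
  obtain ⟨ha, hb, hab⟩ := hw
  have ha' : a % 4 = 1 := ha
  have hb' : 0 < b := hb
  have hab' : IsCoprime a b := hab
  obtain ⟨t, ht⟩ : ∃ t : ℤ, a = 4 * t + 1 := ⟨a / 4, by omega⟩
  have h4 : (K3W b t).c₄ = a ^ 2 + 16 * a * b + 256 * b ^ 2 := by
    rw [K3W_c₄, ht]
    ring
  have h6 : (K3W b t).c₆ = -((a - 16 * b) * (a + 8 * b) * (a + 32 * b)) := by
    rw [K3W, WeierstrassCurve.c₆, WeierstrassCurve.b₂, WeierstrassCurve.b₄, WeierstrassCurve.b₆, ht]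
    ring
  have hD : (K3W b t).Δ = (a * b * cc (a, b)) ^ 2 := by
    rw [K3W_Δ, cc, ht]
    ring
  have hcne : cc (a, b) ≠ 0 := by
    rw [cc]
    show a + 16 * b ≠ 0
    omega
  have hane : a ≠ 0 := by omega
  have hΔ0 : (K3W b t).Δ ≠ 0 := by
    rw [hD]
    exact pow_ne_zero 2 (mul_ne_zero (mul_ne_zero hane hb'.ne') hcne)
  have hcopZ : IsCoprime (16 * b) a := by
    refine IsCoprime.mul_left ?_ hab'.symm
    have h2 : IsCoprime (2 : ℤ) a := ⟨-(2 * t), 1, by rw [ht]; ring⟩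
    have h3 := h2.pow_left (m := 4)
    norm_num at h3
    exact h3
  refine ⟨K3W b t, ?_, hD, ?_, ?_⟩
  · rw [h4, h6]; rfl
  · rw [h4, hD]
    refine IsCoprime.pow_right ?_
    refine IsCoprime.mul_right (IsCoprime.mul_right ?_ ?_) ?_
    · have h1 : IsCoprime ((16 * b) ^ 2) a := hcopZ.pow_left
      have e : a ^ 2 + 16 * a * b + 256 * b ^ 2 = (16 * b) ^ 2 + a * (16 * b + a) := by ring
      rw [e]
      exact IsCoprime.add_mul_left_left h1 _
    · have h1 : IsCoprime (a ^ 2) b := hab'.pow_left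
      have e : a ^ 2 + 16 * a * b + 256 * b ^ 2 = a ^ 2 + b * (256 * b + 16 * a) := by ring
      rw [e]
      exact IsCoprime.add_mul_left_left h1 _
    · have h0 : IsCoprime (16 * b) (a + 16 * b) := by
        have := IsCoprime.add_mul_left_right hcopZ 1
        rw [mul_one] at this
        exact this
      have h1 : IsCoprime ((16 * b) ^ 2) (a + 16 * b) := h0.pow_left
      have e : a ^ 2 + 16 * a * b + 256 * b ^ 2 = (16 * b) ^ 2 + (a + 16 * b) * a := by ring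
      rw [e, cc]
      exact IsCoprime.add_mul_left_left h1 _
  · have hΔQ : ((K3W b t).baseChange ℚ).toAffine.Δ ≠ 0 := by
      have : ((K3W b t).baseChange ℚ).Δ = ((K3W b t).Δ : ℚ) := by
        rw [WeierstrassCurve.baseChange, WeierstrassCurve.map_Δ]; simp
      change ((K3W b t).baseChange ℚ).Δ ≠ 0
      rw [this]
      exact_mod_cast hΔ0
    have e1 : ((K3W b t).baseChange ℚ).toAffine.a₁ = 1 := by
      simp [WeierstrassCurve.baseChange, K3W]
    have e2 : ((K3W b t).baseChange ℚ).toAffine.a₂ = (t : ℚ) - 4 * b := by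
      simp [WeierstrassCurve.baseChange, K3W]
    have e3 : ((K3W b t).baseChange ℚ).toAffine.a₃ = 0 := by
      simp [WeierstrassCurve.baseChange, K3W]
    have e4 : ((K3W b t).baseChange ℚ).toAffine.a₄ = -((b : ℚ) * (4 * t + 1)) := by
      simp [WeierstrassCurve.baseChange, K3W]
    have e6 : ((K3W b t).baseChange ℚ).toAffine.a₆ = 0 := by
      simp [WeierstrassCurve.baseChange, K3W]
    have hS : ((K3W b t).baseChange ℚ).toAffine.Nonsingular 0 0 := by
      rw [← WeierstrassCurve.Affine.equation_iff_nonsingular_of_Δ_ne_zero hΔQ,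
        WeierstrassCurve.Affine.equation_iff, e1, e2, e3, e4, e6]
      ring
    have hT : ((K3W b t).baseChange ℚ).toAffine.Nonsingular (4 * (b : ℚ)) (-(2 * (b : ℚ))) := by
      rw [← WeierstrassCurve.Affine.equation_iff_nonsingular_of_Δ_ne_zero hΔQ,
        WeierstrassCurve.Affine.equation_iff, e1, e2, e3, e4, e6]
      ring
    refine ⟨WeierstrassCurve.Affine.Point.some _ _ hS, WeierstrassCurve.Affine.Point.some _ _ hT,
      ?_, ?_, ?_⟩
    · rw [addOrderOf_eq_prime_iff (p := 2)]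
      refine ⟨?_, WeierstrassCurve.Affine.Point.some_ne_zero _⟩
      rw [two_nsmul]
      apply WeierstrassCurve.Affine.Point.add_self_of_Y_eq
      rw [WeierstrassCurve.Affine.negY, e1, e3]; ring
    · rw [addOrderOf_eq_prime_iff (p := 2)]
      refine ⟨?_, WeierstrassCurve.Affine.Point.some_ne_zero _⟩
      rw [two_nsmul]
      apply WeierstrassCurve.Affine.Point.add_self_of_Y_eq
      rw [WeierstrassCurve.Affine.negY, e1, e3]; ring
    · intro h
      rw [WeierstrassCurve.Affine.Point.some.injEq] at h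
      have h1 := h.1
      have h2 : (0 : ℚ) < b := by exact_mod_cast hb'
      linarith

theorem ff_inj (w v : ℤ × ℤ) (hw : Good w) (hv : Good v) (h : ff w = ff v) : w = v := by
  obtain ⟨a, b⟩ := w
  obtain ⟨c, d⟩ := v
  obtain ⟨ha, hb, _⟩ := hw
  obtain ⟨hc, hd, _⟩ := hv
  have ha' : a % 4 = 1 := ha
  have hb' : 0 < b := hb
  have hc' : c % 4 = 1 := hc
  have hd' : 0 < d := hd
  unfold ff at h
  rw [Prod.mk.injEq] at h
  obtain ⟨h4, h6⟩ := h
  have h4' : a ^ 2 + 16 * a * b + 256 * b ^ 2 = c ^ 2 + 16 * c * d + 256 * d ^ 2 := h4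
  have h6' : -((a - 16 * b) * (a + 8 * b) * (a + 32 * b)) =
      -((c - 16 * d) * (c + 8 * d) * (c + 32 * d)) := h6
  obtain ⟨p, hp⟩ : ∃ p, p = a + 8 * b := ⟨_, rfl⟩
  obtain ⟨q, hq⟩ : ∃ q, q = c + 8 * d := ⟨_, rfl⟩
  have ea : a = p - 8 * b := by rw [hp]; ring
  have ec : c = q - 8 * d := by rw [hq]; ring
  have k4 : p ^ 2 + 192 * b ^ 2 = q ^ 2 + 192 * d ^ 2 := by
    rw [ea, ec] at h4'
    linear_combination h4'
  have k6 : p * (p ^ 2 - 576 * b ^ 2) = q * (q ^ 2 - 576 * d ^ 2) := by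
    rw [ea, ec] at h6'
    linear_combination -h6'
  have hpq : (p - q) * (4 * (p ^ 2 + p * q + q ^ 2) - 3 * (p ^ 2 + 192 * b ^ 2)) = 0 := by
    linear_combination k6 + 3 * q * k4
  have hpe : p = q := by
    rcases mul_eq_zero.1 hpq with h | h
    · linarith
    · exfalso
      obtain ⟨k, hk⟩ : ∃ k, p = 2 * k + 1 := ⟨p / 2, by omega⟩
      have e : 4 * (p ^ 2 + p * q + q ^ 2) - 3 * (p ^ 2 + 192 * b ^ 2) =
          2 * (2 * (p ^ 2 + p * q + q ^ 2) - 6 * (k ^ 2 + k) - 288 * b ^ 2 - 2) + 1 := by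
        rw [hk]
        ring
      rw [e] at h
      generalize 2 * (p ^ 2 + p * q + q ^ 2) - 6 * (k ^ 2 + k) - 288 * b ^ 2 - 2 = z at h
      omega
  have hbd : b = d := by
    have h1 : (b - d) * (b + d) = 0 := by
      have : 192 * ((b - d) * (b + d)) = 0 := by
        rw [hpe] at k4
        linear_combination k4
      omega
    rcases mul_eq_zero.1 h1 with h | h
    · linarith
    · omega
  have hac : a = c := by
    rw [ea, ec, hpe, hbd]
  rw [hac, hbd]

end Fr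

end Pool.Agent.Lib.MP_d8bd92_nt
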