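import Pool.Agent.Lib.MP_d8bd92_nt.Fr.Defs
import Pool.Agent.Lib.MP_d8bd92_nt.CdK2
import Pool.Agent.Lib.MP_d8bd92_nt.LgU
import Pool.Agent.Lib.MP_d8bd92_nt.TfR

set_option autoImplicit false

/-!
ROW fr-H1. The upper bounds for the height `H = max (|c₄|³, c₆²)` in place of `|Δ|`.

cover_ht: copy of `cd_cover` (CdK2) with H <= 256 (a + b)^6 (c₄ = g²(a² + ab + b²), 2 c₆ = ± g³ (a - b)(2 a + b)(a + 2 b), g <= 2).
upH (2 <= s <= 11/5): cover by the pairs (a, b) with N^s <= 256 (a + b)^6, rd (ab(a+b)) <= 2 N, (a+b)^4 <= 1024 D <= 1024 Y^κ.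
 Case s/6 - ε/2 < 1/3: `lg_upper` with t = 1/3 and ε/2 (rd^(1/3) <= a + b is always true as rd <= ab(a+b) <= (a+b)³).
 Case t = s/6 - ε/2 >= 1/3: r = rd (ab(a+b)); r^t <= (2N)^t <= a + b as soon as N >= N0 (ε); if N < N0: r^t <= K0 := (2 N0)^t, so either a + b >= K0 and the
 pair is in the set of `lg_upper`, or a + b < K0: at most K0² pairs. `lg_upper` with t and ε/2.
three_fifths_H: in the same way from `abc_three_fifths` (TfR, TfQ), exponent 1 - 1/20000 of rd.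
-/

namespace Pool.Agent.Lib.MP_d8bd92_nt

namespace Fr

open Finset Filter Topology Pool.Agent.Lib.Szpiro

/-- as `FullTwoSet`, with a property of the conductor, `|Δ|` and the height -/
def FullH (P : ℕ → ℕ → ℕ → Prop) : Set (ℤ × ℤ) :=
  {c | ∃ W : WeierstrassCurve ℤ, W.c₄ = c.1 ∧ W.c₆ = c.2 ∧ W.Δ ≠ 0 ∧ IsCoprime W.c₄ W.Δ ∧
    (∃ S T : (W.baseChange ℚ).toAffine.Point, addOrderOf S = 2 ∧ addOrderOf T = 2 ∧ S ≠ T) ∧
    P (rd W.Δ.natAbs) W.Δ.natAbs (max (W.c₄.natAbs ^ 3) (W.c₆.natAbs ^ 2))}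

/-- the height of the curve of the pair `(a, b)` -/
theorem H1_height (W : WeierstrassCurve ℤ) (a b g : ℕ) (hg : g = 1 ∨ g = 2)
    (e4 : W.c₄ = (g : ℤ) ^ 2 * ((a : ℤ) ^ 2 + a * b + b ^ 2))
    (eD : 256 * W.Δ = (g : ℤ) ^ 6 * (a * b * (a + b)) ^ 2) :
    max (W.c₄.natAbs ^ 3) (W.c₆.natAbs ^ 2) ≤ 256 * (a + b) ^ 6 := by
  have hrel := W.c_relation
  have hg2 : (g : ℤ) ^ 2 ≤ 4 := by rcases hg with rfl | rfl <;> norm_num
  have hD0 : 0 ≤ 256 * W.Δ := by rw [eD]; positivity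
  have h40 : 0 ≤ W.c₄ := by rw [e4]; positivity
  have h4le : W.c₄ ≤ 4 * ((a : ℤ) + b) ^ 2 := by
    rw [e4]
    have h1 : (a : ℤ) ^ 2 + a * b + b ^ 2 ≤ ((a : ℤ) + b) ^ 2 := by nlinarith [mul_nonneg (Int.natCast_nonneg a) (Int.natCast_nonneg b)]
    have h2 : 0 ≤ (a : ℤ) ^ 2 + a * b + b ^ 2 := by positivity
    calc (g : ℤ) ^ 2 * ((a : ℤ) ^ 2 + a * b + b ^ 2) ≤ 4 * ((a : ℤ) ^ 2 + a * b + b ^ 2) :=
          mul_le_mul_of_nonneg_right hg2 h2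
      _ ≤ 4 * ((a : ℤ) + b) ^ 2 := by linarith
  have h43 : W.c₄ ^ 3 ≤ 64 * ((a : ℤ) + b) ^ 6 := by
    calc W.c₄ ^ 3 ≤ (4 * ((a : ℤ) + b) ^ 2) ^ 3 := pow_le_pow_left₀ h40 h4le 3
      _ = 64 * ((a : ℤ) + b) ^ 6 := by ring
  have h62 : W.c₆ ^ 2 ≤ 64 * ((a : ℤ) + b) ^ 6 := by linarith
  have hp : 0 ≤ ((a : ℤ) + b) ^ 6 := by positivity
  refine max_le ?_ ?_
  · have h1 : ((W.c₄.natAbs ^ 3 : ℕ) : ℤ) ≤ ((256 * (a + b) ^ 6 : ℕ) : ℤ) := by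
      push_cast
      rw [abs_of_nonneg h40]
      linarith
    exact_mod_cast h1
  · have h1 : ((W.c₆.natAbs ^ 2 : ℕ) : ℤ) ≤ ((256 * (a + b) ^ 6 : ℕ) : ℤ) := by
      push_cast
      rw [sq_abs]
      linarith
    exact_mod_cast h1

/-- the cover of `FullH P` by the pairs `(a, b)` -/
theorem cover_ht (P : ℕ → ℕ → ℕ → Prop) (S : Finset (ℕ × ℕ))
    (hS : ∀ a b N D H : ℕ, 1 ≤ a → 1 ≤ b → Nat.Coprime a b → P N D H → 1 ≤ N →
      rd (a * b * (a + b)) ≤ 2 * N → (a + b) ^ 4 ≤ 1024 * D → H ≤ 256 * (a + b) ^ 6 →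
      (a, b) ∈ S) :
    (FullH P).Finite ∧ (FullH P).ncard ≤ 4 * S.card := by
  classical
  set F : Finset (ℤ × ℤ) := (S ×ˢ (({1, 2} : Finset ℕ) ×ˢ ({1, -1} : Finset ℤ))).image cdMap with hF
  have hsub : FullH P ⊆ (F : Set (ℤ × ℤ)) := by
    rintro ⟨c4, c6⟩ ⟨W, h4, h6, hΔ, hc, h2, hP⟩
    obtain ⟨a, b, g, ha, hb, hab, hg, e4, eD⟩ := full_two_param W hΔ hc h2
    obtain ⟨s, hs, hcd⟩ := cd_c6 W a b g e4 eD
    simp only at h4 h6
    rw [← h4, ← h6, hcd, hF, Finset.mem_coe]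
    refine Finset.mem_image_of_mem _ ?_
    simp only [Finset.mem_product]
    refine ⟨?_, ?_, hs⟩
    · -- natural number form of the discriminant
      have hDn : 256 * W.Δ.natAbs = g ^ 6 * (a * b * (a + b)) ^ 2 := by
        have h1 : (256 * W.Δ).natAbs = ((g : ℤ) ^ 6 * (a * b * (a + b)) ^ 2).natAbs := by rw [eD]
        rw [Int.natAbs_mul] at h1
        have h3 : ((g : ℤ) ^ 6 * (a * b * (a + b)) ^ 2) =
          ((g ^ 6 * (a * b * (a + b)) ^ 2 : ℕ) : ℤ) := by push_cast; ring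
        rw [h3, Int.natAbs_natCast] at h1
        exact h1
      have hg1 : 1 ≤ g ^ 6 := by rcases hg with rfl | rfl <;> norm_num
      have hnz : a * b * (a + b) ≠ 0 := by positivity
      refine hS a b _ _ _ ha hb hab hP (rd_pos W.Δ.natAbs) ?_ ?_ ?_
      · have hΔn : W.Δ.natAbs ≠ 0 := Int.natAbs_ne_zero.2 hΔ
        calc rd (a * b * (a + b)) ≤ rd (2 * W.Δ.natAbs) := by
              apply rd_mono' (mul_ne_zero two_ne_zero hΔn)
              intro p hp hpd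
              have h1 : p ∣ 256 * W.Δ.natAbs := by
                rw [hDn]
                exact Dvd.dvd.mul_left (dvd_pow hpd two_ne_zero) _
              rcases (Nat.Prime.dvd_mul hp).1 h1 with h | h
              · have : (256 : ℕ) = 2 ^ 8 := by norm_num
                rw [this] at h
                exact Dvd.dvd.mul_right (hp.dvd_of_dvd_pow h) _
              · exact Dvd.dvd.mul_left h _
          _ ≤ rd 2 * rd W.Δ.natAbs := rd_mul_le _ _ two_ne_zero hΔn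
          _ = 2 * rd W.Δ.natAbs := by
              have h2' : rd 2 = 2 := by
                have := rd_prime_pow 2 1 Nat.prime_two one_ne_zero
                simpa using this
              rw [h2']
      · -- `(a+b)^4 ≤ 1024 D`
        have h1 : a + b ≤ 2 * (a * b) := by
          nlinarith [mul_le_mul ha hb (by omega) (by omega), Nat.mul_le_mul ha (le_refl b),
            Nat.mul_le_mul (le_refl a) hb]
        have h2' : (a + b) ^ 2 ≤ 2 * (a * b * (a + b)) := by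
          calc (a + b) ^ 2 = (a + b) * (a + b) := by ring
            _ ≤ (2 * (a * b)) * (a + b) := Nat.mul_le_mul_right _ h1
            _ = 2 * (a * b * (a + b)) := by ring
        calc (a + b) ^ 4 = ((a + b) ^ 2) ^ 2 := by ring
          _ ≤ (2 * (a * b * (a + b))) ^ 2 := Nat.pow_le_pow_left h2' 2
          _ = 4 * (1 * (a * b * (a + b)) ^ 2) := by ring
          _ ≤ 4 * (g ^ 6 * (a * b * (a + b)) ^ 2) :=
              Nat.mul_le_mul_left _ (Nat.mul_le_mul_right _ hg1)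
          _ = 4 * (256 * W.Δ.natAbs) := by rw [hDn]
          _ = 1024 * W.Δ.natAbs := by ring
      · exact H1_height W a b g hg e4 eD
    · rcases hg with rfl | rfl <;> simp
  refine ⟨(Finset.finite_toSet F).subset hsub, ?_⟩
  calc (FullH P).ncard ≤ (F : Set (ℤ × ℤ)).ncard := Set.ncard_le_ncard hsub F.finite_toSet
    _ = F.card := Set.ncard_coe_finset F
    _ ≤ (S ×ˢ (({1, 2} : Finset ℕ) ×ˢ ({1, -1} : Finset ℤ))).card := Finset.card_image_le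
    _ = 4 * S.card := by
        rw [Finset.card_product, Finset.card_product]
        have e1 : ({1, 2} : Finset ℕ).card = 2 := by decide
        have e2 : ({1, -1} : Finset ℤ).card = 2 := by decide
        rw [e1, e2]
        ring

/-- the condition on the radical, up to finitely many pairs -/
theorem H1_key (s ε t : ℝ) (hε : 0 < ε) (ht : 1 / 3 ≤ t) (ht' : t ≤ 1)
    (hor : t = 1 / 3 ∨ t = s / 6 - ε / 2) : ∃ K0 : ℝ, ∀ a b N H : ℕ, 1 ≤ a → 1 ≤ b → 1 ≤ N →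
      rd (a * b * (a + b)) ≤ 2 * N → (N : ℝ) ^ s ≤ (H : ℝ) → H ≤ 256 * (a + b) ^ 6 →
      (rd (a * b * (a + b)) : ℝ) ^ t ≤ ((a + b : ℕ) : ℝ) ∨ ((a + b : ℕ) : ℝ) < K0 := by
  refine ⟨(2 * 6 ^ (2 / ε)) ^ t, ?_⟩
  intro a b N H ha hb hN hrd hH hH'
  have hab0 : (0 : ℝ) < ((a + b : ℕ) : ℝ) := by
    have : 0 < a + b := by omega
    exact_mod_cast this
  rcases hor with ht3 | ht3
  · left
    have h1 : rd (a * b * (a + b)) ≤ (a + b) ^ 3 := by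
      refine (rd_le (by positivity)).trans ?_
      have h2 : a * b ≤ (a + b) ^ 2 := by nlinarith
      calc a * b * (a + b) ≤ (a + b) ^ 2 * (a + b) := Nat.mul_le_mul_right _ h2
        _ = (a + b) ^ 3 := by ring
    have h3 : (rd (a * b * (a + b)) : ℝ) ≤ (((a + b : ℕ) : ℝ)) ^ 3 := by exact_mod_cast h1
    calc (rd (a * b * (a + b)) : ℝ) ^ t ≤ ((((a + b : ℕ) : ℝ)) ^ 3) ^ t :=
          Real.rpow_le_rpow (by positivity) h3 (by linarith)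
      _ = ((a + b : ℕ) : ℝ) := by
          rw [← Real.rpow_natCast, ← Real.rpow_mul hab0.le, ht3]
          norm_num
  · have hN1 : (1 : ℝ) ≤ (N : ℝ) := by exact_mod_cast hN
    have hN0 : (0 : ℝ) < (N : ℝ) := by linarith
    have hrdR : (rd (a * b * (a + b)) : ℝ) ≤ 2 * N := by exact_mod_cast hrd
    have h2t : (2 : ℝ) ^ t ≤ 2 := by
      calc (2 : ℝ) ^ t ≤ (2 : ℝ) ^ (1 : ℝ) :=
            Real.rpow_le_rpow_of_exponent_le (by norm_num) (by linarith)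
        _ = 2 := Real.rpow_one 2
    have hrt : (rd (a * b * (a + b)) : ℝ) ^ t ≤ (2 * (N : ℝ)) ^ t :=
      Real.rpow_le_rpow (by positivity) hrdR (by linarith)
    -- `N^(s/6) ≤ 3 (a+b)`
    have hNs : (N : ℝ) ^ (s / 6) ≤ 3 * ((a + b : ℕ) : ℝ) := by
      have h1 : ((N : ℝ) ^ (s / 6)) ^ 6 ≤ (3 * ((a + b : ℕ) : ℝ)) ^ 6 := by
        have e1 : ((N : ℝ) ^ (s / 6)) ^ 6 = (N : ℝ) ^ s := by
          rw [← Real.rpow_natCast, ← Real.rpow_mul hN0.le]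
          congr 1
          push_cast
          ring
        have h2 : (H : ℝ) ≤ 256 * (((a + b : ℕ) : ℝ)) ^ 6 := by exact_mod_cast hH'
        have h3 : 0 ≤ (((a + b : ℕ) : ℝ)) ^ 6 := by positivity
        rw [e1, mul_pow]
        calc (N : ℝ) ^ s ≤ 256 * (((a + b : ℕ) : ℝ)) ^ 6 := hH.trans h2
          _ ≤ 3 ^ 6 * (((a + b : ℕ) : ℝ)) ^ 6 := by
              apply mul_le_mul_of_nonneg_right (by norm_num) h3
      exact le_of_pow_le_pow_left₀ (by norm_num) (by positivity) h1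
    by_cases hbig : (6 : ℝ) ≤ (N : ℝ) ^ (ε / 2)
    · left
      have e2 : (N : ℝ) ^ t * (N : ℝ) ^ (ε / 2) = (N : ℝ) ^ (s / 6) := by
        rw [← Real.rpow_add hN0, ht3]
        congr 1
        ring
      have hNt : 0 < (N : ℝ) ^ t := Real.rpow_pos_of_pos hN0 _
      have h4 : (N : ℝ) ^ t * 6 ≤ 3 * ((a + b : ℕ) : ℝ) := by
        calc (N : ℝ) ^ t * 6 ≤ (N : ℝ) ^ t * (N : ℝ) ^ (ε / 2) :=
              mul_le_mul_of_nonneg_left hbig hNt.le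
          _ = (N : ℝ) ^ (s / 6) := e2
          _ ≤ _ := hNs
      calc (rd (a * b * (a + b)) : ℝ) ^ t ≤ (2 * (N : ℝ)) ^ t := hrt
        _ = (2 : ℝ) ^ t * (N : ℝ) ^ t := Real.mul_rpow (by norm_num) hN0.le
        _ ≤ 2 * (N : ℝ) ^ t := mul_le_mul_of_nonneg_right h2t hNt.le
        _ ≤ ((a + b : ℕ) : ℝ) := by linarith
    · push Not at hbig
      by_cases hK : (2 * 6 ^ (2 / ε) : ℝ) ^ t ≤ ((a + b : ℕ) : ℝ)
      · left
        refine le_trans hrt (le_trans ?_ hK)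
        apply Real.rpow_le_rpow (by positivity) _ (by linarith)
        have h5 : (N : ℝ) ≤ 6 ^ (2 / ε) := by
          calc (N : ℝ) = ((N : ℝ) ^ (ε / 2)) ^ (2 / ε) := by
                rw [← Real.rpow_mul hN0.le]
                have : ε / 2 * (2 / ε) = 1 := by field_simp
                rw [this, Real.rpow_one]
            _ ≤ 6 ^ (2 / ε) := Real.rpow_le_rpow (by positivity) hbig.le (by positivity)
        linarith
      · right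
        exact not_le.1 hK

/-- the bound for `a + b` -/
theorem H1_size (κ κ' Y : ℝ) (hκ : 1 ≤ κ) (hκ' : κ' = κ / 4 + 3) (hY : 1 ≤ Y) (a b D : ℕ)
    (h4 : (a + b) ^ 4 ≤ 1024 * D) (hD : (D : ℝ) ≤ Y ^ κ) : ((a + b : ℕ) : ℝ) ≤ (2 * Y) ^ κ' := by
  have hY0 : 0 < Y := by linarith
  have h1 : (((a + b : ℕ) : ℝ)) ^ 4 ≤ 1024 * Y ^ κ := by
    have : (((a + b) ^ 4 : ℕ) : ℝ) ≤ ((1024 * D : ℕ) : ℝ) := by exact_mod_cast h4
    push_cast at this ⊢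
    nlinarith [this, hD]
  have h2 : 1024 * Y ^ κ ≤ ((2 * Y) ^ κ') ^ 4 := by
    have e1 : ((2 * Y) ^ κ') ^ 4 = (2 * Y) ^ (κ + 12) := by
      rw [← Real.rpow_natCast, ← Real.rpow_mul (by linarith)]
      congr 1
      rw [hκ']
      push_cast
      ring
    rw [e1, Real.rpow_add (by linarith), Real.mul_rpow (by norm_num) hY0.le]
    have e2 : (1 : ℝ) ≤ (2 : ℝ) ^ κ := Real.one_le_rpow (by norm_num) (by linarith)
    have e3 : (4096 : ℝ) ≤ (2 * Y) ^ (12 : ℝ) := by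
      have : (2 : ℝ) ^ (12 : ℝ) ≤ (2 * Y) ^ (12 : ℝ) :=
        Real.rpow_le_rpow (by norm_num) (by linarith) (by norm_num)
      have e4 : (2 : ℝ) ^ (12 : ℝ) = 4096 := by
        rw [show (12 : ℝ) = ((12 : ℕ) : ℝ) by norm_num, Real.rpow_natCast]
        norm_num
      rwa [e4] at this
    have e5 : 0 < Y ^ κ := Real.rpow_pos_of_pos hY0 _
    calc 1024 * Y ^ κ ≤ (1 * Y ^ κ) * 4096 := by linarith
      _ ≤ ((2 : ℝ) ^ κ * Y ^ κ) * (2 * Y) ^ (12 : ℝ) := by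
        apply mul_le_mul _ e3 (by norm_num) (by positivity)
        exact mul_le_mul_of_nonneg_right e2 e5.le
  exact le_of_pow_le_pow_left₀ (by norm_num) (by positivity) (h1.trans h2)

theorem upH (s ε κ : ℝ) (hs : 2 ≤ s) (hs' : s ≤ 11 / 5) (hε : 0 < ε) : ∃ C : ℝ, 1 ≤ C ∧ ∀ Y : ℝ, 1 ≤ Y →
    (FullH (fun N D H => (N : ℝ) ≤ Y ∧ (N : ℝ) ^ s ≤ (H : ℝ) ∧ (D : ℝ) ≤ Y ^ κ)).Finite ∧
    ((FullH (fun N D H => (N : ℝ) ≤ Y ∧ (N : ℝ) ^ s ≤ (H : ℝ) ∧ (D : ℝ) ≤ Y ^ κ)).ncard : ℝ) ≤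
      C * Y ^ (1 - s / 6 + ε) := by
  classical
  set κ1 : ℝ := max κ 1 with hκ1
  set κ' : ℝ := κ1 / 4 + 3 with hκ'
  have hκ1' : 1 ≤ κ1 := le_max_right _ _
  have hκ'1 : 1 ≤ κ' := by rw [hκ']; linarith
  set t : ℝ := max (1 / 3) (s / 6 - ε / 2) with htdef
  have ht : 1 / 3 ≤ t := le_max_left _ _
  have ht' : t ≤ 11 / 30 := max_le (by norm_num) (by linarith)
  have hor : t = 1 / 3 ∨ t = s / 6 - ε / 2 := max_choice _ _
  have htge : s / 6 - ε / 2 ≤ t := le_max_right _ _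
  obtain ⟨K0, hK0⟩ := H1_key s ε t hε ht (by linarith) hor
  obtain ⟨C, hC, hmain⟩ := lg_upper t (ε / 2) κ' ht ht' (by linarith) hκ'1
  set K : ℕ := ⌊K0⌋₊ with hK
  set P2 : ℝ := (2 : ℝ) ^ (1 - t + ε / 2) with hP2
  have hP21 : 1 ≤ P2 := Real.one_le_rpow (by norm_num) (by linarith)
  refine ⟨4 * (C * P2 + (K : ℝ) * K), ?_, ?_⟩
  · have : 0 ≤ (K : ℝ) * K := by positivity
    nlinarith
  intro Y hY
  have hY0 : 0 < Y := by linarith
  have h2Y : 1 ≤ 2 * Y := by linarith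
  set M : ℕ := ⌊(2 * Y) ^ κ'⌋₊ with hM
  set S1 : Finset (ℕ × ℕ) := (Icc 1 M ×ˢ Icc 1 M).filter (fun q : ℕ × ℕ =>
    1 ≤ q.1 ∧ 1 ≤ q.2 ∧ Nat.Coprime q.1 q.2 ∧ ((q.1 + q.2 : ℕ) : ℝ) ≤ (2 * Y) ^ κ' ∧
      (rd (q.1 * q.2 * (q.1 + q.2)) : ℝ) ≤ 2 * Y ∧
      (rd (q.1 * q.2 * (q.1 + q.2)) : ℝ) ^ t ≤ ((q.1 + q.2 : ℕ) : ℝ)) with hS1
  have hcov := cover_ht (fun N D H => (N : ℝ) ≤ Y ∧ (N : ℝ) ^ s ≤ (H : ℝ) ∧ (D : ℝ) ≤ Y ^ κ)
    (S1 ∪ Icc 1 K ×ˢ Icc 1 K) ?_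
  · refine ⟨hcov.1, ?_⟩
    have hexp : 0 ≤ 1 - t + ε / 2 := by linarith
    have h1 : (S1.card : ℝ) ≤ C * (2 * Y) ^ (1 - t + ε / 2) := by
      apply hmain (2 * Y) S1 h2Y
      intro q hq
      exact (Finset.mem_filter.1 hq).2
    have h2 : (2 * Y) ^ (1 - t + ε / 2) = P2 * Y ^ (1 - t + ε / 2) := by
      rw [Real.mul_rpow (by norm_num) hY0.le]
    have h3 : ((S1 ∪ Icc 1 K ×ˢ Icc 1 K).card : ℝ) ≤ S1.card + (K : ℝ) * K := by
      have h4 : (S1 ∪ Icc 1 K ×ˢ Icc 1 K).card ≤ S1.card + K * K := by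
        refine (Finset.card_union_le _ _).trans ?_
        rw [Finset.card_product, Nat.card_Icc, Nat.add_sub_cancel]
      exact_mod_cast h4
    have h5 : (1 : ℝ) ≤ Y ^ (1 - t + ε / 2) := Real.one_le_rpow hY hexp
    have h6 : Y ^ (1 - t + ε / 2) ≤ Y ^ (1 - s / 6 + ε) :=
      Real.rpow_le_rpow_of_exponent_le hY (by linarith)
    have h7 : 0 ≤ (K : ℝ) * K := by positivity
    calc ((FullH (fun N D H => (N : ℝ) ≤ Y ∧ (N : ℝ) ^ s ≤ (H : ℝ) ∧ (D : ℝ) ≤ Y ^ κ)).ncard : ℝ)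
        ≤ ((4 * (S1 ∪ Icc 1 K ×ˢ Icc 1 K).card : ℕ) : ℝ) := by exact_mod_cast hcov.2
      _ = 4 * ((S1 ∪ Icc 1 K ×ˢ Icc 1 K).card : ℝ) := by push_cast; ring
      _ ≤ 4 * (S1.card + (K : ℝ) * K) := by linarith
      _ ≤ 4 * (C * (P2 * Y ^ (1 - t + ε / 2)) + (K : ℝ) * K * Y ^ (1 - t + ε / 2)) := by
          rw [h2] at h1
          have h8 : (K : ℝ) * K ≤ (K : ℝ) * K * Y ^ (1 - t + ε / 2) := le_mul_of_one_le_right h7 h5
          linarith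
      _ = 4 * (C * P2 + (K : ℝ) * K) * Y ^ (1 - t + ε / 2) := by ring
      _ ≤ 4 * (C * P2 + (K : ℝ) * K) * Y ^ (1 - s / 6 + ε) := by
          apply mul_le_mul_of_nonneg_left h6
          have : 0 ≤ C * P2 := by positivity
          linarith
  · intro a b N D H ha hb hab hP hN hrd h4 hH
    obtain ⟨hP1, hP2', hP3⟩ := hP
    have hN1 : (1 : ℝ) ≤ (N : ℝ) := by exact_mod_cast hN
    have hD : (D : ℝ) ≤ Y ^ κ1 :=
      hP3.trans (Real.rpow_le_rpow_of_exponent_le hY (le_max_left _ _))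
    have hsize := H1_size κ1 κ' Y hκ1' hκ' hY a b D h4 hD
    have hrdR : (rd (a * b * (a + b)) : ℝ) ≤ 2 * N := by exact_mod_cast hrd
    rw [Finset.mem_union]
    rcases hK0 a b N H ha hb hN hrd hP2' hH with h | h
    · left
      rw [hS1, Finset.mem_filter, Finset.mem_product, Finset.mem_Icc, Finset.mem_Icc]
      have hM' : a + b ≤ M := Nat.le_floor hsize
      exact ⟨⟨⟨ha, by omega⟩, ⟨hb, by omega⟩⟩, ha, hb, hab, hsize, by linarith, h⟩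
    · right
      have hK' : a + b ≤ K := Nat.le_floor h.le
      rw [Finset.mem_product, Finset.mem_Icc, Finset.mem_Icc]
      exact ⟨⟨ha, by omega⟩, ⟨hb, by omega⟩⟩

theorem three_fifths_H (κ : ℝ) : ∃ C : ℝ, 1 ≤ C ∧ ∀ Y : ℝ, 1 ≤ Y →
    (FullH (fun N D H => (N : ℝ) ≤ Y ∧ (N : ℝ) ^ (6 - 1 / 5000 : ℝ) ≤ (H : ℝ) ∧
      (D : ℝ) ≤ Y ^ κ)).Finite ∧
    ((FullH (fun N D H => (N : ℝ) ≤ Y ∧ (N : ℝ) ^ (6 - 1 / 5000 : ℝ) ≤ (H : ℝ) ∧
      (D : ℝ) ≤ Y ^ κ)).ncard : ℝ) ≤ C * Y ^ (3 / 5 - 1 / 5000 : ℝ) := by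
  classical
  set κ1 : ℝ := max κ 1 with hκ1
  set κ' : ℝ := κ1 / 4 + 3 with hκ'
  have hκ1' : 1 ≤ κ1 := le_max_right _ _
  have hκ'1 : 1 ≤ κ' := by rw [hκ']; linarith
  obtain ⟨K0, hK0⟩ := H1_key (6 - 1 / 5000) (1 / 30000) (1 - 1 / 20000) (by norm_num) (by norm_num)
    (by norm_num) (Or.inr (by norm_num))
  obtain ⟨C, hC, hmain⟩ := abc_three_fifths κ' hκ'1
  set K : ℕ := ⌊K0⌋₊ with hK
  set P2 : ℝ := (2 : ℝ) ^ (3 / 5 - 1 / 5000 : ℝ) with hP2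
  have hP21 : 1 ≤ P2 := Real.one_le_rpow (by norm_num) (by norm_num)
  refine ⟨4 * (C * P2 + (K : ℝ) * K), ?_, ?_⟩
  · have : 0 ≤ (K : ℝ) * K := by positivity
    nlinarith
  intro Y hY
  have hY0 : 0 < Y := by linarith
  have h2Y : 1 ≤ 2 * Y := by linarith
  set M : ℕ := ⌊(2 * Y) ^ κ'⌋₊ with hM
  set S1 : Finset (ℕ × ℕ) := (Icc 1 M ×ˢ Icc 1 M).filter (fun q : ℕ × ℕ =>
    1 ≤ q.1 ∧ 1 ≤ q.2 ∧ Nat.Coprime q.1 q.2 ∧ ((q.1 + q.2 : ℕ) : ℝ) ≤ (2 * Y) ^ κ' ∧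
      (rd (q.1 * q.2 * (q.1 + q.2)) : ℝ) ≤ 2 * Y ∧
      (rd (q.1 * q.2 * (q.1 + q.2)) : ℝ) ^ (1 - 1 / 20000 : ℝ) ≤ ((q.1 + q.2 : ℕ) : ℝ)) with hS1
  have hcov := cover_ht (fun N D H => (N : ℝ) ≤ Y ∧ (N : ℝ) ^ (6 - 1 / 5000 : ℝ) ≤ (H : ℝ) ∧ (D : ℝ) ≤ Y ^ κ)
    (S1 ∪ Icc 1 K ×ˢ Icc 1 K) ?_
  · refine ⟨hcov.1, ?_⟩
    have hexp : (0 : ℝ) ≤ 3 / 5 - 1 / 5000 := by norm_num
    have h1 : (S1.card : ℝ) ≤ C * (2 * Y) ^ (3 / 5 - 1 / 5000 : ℝ) := by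
      apply hmain (2 * Y) S1 h2Y
      intro q hq
      exact (Finset.mem_filter.1 hq).2
    have h2 : (2 * Y) ^ (3 / 5 - 1 / 5000 : ℝ) = P2 * Y ^ (3 / 5 - 1 / 5000 : ℝ) := by
      rw [Real.mul_rpow (by norm_num) hY0.le]
    have h3 : ((S1 ∪ Icc 1 K ×ˢ Icc 1 K).card : ℝ) ≤ S1.card + (K : ℝ) * K := by
      have h4 : (S1 ∪ Icc 1 K ×ˢ Icc 1 K).card ≤ S1.card + K * K := by
        refine (Finset.card_union_le _ _).trans ?_
        rw [Finset.card_product, Nat.card_Icc, Nat.add_sub_cancel]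
      exact_mod_cast h4
    have h5 : (1 : ℝ) ≤ Y ^ (3 / 5 - 1 / 5000 : ℝ) := Real.one_le_rpow hY hexp
    have h7 : 0 ≤ (K : ℝ) * K := by positivity
    calc ((FullH (fun N D H => (N : ℝ) ≤ Y ∧ (N : ℝ) ^ (6 - 1 / 5000 : ℝ) ≤ (H : ℝ) ∧ (D : ℝ) ≤ Y ^ κ)).ncard : ℝ)
        ≤ ((4 * (S1 ∪ Icc 1 K ×ˢ Icc 1 K).card : ℕ) : ℝ) := by exact_mod_cast hcov.2
      _ = 4 * ((S1 ∪ Icc 1 K ×ˢ Icc 1 K).card : ℝ) := by push_cast; ring
      _ ≤ 4 * (S1.card + (K : ℝ) * K) := by linarith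
      _ ≤ 4 * (C * (P2 * Y ^ (3 / 5 - 1 / 5000 : ℝ)) + (K : ℝ) * K * Y ^ (3 / 5 - 1 / 5000 : ℝ)) := by
          rw [h2] at h1
          have h8 : (K : ℝ) * K ≤ (K : ℝ) * K * Y ^ (3 / 5 - 1 / 5000 : ℝ) := le_mul_of_one_le_right h7 h5
          linarith
      _ = 4 * (C * P2 + (K : ℝ) * K) * Y ^ (3 / 5 - 1 / 5000 : ℝ) := by ring
  · intro a b N D H ha hb hab hP hN hrd h4 hH
    obtain ⟨hP1, hP2', hP3⟩ := hP
    have hN1 : (1 : ℝ) ≤ (N : ℝ) := by exact_mod_cast hN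
    have hD : (D : ℝ) ≤ Y ^ κ1 :=
      hP3.trans (Real.rpow_le_rpow_of_exponent_le hY (le_max_left _ _))
    have hsize := H1_size κ1 κ' Y hκ1' hκ' hY a b D h4 hD
    have hrdR : (rd (a * b * (a + b)) : ℝ) ≤ 2 * N := by exact_mod_cast hrd
    rw [Finset.mem_union]
    rcases hK0 a b N H ha hb hN hrd hP2' hH with h | h
    · left
      rw [hS1, Finset.mem_filter, Finset.mem_product, Finset.mem_Icc, Finset.mem_Icc]
      have hM' : a + b ≤ M := Nat.le_floor hsize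
      exact ⟨⟨⟨ha, by omega⟩, ⟨hb, by omega⟩⟩, ha, hb, hab, hsize, by linarith, h⟩
    · right
      have hK' : a + b ≤ K := Nat.le_floor h.le
      rw [Finset.mem_product, Finset.mem_Icc, Finset.mem_Icc]
      exact ⟨⟨ha, by omega⟩, ⟨hb, by omega⟩⟩

end Fr

end Pool.Agent.Lib.MP_d8bd92_nt
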