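import Pool.Agent.Lib.MP_d8bd92_nt.Fr.C2
import Pool.Agent.Lib.MP_d8bd92_nt.Fr.D1
import Pool.Agent.Lib.MP_d8bd92_nt.Fr.H1
import Pool.Agent.Lib.MP_d8bd92_nt.CdK3

set_option autoImplicit false

/-!
The number of the semistable curves with full rational 2-torsion, conductor `≤ Y` and `|Δ| ≤ Y ^ κ` (or
height `≤ Y ^ κ`) is asymptotic to `c Y ^ (2/3)`, with one constant `c > 0` for all `κ > 2`.
-/

namespace Pool.Agent.Lib.MP_d8bd92_nt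

namespace Fr

open Finset Filter Topology Pool.Agent.Lib.Szpiro

theorem rd_sq (n : ℕ) : rd (n ^ 2) = rd n := by
  unfold rd
  rw [Nat.primeFactors_pow _ (by norm_num)]

theorem natAbs_sq (w : ℤ × ℤ) : ((w.1 * w.2 * cc w) ^ 2).natAbs = nn w ^ 2 := by
  rw [nn, Int.natAbs_pow]

/-- the discriminant is bounded by the height -/
theorem disc_le_ht (W : WeierstrassCurve ℤ) :
    W.Δ.natAbs ≤ max (W.c₄.natAbs ^ 3) (W.c₆.natAbs ^ 2) := by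
  have g1 : (1728 : ℤ) * W.Δ = W.c₄ ^ 3 - W.c₆ ^ 2 := W.c_relation
  have g2 : 1728 * W.Δ.natAbs ≤ W.c₄.natAbs ^ 3 + W.c₆.natAbs ^ 2 := by
    have g3 := Int.natAbs_sub_le (W.c₄ ^ 3) (W.c₆ ^ 2)
    rw [← g1, Int.natAbs_mul, Int.natAbs_pow, Int.natAbs_pow] at g3
    exact g3
  have g4 := le_max_left (W.c₄.natAbs ^ 3) (W.c₆.natAbs ^ 2)
  have g5 := le_max_right (W.c₄.natAbs ^ 3) (W.c₆.natAbs ^ 2)
  omega

/-- the curves with `N ≤ Y`, `|Δ| ≤ Y ^ κ` -/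
def FD (Y κ : ℝ) : Set (ℤ × ℤ) := FullH (fun N D _ => (N : ℝ) ≤ Y ∧ (D : ℝ) ≤ Y ^ κ)

/-- the curves with `N ≤ Y`, `H ≤ Y ^ κ` -/
def FT (Y κ : ℝ) : Set (ℤ × ℤ) := FullH (fun N _ H => (N : ℝ) ≤ Y ∧ (H : ℝ) ≤ Y ^ κ)

/-- the exceptional set -/
def FX (Y s κ : ℝ) : Set (ℤ × ℤ) :=
  FullH (fun N D H => (N : ℝ) ≤ Y ∧ (N : ℝ) ^ s ≤ (H : ℝ) ∧ (D : ℝ) ≤ Y ^ κ)

theorem FD_eq (Y κ : ℝ) : FD Y κ = FullTwoSet (fun N D => (N : ℝ) ≤ Y ∧ (D : ℝ) ≤ Y ^ κ) := rfl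

theorem FD_finite (Y κ : ℝ) : (FD Y κ).Finite := by
  refine (full_two_finite (Y ^ κ)).subset ?_
  rintro x ⟨W, h1, h2, h3, h4, h5, h6⟩
  exact ⟨W, h1, h2, h3, h4, h5, h6.2⟩

theorem FT_sub (Y κ : ℝ) : FT Y κ ⊆ FD Y κ := by
  rintro x ⟨W, h1, h2, h3, h4, h5, h6, h7⟩
  have h8 : ((W.Δ.natAbs : ℕ) : ℝ) ≤ ((max (W.c₄.natAbs ^ 3) (W.c₆.natAbs ^ 2) : ℕ) : ℝ) := by
    exact_mod_cast disc_le_ht W
  exact ⟨W, h1, h2, h3, h4, h5, h6, h8.trans h7⟩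

/-- all curves come from good pairs with small excess, or are exceptional -/
theorem FD_sub (Y κ η : ℝ) (hY : 1 ≤ Y) (hη : 0 < η) :
    FD Y κ ⊆ ff '' Gs Y η ∪ FX Y (2 + 2 * η) κ := by
  rintro x ⟨W, h1, h2, h3, h4, h5, h6, h7⟩
  obtain ⟨w, hw, hf, hD⟩ := param W h3 h4 h5
  have hn : W.Δ.natAbs = nn w ^ 2 := by rw [hD, natAbs_sq]
  have hr : rd W.Δ.natAbs = rd (nn w) := by rw [hn, rd_sq]
  have hN : ((rd (nn w) : ℕ) : ℝ) ≤ Y := by rw [← hr]; exact h6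
  have hN1 : (1 : ℝ) ≤ ((rd (nn w) : ℕ) : ℝ) := by exact_mod_cast rd_pos (nn w)
  have hN0 : (0 : ℝ) < ((rd (nn w) : ℕ) : ℝ) := by linarith
  by_cases hc : ((nn w : ℕ) : ℝ) ≤ Y ^ η * ((rd (nn w) : ℕ) : ℝ)
  · left
    refine ⟨w, ⟨hw, hN, hc⟩, ?_⟩
    rw [← hf, h1, h2]
  · right
    refine ⟨W, h1, h2, h3, h4, h5, h6, ?_, h7⟩
    push Not at hc
    have e1 : ((rd (nn w) : ℕ) : ℝ) ^ (1 + η) ≤ ((nn w : ℕ) : ℝ) := by
      have : ((rd (nn w) : ℕ) : ℝ) ^ (1 + η) = ((rd (nn w) : ℕ) : ℝ) ^ η * ((rd (nn w) : ℕ) : ℝ) := by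
        rw [add_comm, Real.rpow_add_one hN0.ne']
      rw [this]
      have h8 : ((rd (nn w) : ℕ) : ℝ) ^ η ≤ Y ^ η := Real.rpow_le_rpow hN0.le hN hη.le
      exact (mul_le_mul_of_nonneg_right h8 hN0.le).trans hc.le
    have e2 : ((rd (nn w) : ℕ) : ℝ) ^ (2 + 2 * η) ≤ ((nn w : ℕ) : ℝ) ^ 2 := by
      have : ((rd (nn w) : ℕ) : ℝ) ^ (2 + 2 * η) = (((rd (nn w) : ℕ) : ℝ) ^ (1 + η)) ^ 2 := by
        rw [← Real.rpow_natCast, ← Real.rpow_mul hN0.le]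
        congr 1
        push_cast
        ring
      rw [this]
      exact pow_le_pow_left₀ (by positivity) e1 2
    rw [hr]
    refine e2.trans ?_
    have h8 := disc_le_ht W
    rw [hn] at h8
    exact_mod_cast h8

/-- the good pairs with small excess give curves of small discriminant -/
theorem sub_FD (Y κ η : ℝ) (hY : 1 ≤ Y) (hκ : 2 + 2 * η ≤ κ) : ff '' Gs Y η ⊆ FD Y κ := by
  rintro x ⟨w, ⟨hw, hN, hc⟩, rfl⟩
  have hY0 : 0 < Y := by linarith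
  obtain ⟨W, hf, hD, h4, h5⟩ := curve_f w hw
  have hn : W.Δ.natAbs = nn w ^ 2 := by rw [hD, natAbs_sq]
  have hr : rd W.Δ.natAbs = rd (nn w) := by rw [hn, rd_sq]
  have hne : W.Δ ≠ 0 := by
    rw [hD]
    exact pow_ne_zero 2 (mul_ne_zero (mul_ne_zero (good_ne w hw).1 hw.2.1.ne') (good_ne w hw).2)
  refine ⟨W, ?_, ?_, hne, h4, h5, ?_, ?_⟩
  · rw [← hf]
  · rw [← hf]
  · rw [hr]; exact hN
  · rw [hn]
    push_cast
    have e1 : ((nn w : ℕ) : ℝ) ≤ Y ^ (1 + η) := by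
      have : Y ^ (1 + η) = Y ^ η * Y := by rw [add_comm, Real.rpow_add_one hY0.ne']
      rw [this]
      exact hc.trans (mul_le_mul_of_nonneg_left hN (Real.rpow_nonneg hY0.le _))
    calc ((nn w : ℕ) : ℝ) ^ 2 ≤ (Y ^ (1 + η)) ^ 2 := pow_le_pow_left₀ (Nat.cast_nonneg _) e1 2
      _ = Y ^ (2 + 2 * η) := by
          rw [← Real.rpow_natCast, ← Real.rpow_mul hY0.le]
          congr 1
          push_cast
          ring
      _ ≤ Y ^ κ := Real.rpow_le_rpow_of_exponent_le hY hκ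

/-- the curves of small discriminant have small height or are exceptional -/
theorem FD_FT (Y κ : ℝ) (s : ℝ) (hY : 1 ≤ Y) (hs0 : 0 ≤ s) (hs : s ≤ κ) :
    FD Y κ ⊆ FT Y κ ∪ FX Y s κ := by
  rintro x ⟨W, h1, h2, h3, h4, h5, h6, h7⟩
  by_cases hc : ((max (W.c₄.natAbs ^ 3) (W.c₆.natAbs ^ 2) : ℕ) : ℝ) ≤ Y ^ κ
  · exact Or.inl ⟨W, h1, h2, h3, h4, h5, h6, hc⟩
  · right
    push Not at hc
    refine ⟨W, h1, h2, h3, h4, h5, h6, ?_, h7⟩
    have hN0 : (0 : ℝ) ≤ ((rd W.Δ.natAbs : ℕ) : ℝ) := Nat.cast_nonneg _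
    calc ((rd W.Δ.natAbs : ℕ) : ℝ) ^ s ≤ Y ^ s := Real.rpow_le_rpow hN0 h6 hs0
      _ ≤ Y ^ κ := Real.rpow_le_rpow_of_exponent_le hY hs
      _ ≤ _ := hc.le

theorem full_asymp : ∃ c : ℝ, 0 < c ∧ ∀ κ : ℝ, 2 < κ →
    Tendsto (fun Y : ℝ => (((FD Y κ).ncard : ℕ) : ℝ) / Y ^ (2 / 3 : ℝ)) atTop (𝓝 c) ∧
    Tendsto (fun Y : ℝ => (((FT Y κ).ncard : ℕ) : ℝ) / Y ^ (2 / 3 : ℝ)) atTop (𝓝 c) := by
  obtain ⟨c, hc⟩ := G_limit
  have main : ∀ κ : ℝ, 2 < κ →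
      Tendsto (fun Y : ℝ => (((FD Y κ).ncard : ℕ) : ℝ) / Y ^ (2 / 3 : ℝ)) atTop (𝓝 c) ∧
      Tendsto (fun Y : ℝ => (((FT Y κ).ncard : ℕ) : ℝ) / Y ^ (2 / 3 : ℝ)) atTop (𝓝 c) := by
    intro κ hκ
    obtain ⟨η, hη⟩ : ∃ η : ℝ, η = min (1 / 40) ((κ - 2) / 2) := ⟨_, rfl⟩
    have hη0 : 0 < η := by rw [hη]; exact lt_min (by norm_num) (by linarith)
    have hη1 : η ≤ 1 / 40 := by rw [hη]; exact min_le_left _ _
    have hη2 : 2 + 2 * η ≤ κ := by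
      have : η ≤ (κ - 2) / 2 := by rw [hη]; exact min_le_right _ _
      linarith
    obtain ⟨C, hC, hE⟩ := upH (2 + 2 * η) (η / 6) κ (by linarith) (by linarith) (by positivity)
    have hG := hc η hη0 hη1
    -- the comparison
    have hcmp : ∀ Y : ℝ, 1 ≤ Y →
        ((Gs Y η).ncard : ℝ) ≤ ((FD Y κ).ncard : ℝ) ∧
        ((FD Y κ).ncard : ℝ) ≤ ((Gs Y η).ncard : ℝ) + C * Y ^ (2 / 3 - η / 6 : ℝ) ∧
        ((FD Y κ).ncard : ℝ) ≤ ((FT Y κ).ncard : ℝ) + C * Y ^ (2 / 3 - η / 6 : ℝ) ∧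
        ((FT Y κ).ncard : ℝ) ≤ ((FD Y κ).ncard : ℝ) := by
      intro Y hY
      obtain ⟨hXf, hXc⟩ := hE Y hY
      have hexp : (1 - (2 + 2 * η) / 6 + η / 6 : ℝ) = 2 / 3 - η / 6 := by ring
      rw [hexp] at hXc
      have hXc' : ((FX Y (2 + 2 * η) κ).ncard : ℝ) ≤ C * Y ^ (2 / 3 - η / 6 : ℝ) := hXc
      have hXf' : (FX Y (2 + 2 * η) κ).Finite := hXf
      have hFf := FD_finite Y κ
      have hTf : (FT Y κ).Finite := hFf.subset (FT_sub Y κ)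
      have hinj : Set.InjOn ff (Gs Y η) := by
        intro w hw v hv h
        exact ff_inj w v hw.1 hv.1 h
      have hcard : (ff '' Gs Y η).ncard = (Gs Y η).ncard := hinj.ncard_image
      have hGf := Gs_finite Y η
      refine ⟨?_, ?_, ?_, ?_⟩
      · rw [← hcard]
        exact_mod_cast Set.ncard_le_ncard (sub_FD Y κ η hY hη2) hFf
      · have h1 := Set.ncard_le_ncard (FD_sub Y κ η hY hη0) ((hGf.image ff).union hXf')
        have h2 := Set.ncard_union_le (ff '' Gs Y η) (FX Y (2 + 2 * η) κ)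
        rw [hcard] at h2
        have h3 : ((FD Y κ).ncard : ℝ) ≤ ((Gs Y η).ncard : ℝ) + ((FX Y (2 + 2 * η) κ).ncard : ℝ) := by
          exact_mod_cast h1.trans h2
        linarith
      · have h1 := Set.ncard_le_ncard (FD_FT Y κ (2 + 2 * η) hY (by linarith) hη2) (hTf.union hXf')
        have h2 := Set.ncard_union_le (FT Y κ) (FX Y (2 + 2 * η) κ)
        have h3 : ((FD Y κ).ncard : ℝ) ≤ ((FT Y κ).ncard : ℝ) + ((FX Y (2 + 2 * η) κ).ncard : ℝ) := by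
          exact_mod_cast h1.trans h2
        linarith
      · exact_mod_cast Set.ncard_le_ncard (FT_sub Y κ) hFf
    have t0 : Tendsto (fun Y : ℝ => C * Y ^ (-(η / 6))) atTop (𝓝 0) := by
      have := (tendsto_rpow_neg_atTop (by positivity : 0 < η / 6)).const_mul C
      simpa using this
    have hdiv : ∀ Y : ℝ, 1 ≤ Y → C * Y ^ (2 / 3 - η / 6 : ℝ) / Y ^ (2 / 3 : ℝ) = C * Y ^ (-(η / 6)) := by
      intro Y hY
      have hY0 : 0 < Y := by linarith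
      rw [mul_div_assoc, ← Real.rpow_sub hY0]
      congr 2
      ring
    have t1 : Tendsto (fun Y : ℝ => (((FD Y κ).ncard : ℕ) : ℝ) / Y ^ (2 / 3 : ℝ)) atTop (𝓝 c) := by
      have tup : Tendsto (fun Y : ℝ => (((Gs Y η).ncard : ℕ) : ℝ) / Y ^ (2 / 3 : ℝ) + C * Y ^ (-(η / 6)))
          atTop (𝓝 c) := by
        have := hG.add t0
        simpa using this
      refine tendsto_of_tendsto_of_tendsto_of_le_of_le' hG tup ?_ ?_
      · filter_upwards [eventually_ge_atTop (1 : ℝ)] with Y hY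
        exact div_le_div_of_nonneg_right (hcmp Y hY).1 (by positivity)
      · filter_upwards [eventually_ge_atTop (1 : ℝ)] with Y hY
        rw [← hdiv Y hY, ← add_div]
        exact div_le_div_of_nonneg_right (hcmp Y hY).2.1 (by positivity)
    refine ⟨t1, ?_⟩
    have tlo : Tendsto (fun Y : ℝ => (((FD Y κ).ncard : ℕ) : ℝ) / Y ^ (2 / 3 : ℝ) - C * Y ^ (-(η / 6)))
        atTop (𝓝 c) := by
      have := t1.sub t0
      simpa using this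
    refine tendsto_of_tendsto_of_tendsto_of_le_of_le' tlo t1 ?_ ?_
    · filter_upwards [eventually_ge_atTop (1 : ℝ)] with Y hY
      rw [← hdiv Y hY, ← sub_div]
      refine div_le_div_of_nonneg_right ?_ (by positivity)
      linarith [(hcmp Y hY).2.2.1]
    · filter_upwards [eventually_ge_atTop (1 : ℝ)] with Y hY
      exact div_le_div_of_nonneg_right (hcmp Y hY).2.2.2 (by positivity)
  refine ⟨c, ?_, main⟩
  obtain ⟨c0, Y0, hc0, hY0, hmany⟩ := full_two_many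
  have hlim := (main 3 (by norm_num)).1
  have : c0 ≤ c := by
    apply ge_of_tendsto hlim
    filter_upwards [eventually_ge_atTop Y0] with Y hY
    have hY1 : 1 ≤ Y := hY0.trans hY
    have hYp : 0 < Y := by linarith
    rw [le_div_iff₀ (by positivity)]
    refine (hmany Y hY).trans ?_
    have hsub : FullTwoSet (fun N D => (N : ℝ) ≤ Y ∧ (D : ℝ) ≤ Y ^ 2) ⊆ FD Y 3 := by
      rintro x ⟨W, h1, h2, h3, h4, h5, h6, h7⟩
      refine ⟨W, h1, h2, h3, h4, h5, h6, h7.trans ?_⟩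
      rw [← Real.rpow_natCast]
      exact Real.rpow_le_rpow_of_exponent_le hY1 (by norm_num)
    exact_mod_cast Set.ncard_le_ncard hsub (FD_finite Y 3)
  linarith

end Fr

end Pool.Agent.Lib.MP_d8bd92_nt
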