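import Pool.Agent.Lib.MP_d8bd92_nt.Fr.Defs
import Pool.Agent.Lib.MP_d8bd92_nt.As.A1a

set_option autoImplicit false

/-!
ROW fr-A1a. The sum of the lengths `L X b` over a residue class of `b`, UNIFORM in the modulus `M`.

PROOF. With q = X^(1/3): L X b = q f(b/q), f(v) = 2 (√(64 v² + 1/v) - √(max (64 v² - 1/v) 0)), v > 0.
f = 2 (p + r), p(v) = √(64 v² + 1/v) - 8 v = (1/v)/(√(64 v² + 1/v) + 8 v) is DECREASING on (0,∞), p <= v^(-1/2), p <= 1/(16 v²);
r(v) = 8 v - √(max (64 v² - 1/v) 0): r = 8 v on (0,1/4] (increasing, r <= 2) and DECREASING on [1/4,∞), r <= 1/(8 v²) there.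
(p decreasing: p = (1/v)/(...) or derivative (64 v - 1/(2v²))/√(64v²+1/v) - 8 < 0; alternatively p(v) = 1/(v·√(64v²+1/v) + 8v²)
 = 1/(√(64 v⁴ + v) + 8 v²), visibly decreasing; r(v) = 1/(√(64 v⁴ - v) + 8 v²) for v >= 1/4: visibly decreasing.)
The points of the class are b = s, s + M, ... with 1 <= s <= M, v = b/q, step h = M/q >= 1/q. For each monotone piece g the
difference h ∑ g(v_j) - ∫ g is at most h sup g + (integral over (0, s/q] of p <= 2√h <= 2 h q^(1/2) as h >= 1/q) + (tail beyond √X/q = q^(1/2):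
∫ <= 1/(4 q^(1/2)) <= h q^(1/2)); sup over v >= 1/q is <= q^(1/2) + 2. So ∑ f(v_j) = (1/h) ∫_0^∞ f + O(q^(1/2)), A = ∫_0^∞ f, and multiply by q.
The files As/A1a (A1a_mono, A1a_riemann, A1a_class) have the same Riemann sum lemmas for the function of the case of one point of order 2.
-/

namespace Pool.Agent.Lib.MP_d8bd92_nt

namespace Fr

open Finset Filter Topology Pool.Agent.Lib.Szpiro

noncomputable def A1a_p (v : ℝ) : ℝ := √(64 * v ^ 2 + 1 / v) - 8 * v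

noncomputable def A1a_r (v : ℝ) : ℝ := 8 * v - √(max (64 * v ^ 2 - 1 / v) 0)

noncomputable def A1a_F (v : ℝ) : ℝ := A1a_p v + A1a_r v

noncomputable def A1a_G (v : ℝ) : ℝ := 2 - A1a_r (max v (1 / 4))

theorem A1a_p_eq {v : ℝ} (hv : 0 < v) : A1a_p v = 1 / (√(64 * v ^ 4 + v) + 8 * v ^ 2) := by
  have h1 : √(64 * v ^ 4 + v) = v * √(64 * v ^ 2 + 1 / v) := by
    rw [Real.sqrt_eq_iff_mul_self_eq (by positivity) (by positivity)]
    have h2 : √(64 * v ^ 2 + 1 / v) * √(64 * v ^ 2 + 1 / v) = 64 * v ^ 2 + 1 / v :=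
      Real.mul_self_sqrt (by positivity)
    symm
    calc v * √(64 * v ^ 2 + 1 / v) * (v * √(64 * v ^ 2 + 1 / v)) =
        v ^ 2 * (√(64 * v ^ 2 + 1 / v) * √(64 * v ^ 2 + 1 / v)) := by ring
      _ = 64 * v ^ 4 + v := by
        rw [h2]
        field_simp
  rw [h1, A1a_p, eq_div_iff (by positivity)]
  have h2 : √(64 * v ^ 2 + 1 / v) * √(64 * v ^ 2 + 1 / v) = 64 * v ^ 2 + 1 / v :=
    Real.mul_self_sqrt (by positivity)
  calc (√(64 * v ^ 2 + 1 / v) - 8 * v) * (v * √(64 * v ^ 2 + 1 / v) + 8 * v ^ 2) =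
      v * (√(64 * v ^ 2 + 1 / v) * √(64 * v ^ 2 + 1 / v)) - 64 * v ^ 3 := by ring
    _ = 1 := by
      rw [h2]
      field_simp
      ring

theorem A1a_p_anti {x y : ℝ} (hx : 0 < x) (hxy : x ≤ y) : A1a_p y ≤ A1a_p x := by
  have hy : 0 < y := hx.trans_le hxy
  rw [A1a_p_eq hx, A1a_p_eq hy]
  have h4 : x ^ 4 ≤ y ^ 4 := pow_le_pow_left₀ hx.le hxy 4
  have h2 : x ^ 2 ≤ y ^ 2 := pow_le_pow_left₀ hx.le hxy 2
  have h5 : √(64 * x ^ 4 + x) ≤ √(64 * y ^ 4 + y) := Real.sqrt_le_sqrt (by linarith)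
  apply one_div_le_one_div_of_le
  · positivity
  · linarith

theorem A1a_p_nonneg {v : ℝ} (hv : 0 < v) : 0 ≤ A1a_p v := by
  rw [A1a_p_eq hv]
  positivity

theorem A1a_p_le_sqrt {v : ℝ} (hv : 0 < v) : A1a_p v ≤ 1 / √v := by
  rw [A1a_p_eq hv]
  apply one_div_le_one_div_of_le (Real.sqrt_pos.2 hv)
  have h5 : √v ≤ √(64 * v ^ 4 + v) := Real.sqrt_le_sqrt (by nlinarith [pow_pos hv 4])
  nlinarith [pow_pos hv 2]

theorem A1a_p_le_sq {v : ℝ} (hv : 0 < v) : A1a_p v ≤ 1 / (16 * v ^ 2) := by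
  rw [A1a_p_eq hv]
  apply one_div_le_one_div_of_le (by positivity)
  have h5 : 8 * v ^ 2 ≤ √(64 * v ^ 4 + v) := by
    apply Real.le_sqrt_of_sq_le
    nlinarith
  linarith

theorem A1a_arg {v : ℝ} (hv : 1 / 4 ≤ v) : 0 ≤ 64 * v ^ 2 - 1 / v := by
  have hv0 : 0 < v := by linarith
  have h1 : 1 / v ≤ 4 := by
    rw [div_le_iff₀ hv0]
    linarith
  nlinarith

theorem A1a_r_big {v : ℝ} (hv : 1 / 4 ≤ v) : A1a_r v = 1 / (√(64 * v ^ 4 - v) + 8 * v ^ 2) := by
  have hv0 : 0 < v := by linarith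
  have h0 := A1a_arg hv
  have h1 : √(64 * v ^ 4 - v) = v * √(64 * v ^ 2 - 1 / v) := by
    have e : 64 * v ^ 4 - v = v ^ 2 * (64 * v ^ 2 - 1 / v) := by
      field_simp
    rw [e, Real.sqrt_mul (by positivity), Real.sqrt_sq hv0.le]
  have h3 : 0 ≤ √(64 * v ^ 2 - 1 / v) := Real.sqrt_nonneg _
  rw [h1, A1a_r, max_eq_left h0, eq_div_iff (by positivity)]
  have h2 : √(64 * v ^ 2 - 1 / v) * √(64 * v ^ 2 - 1 / v) = 64 * v ^ 2 - 1 / v :=
    Real.mul_self_sqrt h0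
  calc (8 * v - √(64 * v ^ 2 - 1 / v)) * (v * √(64 * v ^ 2 - 1 / v) + 8 * v ^ 2) =
      64 * v ^ 3 - v * (√(64 * v ^ 2 - 1 / v) * √(64 * v ^ 2 - 1 / v)) := by ring
    _ = 1 := by
      rw [h2]
      field_simp
      ring

theorem A1a_r_small {v : ℝ} (hv0 : 0 < v) (hv : v ≤ 1 / 4) : A1a_r v = 8 * v := by
  have h1 : 64 * v ^ 2 - 1 / v ≤ 0 := by
    have h2 : 4 ≤ 1 / v := by
      rw [le_div_iff₀ hv0]
      linarith
    nlinarith
  rw [A1a_r, max_eq_right h1, Real.sqrt_zero, sub_zero]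

theorem A1a_r_anti {x y : ℝ} (hx : 1 / 4 ≤ x) (hxy : x ≤ y) : A1a_r y ≤ A1a_r x := by
  have hx0 : 0 < x := by linarith
  rw [A1a_r_big hx, A1a_r_big (hx.trans hxy)]
  have h2 : x ^ 2 ≤ y ^ 2 := pow_le_pow_left₀ hx0.le hxy 2
  have h5 : √(64 * x ^ 4 - x) ≤ √(64 * y ^ 4 - y) := by
    apply Real.sqrt_le_sqrt
    have h6 : 0 ≤ y - x := by linarith
    have h7 : 1 ≤ 64 * (y ^ 3 + y ^ 2 * x + y * x ^ 2 + x ^ 3) := by
      have h8 : (1 / 4 : ℝ) ^ 3 ≤ x ^ 3 := pow_le_pow_left₀ (by norm_num) hx 3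
      have h9 : 0 < y := by linarith
      have h10 : 0 ≤ y ^ 3 + y ^ 2 * x + y * x ^ 2 := by positivity
      norm_num at h8
      linarith
    have h8 : 64 * y ^ 4 - y - (64 * x ^ 4 - x) =
        (y - x) * (64 * (y ^ 3 + y ^ 2 * x + y * x ^ 2 + x ^ 3) - 1) := by ring
    have h9 : 0 ≤ (y - x) * (64 * (y ^ 3 + y ^ 2 * x + y * x ^ 2 + x ^ 3) - 1) :=
      mul_nonneg h6 (by linarith)
    linarith
  apply one_div_le_one_div_of_le
  · have h3 : 0 ≤ √(64 * x ^ 4 - x) := Real.sqrt_nonneg _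
    positivity
  · linarith

theorem A1a_r_quarter : A1a_r (1 / 4) = 2 := by
  rw [A1a_r_small (by norm_num) le_rfl]
  norm_num

theorem A1a_r_nonneg {v : ℝ} (hv : 0 < v) : 0 ≤ A1a_r v := by
  rcases le_total v (1 / 4) with h | h
  · rw [A1a_r_small hv h]
    positivity
  · rw [A1a_r_big h]
    have h3 : 0 ≤ √(64 * v ^ 4 - v) := Real.sqrt_nonneg _
    positivity

theorem A1a_r_le {v : ℝ} (hv : 0 < v) : A1a_r v ≤ 2 := by
  rcases le_total v (1 / 4) with h | h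
  · rw [A1a_r_small hv h]
    linarith
  · rw [← A1a_r_quarter]
    exact A1a_r_anti le_rfl h

theorem A1a_r_le_sq {v : ℝ} (hv : 1 / 4 ≤ v) : A1a_r v ≤ 1 / (8 * v ^ 2) := by
  rw [A1a_r_big hv]
  have hv0 : 0 < v := by linarith
  apply one_div_le_one_div_of_le (by positivity)
  have h3 : 0 ≤ √(64 * v ^ 4 - v) := Real.sqrt_nonneg _
  linarith

theorem A1a_split {v : ℝ} (hv : 0 < v) : A1a_F v = A1a_p v + 8 * min v (1 / 4) - A1a_G v := by
  rw [A1a_F, A1a_G]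
  rcases le_total v (1 / 4) with h | h
  · rw [min_eq_left h, max_eq_right h, A1a_r_quarter, A1a_r_small hv h]
    ring
  · rw [min_eq_right h, max_eq_left h]
    ring

theorem A1a_Gmono {x y : ℝ} (hxy : x ≤ y) : A1a_G x ≤ A1a_G y := by
  unfold A1a_G
  have := A1a_r_anti (le_max_right x (1 / 4)) (max_le_max_right (1 / 4) hxy)
  linarith

theorem A1a_Gbd (v : ℝ) : 0 ≤ A1a_G v ∧ A1a_G v ≤ 2 := by
  unfold A1a_G
  have h0 : 0 < max v (1 / 4) := lt_of_lt_of_le (by norm_num) (le_max_right _ _)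
  have h1 := A1a_r_nonneg h0
  have h2 := A1a_r_le h0
  constructor <;> linarith

theorem A1a_F_nonneg {v : ℝ} (hv : 0 < v) : 0 ≤ A1a_F v :=
  add_nonneg (A1a_p_nonneg hv) (A1a_r_nonneg hv)

theorem A1a_rpow {v : ℝ} (hv : 0 < v) : 1 / √v = v ^ (-(1 / 2) : ℝ) := by
  rw [Real.rpow_neg hv.le, ← Real.sqrt_eq_rpow, one_div]

theorem A1a_F_le {v : ℝ} (hv : 0 < v) : A1a_F v ≤ v ^ (-(1 / 2) : ℝ) + 2 := by
  rw [← A1a_rpow hv]
  exact add_le_add (A1a_p_le_sqrt hv) (A1a_r_le hv)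

theorem A1a_F_le_sq {v : ℝ} (hv : 1 ≤ v) : A1a_F v ≤ v ^ (-2 : ℝ) := by
  have hv0 : 0 < v := by linarith
  have e : v ^ (-2 : ℝ) = 1 / v ^ 2 := by
    rw [Real.rpow_neg hv0.le]
    norm_cast
    rw [one_div]
  have h1 := A1a_p_le_sq hv0
  have h2 := A1a_r_le_sq (v := v) (by linarith)
  have h3 : 1 / (16 * v ^ 2) + 1 / (8 * v ^ 2) ≤ 1 / v ^ 2 := by
    have h4 : 1 / (16 * v ^ 2) + 1 / (8 * v ^ 2) = 3 / 16 * (1 / v ^ 2) := by
      field_simp
      ring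
    have h5 : 0 < 1 / v ^ 2 := by positivity
    rw [h4]
    linarith
  rw [e, A1a_F]
  linarith

theorem A1a_meas : Measurable A1a_F := by
  unfold A1a_F A1a_p A1a_r
  fun_prop

theorem A1a_int0 (s : ℝ) (hs : 0 ≤ s) : MeasureTheory.IntegrableOn A1a_F (Set.Ioc 0 s) := by
  have h2 : IntervalIntegrable (fun t : ℝ => t ^ (-(1 / 2) : ℝ) + 2) MeasureTheory.volume 0 s :=
    (intervalIntegral.intervalIntegrable_rpow' (by norm_num)).add
      (continuous_const.intervalIntegrable _ _)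
  rw [intervalIntegrable_iff_integrableOn_Ioc_of_le hs] at h2
  refine MeasureTheory.Integrable.mono' h2 A1a_meas.aestronglyMeasurable ?_
  refine (MeasureTheory.ae_restrict_iff' measurableSet_Ioc).2 (Filter.Eventually.of_forall ?_)
  intro t ht
  rw [Real.norm_eq_abs, abs_of_nonneg (A1a_F_nonneg ht.1)]
  exact A1a_F_le ht.1

theorem A1a_int1 : MeasureTheory.IntegrableOn A1a_F (Set.Ioi 1) := by
  have h2 : MeasureTheory.IntegrableOn (fun t : ℝ => t ^ (-2 : ℝ)) (Set.Ioi 1) :=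
    integrableOn_Ioi_rpow_of_lt (by norm_num) one_pos
  refine MeasureTheory.Integrable.mono' h2 A1a_meas.aestronglyMeasurable ?_
  refine (MeasureTheory.ae_restrict_iff' measurableSet_Ioi).2 (Filter.Eventually.of_forall ?_)
  intro t ht
  have ht1 : (1 : ℝ) < t := ht
  rw [Real.norm_eq_abs, abs_of_nonneg (A1a_F_nonneg (by linarith))]
  exact A1a_F_le_sq ht1.le

theorem A1a_int {c : ℝ} (hc : 0 ≤ c) : MeasureTheory.IntegrableOn A1a_F (Set.Ioi c) := by
  refine ((A1a_int0 1 zero_le_one).union A1a_int1).mono_set ?_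
  intro t ht
  have ht1 : c < t := ht
  rcases le_or_gt t 1 with h | h
  · exact Or.inl ⟨by linarith, h⟩
  · exact Or.inr h

theorem A1a_start {s : ℝ} (hs : 0 ≤ s) : 0 ≤ ∫ t in (0 : ℝ)..s, A1a_F t ∧
    ∫ t in (0 : ℝ)..s, A1a_F t ≤ 2 * √s + 2 * s := by
  have hF : IntervalIntegrable A1a_F MeasureTheory.volume 0 s := by
    rw [intervalIntegrable_iff_integrableOn_Ioc_of_le hs]
    exact A1a_int0 s hs
  have h1 : IntervalIntegrable (fun t : ℝ => t ^ (-(1 / 2) : ℝ)) MeasureTheory.volume 0 s :=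
    intervalIntegral.intervalIntegrable_rpow' (by norm_num)
  have h2 : IntervalIntegrable (fun _ : ℝ => (2 : ℝ)) MeasureTheory.volume 0 s :=
    continuous_const.intervalIntegrable _ _
  constructor
  · rw [intervalIntegral.integral_of_le hs]
    exact MeasureTheory.setIntegral_nonneg measurableSet_Ioc fun t ht => A1a_F_nonneg ht.1
  · have h3 : ∫ t in (0 : ℝ)..s, A1a_F t ≤ ∫ t in (0 : ℝ)..s, (t ^ (-(1 / 2) : ℝ) + 2) := by
      rw [intervalIntegral.integral_of_le hs, intervalIntegral.integral_of_le hs]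
      refine MeasureTheory.setIntegral_mono_on (A1a_int0 s hs) ?_ measurableSet_Ioc
        fun t ht => A1a_F_le ht.1
      have := h1.add h2
      rwa [intervalIntegrable_iff_integrableOn_Ioc_of_le hs] at this
    refine h3.trans (le_of_eq ?_)
    rw [intervalIntegral.integral_add h1 h2, integral_rpow (Or.inl (by norm_num)),
      intervalIntegral.integral_const, smul_eq_mul]
    have e : (-(1 / 2) : ℝ) + 1 = 1 / 2 := by norm_num
    rw [e, Real.zero_rpow (by norm_num), ← Real.sqrt_eq_rpow]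
    ring

theorem A1a_tail {T : ℝ} (hT : 1 ≤ T) : 0 ≤ ∫ t in Set.Ioi T, A1a_F t ∧
    ∫ t in Set.Ioi T, A1a_F t ≤ 1 / T := by
  have hT0 : 0 < T := by linarith
  constructor
  · refine MeasureTheory.setIntegral_nonneg measurableSet_Ioi fun t ht => ?_
    have ht1 : T < t := ht
    exact A1a_F_nonneg (by linarith)
  · have h2 : MeasureTheory.IntegrableOn (fun t : ℝ => t ^ (-2 : ℝ)) (Set.Ioi T) :=
      integrableOn_Ioi_rpow_of_lt (by norm_num) hT0
    have h3 := MeasureTheory.setIntegral_mono_on (A1a_int hT0.le) h2 measurableSet_Ioi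
      (fun t ht => A1a_F_le_sq (v := t) (by
        have ht1 : T < t := ht
        linarith))
    refine h3.trans (le_of_eq ?_)
    rw [integral_Ioi_rpow_of_lt (by norm_num) hT0]
    have e : (-2 : ℝ) + 1 = -1 := by norm_num
    rw [e, Real.rpow_neg_one]
    field_simp

/-- the Riemann sum of `F` -/
theorem A1a_riemann {h s T q : ℝ} (hq : 1 ≤ q) (hhq : 1 ≤ h * q) (hs : 1 / q ≤ s) (hsh : s ≤ h)
    (n : ℕ) (hT : s + h * n = T) (hT1 : √q ≤ T) :
    |h * ∑ k ∈ range n, A1a_F (s + h * k) - ∫ t in Set.Ioi 0, A1a_F t| ≤ 8 * (h * √q) := by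
  have hq0 : 0 < q := by linarith
  have hδ : 0 < 1 / q := by positivity
  have hs0 : 0 < s := lt_of_lt_of_le hδ hs
  have hh : 0 < h := lt_of_lt_of_le hs0 hsh
  have hsq : 1 ≤ √q := by
    rw [Real.one_le_sqrt]
    exact hq
  have hT1' : 1 ≤ T := hsq.trans hT1
  have hT0 : 0 < T := by linarith
  have hsT : s ≤ T := by
    rw [← hT]
    have : 0 ≤ h * (n : ℝ) := by positivity
    linarith
  obtain ⟨K, hK⟩ : ∃ K : ℝ, K = A1a_p (1 / q) := ⟨_, rfl⟩
  have hK0 : 0 ≤ K := by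
    rw [hK]
    exact A1a_p_nonneg hδ
  have hKq : K ≤ √q := by
    rw [hK]
    refine (A1a_p_le_sqrt hδ).trans (le_of_eq ?_)
    rw [Real.sqrt_div zero_le_one, Real.sqrt_one, one_div_one_div]
  have humono : MonotoneOn (fun v : ℝ => K - A1a_p (max v (1 / q)) + A1a_G v) (Set.Ici 0) := by
    intro x _ y _ hxy
    have h1 := A1a_p_anti (lt_of_lt_of_le hδ (le_max_right x (1 / q)))
      (max_le_max_right (1 / q) hxy)
    have h2 := A1a_Gmono hxy
    change K - A1a_p (max x (1 / q)) + A1a_G x ≤ K - A1a_p (max y (1 / q)) + A1a_G y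
    linarith
  have hubd : ∀ t : ℝ, 0 ≤ t → 0 ≤ K - A1a_p (max t (1 / q)) + A1a_G t ∧
      K - A1a_p (max t (1 / q)) + A1a_G t ≤ K + 2 := by
    intro t _
    have h1 := A1a_p_anti hδ (le_max_right t (1 / q))
    have h2 := A1a_p_nonneg (lt_of_lt_of_le hδ (le_max_right t (1 / q)))
    obtain ⟨h3, h4⟩ := A1a_Gbd t
    rw [← hK] at h1
    constructor <;> linarith
  have hwmono : MonotoneOn (fun v : ℝ => 8 * min v (1 / 4)) (Set.Ici 0) := by
    intro x _ y _ hxy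
    have h1 : min x (1 / 4 : ℝ) ≤ min y (1 / 4) := min_le_min_right _ hxy
    change 8 * min x (1 / 4) ≤ 8 * min y (1 / 4)
    linarith
  have hwbd : ∀ t : ℝ, 0 ≤ t → 0 ≤ 8 * min t (1 / 4) ∧ 8 * min t (1 / 4) ≤ 2 := by
    intro t ht
    have h1 : 0 ≤ min t (1 / 4) := le_min ht (by norm_num)
    have h2 : min t (1 / 4) ≤ 1 / 4 := min_le_right _ _
    constructor <;> linarith
  have hu := As.A1a_mono humono hubd hh hs0.le n
  have hw := As.A1a_mono hwmono hwbd hh hs0.le n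
  rw [hT] at hu hw
  -- the decomposition for `v ≥ 1 / q`
  have hdec : ∀ v : ℝ, s ≤ v → A1a_F v =
      K + 8 * min v (1 / 4) - (K - A1a_p (max v (1 / q)) + A1a_G v) := by
    intro v hv
    rw [A1a_split (hs0.trans_le hv), max_eq_left (hs.trans hv)]
    ring
  have iu : IntervalIntegrable (fun v : ℝ => K - A1a_p (max v (1 / q)) + A1a_G v)
      MeasureTheory.volume s T := by
    apply MonotoneOn.intervalIntegrable
    rw [Set.uIcc_of_le hsT]
    exact humono.mono fun t ht => Set.mem_Ici.2 (hs0.le.trans ht.1)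
  have iw : IntervalIntegrable (fun v : ℝ => 8 * min v (1 / 4)) MeasureTheory.volume s T := by
    apply MonotoneOn.intervalIntegrable
    rw [Set.uIcc_of_le hsT]
    exact hwmono.mono fun t ht => Set.mem_Ici.2 (hs0.le.trans ht.1)
  have ik : IntervalIntegrable (fun _ : ℝ => K) MeasureTheory.volume s T :=
    continuous_const.intervalIntegrable _ _
  obtain ⟨Iu, hIu⟩ : ∃ I : ℝ, I = ∫ t in s..T, (K - A1a_p (max t (1 / q)) + A1a_G t) := ⟨_, rfl⟩
  obtain ⟨Iw, hIw⟩ : ∃ I : ℝ, I = ∫ t in s..T, 8 * min t (1 / 4) := ⟨_, rfl⟩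
  obtain ⟨Su, hSu⟩ : ∃ S : ℝ, S = ∑ k ∈ range n, (K - A1a_p (max (s + h * k) (1 / q)) +
      A1a_G (s + h * k)) := ⟨_, rfl⟩
  obtain ⟨Sw, hSw⟩ : ∃ S : ℝ, S = ∑ k ∈ range n, 8 * min (s + h * (k : ℝ)) (1 / 4) := ⟨_, rfl⟩
  have e1 : ∫ t in s..T, A1a_F t = (T - s) * K + Iw - Iu := by
    have e0 : ∫ t in s..T, A1a_F t = ∫ t in s..T, ((K + 8 * min t (1 / 4)) -
        (K - A1a_p (max t (1 / q)) + A1a_G t)) := by
      apply intervalIntegral.integral_congr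
      intro t ht
      rw [Set.uIcc_of_le hsT] at ht
      exact hdec t ht.1
    rw [e0, intervalIntegral.integral_sub (ik.add iw) iu, intervalIntegral.integral_add ik iw,
      intervalIntegral.integral_const, smul_eq_mul, ← hIu, ← hIw]
  have e2 : ∑ k ∈ range n, A1a_F (s + h * k) = n * K + Sw - Su := by
    have e0 : ∀ k ∈ range n, A1a_F (s + h * k) = (K + 8 * min (s + h * (k : ℝ)) (1 / 4)) -
        (K - A1a_p (max (s + h * k) (1 / q)) + A1a_G (s + h * k)) := by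
      intro k _
      exact hdec _ (by
        have : 0 ≤ h * (k : ℝ) := by positivity
        linarith)
    rw [Finset.sum_congr rfl e0, Finset.sum_sub_distrib, Finset.sum_add_distrib,
      Finset.sum_const, Finset.card_range, nsmul_eq_mul, ← hSu, ← hSw]
  rw [← hIu, ← hSu] at hu
  rw [← hIw, ← hSw] at hw
  have e3 : (∫ t in (0 : ℝ)..s, A1a_F t) + ∫ t in Set.Ioi s, A1a_F t =
      ∫ t in Set.Ioi 0, A1a_F t :=
    intervalIntegral.integral_interval_add_Ioi (A1a_int le_rfl) (A1a_int hs0.le)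
  have e4 : (∫ t in s..T, A1a_F t) + ∫ t in Set.Ioi T, A1a_F t =
      ∫ t in Set.Ioi s, A1a_F t :=
    intervalIntegral.integral_interval_add_Ioi (A1a_int hs0.le) (A1a_int hT0.le)
  obtain ⟨s1, s2⟩ := A1a_start hs0.le
  obtain ⟨t1, t2⟩ := A1a_tail hT1'
  -- the error terms
  have hhs : h ≤ h * √q := by nlinarith
  have b1 : h * K ≤ h * √q := mul_le_mul_of_nonneg_left hKq hh.le
  have b2 : √s ≤ h * √q := by
    have h1 : √s ≤ √h := Real.sqrt_le_sqrt hsh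
    have h2 : √h ≤ h * √q := by
      have h3 : 1 ≤ √h * √q := by
        rw [← Real.sqrt_mul hh.le, Real.one_le_sqrt]
        exact hhq
      have h4 : √h * √h = h := Real.mul_self_sqrt hh.le
      have h5 : √h * 1 ≤ √h * (√h * √q) := mul_le_mul_of_nonneg_left h3 (Real.sqrt_nonneg _)
      rw [← mul_assoc, h4, mul_one] at h5
      exact h5
    exact h1.trans h2
  have b3 : 1 / T ≤ h * √q := by
    have h1 : 1 / T ≤ 1 / √q := one_div_le_one_div_of_le (by linarith) hT1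
    have h2 : 1 / √q ≤ h * √q := by
      rw [div_le_iff₀ (by linarith)]
      have h3 : √q * √q = q := Real.mul_self_sqrt hq0.le
      rw [mul_assoc, h3]
      exact hhq
    exact h1.trans h2
  have e5 : h * (n * K + Sw - Su) = (T - s) * K + h * Sw - h * Su := by
    rw [← hT]
    ring
  obtain ⟨u1, u2⟩ := hu
  obtain ⟨w1, w2⟩ := hw
  rw [e2, e5, ← e3, ← e4, e1, abs_le]
  obtain ⟨I0, hI0⟩ : ∃ I : ℝ, I = ∫ t in (0 : ℝ)..s, A1a_F t := ⟨_, rfl⟩
  obtain ⟨I1, hI1⟩ : ∃ I : ℝ, I = ∫ t in Set.Ioi T, A1a_F t := ⟨_, rfl⟩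
  rw [← hI0] at s1 s2 ⊢
  rw [← hI1] at t1 t2 ⊢
  constructor <;> nlinarith

/-- scaling -/
theorem A1a_scale {X q b : ℝ} (hq : 0 < q) (hX : q ^ 3 = X) (hb : 0 < b) :
    L X b = q * (2 * A1a_F (b / q)) := by
  have e0 : A1a_F (b / q) = √(64 * (b / q) ^ 2 + 1 / (b / q)) -
      √(max (64 * (b / q) ^ 2 - 1 / (b / q)) 0) := by
    rw [A1a_F, A1a_p, A1a_r]
    ring
  have e1 : √(64 * b ^ 2 + X / b) = q * √(64 * (b / q) ^ 2 + 1 / (b / q)) := by
    have : 64 * b ^ 2 + X / b = q ^ 2 * (64 * (b / q) ^ 2 + 1 / (b / q)) := by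
      rw [← hX]
      field_simp
    rw [this, Real.sqrt_mul (by positivity), Real.sqrt_sq hq.le]
  have e2 : √(max (64 * b ^ 2 - X / b) 0) = q * √(max (64 * (b / q) ^ 2 - 1 / (b / q)) 0) := by
    have : max (64 * b ^ 2 - X / b) 0 = q ^ 2 * max (64 * (b / q) ^ 2 - 1 / (b / q)) 0 := by
      rw [mul_max_of_nonneg _ _ (by positivity), mul_zero]
      congr 1
      rw [← hX]
      field_simp
    rw [this, Real.sqrt_mul (by positivity), Real.sqrt_sq hq.le]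
  rw [L, e0, e1, e2]
  ring

/-- the residue class as a progression -/
theorem A1a_class {M N : ℕ} (hM : 0 < M) (β : ℤ) (F : ℤ → ℝ) : ∃ s : ℕ, 1 ≤ s ∧ s ≤ M ∧
    ∑ b ∈ (Icc (1 : ℤ) N).filter (fun b : ℤ => b ≡ β [ZMOD M]), F b =
      ∑ k ∈ range ((N + M - s) / M), F ((s : ℤ) + M * k) := by
  classical
  have hMz : (0 : ℤ) < M := by exact_mod_cast hM
  obtain ⟨s0, hs0⟩ : ∃ s : ℕ, (β - 1) % M = (s : ℤ) :=
    Int.eq_ofNat_of_zero_le (Int.emod_nonneg (β - 1) hMz.ne')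
  have hsM : s0 < M := by
    have := Int.emod_lt_of_pos (β - 1) hMz
    rw [hs0] at this
    exact_mod_cast this
  refine ⟨s0 + 1, by omega, hsM, ?_⟩
  have hmod : ∀ a : ℤ, a ≡ β [ZMOD M] ↔ ∃ j : ℤ, a = ((s0 + 1 : ℕ) : ℤ) + M * j := by
    intro a
    have hβ : β ≡ ((s0 + 1 : ℕ) : ℤ) [ZMOD M] := by
      have h1 : β - 1 ≡ (s0 : ℤ) [ZMOD M] := by
        rw [← hs0]
        exact (Int.mod_modEq (β - 1) M).symm
      have h2 := h1.add_right 1
      rw [sub_add_cancel] at h2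
      push_cast
      exact h2
    constructor
    · intro h
      have h1 : ((s0 + 1 : ℕ) : ℤ) ≡ a [ZMOD M] := (h.trans hβ).symm
      obtain ⟨j, hj⟩ := Int.modEq_iff_dvd.1 h1
      exact ⟨j, by linarith⟩
    · rintro ⟨j, rfl⟩
      refine Int.ModEq.trans ?_ hβ.symm
      exact Int.modEq_iff_dvd.2 ⟨-j, by ring⟩
  have hset : (Icc (1 : ℤ) N).filter (fun b : ℤ => b ≡ β [ZMOD M]) =
      (range ((N + M - (s0 + 1)) / M)).image fun k : ℕ => (((s0 + 1 : ℕ) : ℤ) + M * k) := by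
    ext a
    simp only [Finset.mem_filter, Finset.mem_Icc, Finset.mem_image, Finset.mem_range]
    rw [hmod]
    constructor
    · rintro ⟨⟨h1, h2⟩, j, rfl⟩
      have hj : 0 ≤ j := by
        by_contra hj
        have h3 : (M : ℤ) * j ≤ M * (-1) := mul_le_mul_of_nonneg_left (by omega) hMz.le
        have h4 : ((s0 + 1 : ℕ) : ℤ) ≤ M := by exact_mod_cast hsM
        linarith
      obtain ⟨k, rfl⟩ := Int.eq_ofNat_of_zero_le hj
      refine ⟨k, ?_, rfl⟩
      rw [Nat.lt_iff_add_one_le, Nat.le_div_iff_mul_le hM]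
      have h3 : (s0 + 1) + M * k ≤ N := by exact_mod_cast h2
      have h4 : (k + 1) * M = M * k + M := by ring
      omega
    · rintro ⟨k, hk, rfl⟩
      rw [Nat.lt_iff_add_one_le, Nat.le_div_iff_mul_le hM] at hk
      have h4 : (k + 1) * M = M * k + M := by ring
      have h3 : (s0 + 1) + M * k ≤ N := by omega
      have h5 : ((s0 + 1 : ℕ) : ℤ) + M * k ≤ N := by exact_mod_cast h3
      have h6 : (0 : ℤ) ≤ (M : ℤ) * k := by positivity
      have h7 : (1 : ℤ) ≤ ((s0 + 1 : ℕ) : ℤ) := by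
        push_cast
        omega
      exact ⟨⟨by linarith, h5⟩, k, rfl⟩
  rw [hset, Finset.sum_image]
  intro x _ y _ hxy
  have h1 : (M : ℤ) * x = M * y := by
    have : (((s0 + 1 : ℕ) : ℤ) + M * x) = (((s0 + 1 : ℕ) : ℤ) + M * y) := hxy
    linarith
  have := mul_left_cancel₀ hMz.ne' h1
  exact_mod_cast this

theorem sum_L : ∃ A C : ℝ, 0 < C ∧ ∀ (M : ℕ) (β : ℤ) (X : ℝ), 0 < M → 1 ≤ X →
    |∑ b ∈ (Icc (1 : ℤ) ⌊√X⌋).filter (fun b : ℤ => b ≡ β [ZMOD M]), L X (b : ℝ) -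
      A / M * X ^ (2 / 3 : ℝ)| ≤ C * X ^ (1 / 2 : ℝ) := by
  refine ⟨2 * ∫ t in Set.Ioi 0, A1a_F t, 16, by norm_num, fun M β X hM hX => ?_⟩
  have hX0 : 0 < X := by linarith
  have hM0 : (0 : ℝ) < M := by exact_mod_cast hM
  have hM1 : (1 : ℝ) ≤ M := by exact_mod_cast hM
  obtain ⟨q, hq⟩ : ∃ q : ℝ, q = X ^ (1 / 3 : ℝ) := ⟨_, rfl⟩
  have hq0 : 0 < q := by rw [hq]; positivity
  have hq1 : 1 ≤ q := by
    rw [hq]
    exact Real.one_le_rpow hX (by norm_num)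
  have hq3 : q ^ 3 = X := by
    rw [hq, ← Real.rpow_natCast, ← Real.rpow_mul hX0.le]
    norm_num
  have hq2 : q ^ 2 = X ^ (2 / 3 : ℝ) := by
    rw [hq, ← Real.rpow_natCast, ← Real.rpow_mul hX0.le]
    norm_num
  have hqs : √q * q = √X := by
    rw [← hq3]
    have : q ^ 3 = q * q ^ 2 := by ring
    rw [this, Real.sqrt_mul hq0.le, Real.sqrt_sq hq0.le]
  obtain ⟨N, hN⟩ : ∃ N : ℕ, ⌊√X⌋ = (N : ℤ) :=
    Int.eq_ofNat_of_zero_le (Int.floor_nonneg.2 (Real.sqrt_nonneg _))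
  have hN1 : √X < N + 1 := by
    have := Int.lt_floor_add_one (√X)
    rw [hN] at this
    exact_mod_cast this
  rw [hN]
  obtain ⟨s, hs1, hsM, hsum⟩ := A1a_class (N := N) hM β (fun b => L X (b : ℝ))
  rw [hsum]
  obtain ⟨n, hn⟩ : ∃ n : ℕ, n = (N + M - s) / M := ⟨_, rfl⟩
  rw [← hn]
  have hs1' : (1 : ℝ) ≤ s := by exact_mod_cast hs1
  have hnN : (N : ℝ) + 1 ≤ s + M * n := by
    have h1 : N + M - s < M * ((N + M - s) / M + 1) := Nat.lt_mul_div_succ _ hM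
    rw [← hn] at h1
    have h2 : N + 1 ≤ s + M * n := by
      have h3 : M * (n + 1) = M * n + M := by ring
      omega
    exact_mod_cast h2
  have hT1 : √q ≤ ((s : ℝ) + M * n) / q := by
    rw [le_div_iff₀ hq0, hqs]
    linarith
  have key := A1a_riemann (h := M / q) (s := s / q) (T := ((s : ℝ) + M * n) / q) (q := q) hq1
    (by rw [div_mul_cancel₀ _ hq0.ne']; exact hM1)
    (div_le_div_of_nonneg_right hs1' hq0.le)
    (div_le_div_of_nonneg_right (by exact_mod_cast hsM) hq0.le) n (by ring) hT1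
  have e1 : ∑ k ∈ range n, L X ((((s : ℤ) + M * k : ℤ)) : ℝ) =
      q * (2 * ∑ k ∈ range n, A1a_F (s / q + M / q * k)) := by
    rw [Finset.mul_sum, Finset.mul_sum]
    apply Finset.sum_congr rfl
    intro k _
    have hb : (0 : ℝ) < (s : ℝ) + M * k := by positivity
    have e0 : ((((s : ℤ) + M * k : ℤ)) : ℝ) = (s : ℝ) + M * k := by push_cast; rfl
    rw [e0, A1a_scale hq0 hq3 hb]
    congr 3
    ring
  obtain ⟨S, hS⟩ : ∃ S : ℝ, S = ∑ k ∈ range n, A1a_F (s / q + M / q * k) := ⟨_, rfl⟩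
  obtain ⟨I, hI⟩ : ∃ I : ℝ, I = ∫ t in Set.Ioi 0, A1a_F t := ⟨_, rfl⟩
  rw [e1, ← hS, ← hI]
  rw [← hS, ← hI] at key
  have e2 : q * (2 * S) - 2 * I / M * X ^ (2 / 3 : ℝ) = (2 * q ^ 2 / M) * (M / q * S - I) := by
    rw [← hq2]
    field_simp
  rw [e2, abs_mul, abs_of_pos (by positivity : 0 < 2 * q ^ 2 / M), ← Real.sqrt_eq_rpow]
  calc 2 * q ^ 2 / M * |M / q * S - I| ≤ 2 * q ^ 2 / M * (8 * (M / q * √q)) :=
        mul_le_mul_of_nonneg_left key (by positivity)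
    _ = 16 * (√q * q) := by
        field_simp
        ring
    _ = 16 * √X := by rw [hqs]

end Fr

end Pool.Agent.Lib.MP_d8bd92_nt
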