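import Pool.Agent.Lib.MP_d8bd92_nt.Fr.Defs
import Pool.Agent.Lib.MP_d8bd92_nt.As.A1b

set_option autoImplicit false

/-!
ROW fr-A1b. The number of the `x` in a residue class for a fixed `b`.

PROOF. b > 0: b |x (x + 16 b)| <= X iff (x + 8 b)² ∈ [64 b² - X/b, 64 b² + X/b] iff √(max (64 b² - X/b) 0) <= |x + 8 b| <= √(64 b² + X/b):
two intervals of total length L X b (one if 64 b² < X/b); use `As.A1b_interval` (number of the elements of a class in an interval,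
as in As/A1b, fiber_count there); the conditions x ≠ 0, x + 16 b ≠ 0 remove at most two points.
-/

namespace Pool.Agent.Lib.MP_d8bd92_nt

namespace Fr

open Finset Filter Topology Pool.Agent.Lib.Szpiro

/-- `|a b (a + 16 b)| ≤ X` -/
theorem A1b_cond (a b X : ℝ) (hb : 0 < b) (hX : 0 ≤ X) : |a * b * (a + 16 * b)| ≤ X ↔
    √(max (64 * b ^ 2 - X / b) 0) ≤ |a + 8 * b| ∧ |a + 8 * b| ≤ √(64 * b ^ 2 + X / b) := by
  have h0 : 0 ≤ 64 * b ^ 2 + X / b := by positivity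
  have h1 : |a * b * (a + 16 * b)| ≤ X ↔ |a * (a + 16 * b)| ≤ X / b := by
    have e : a * b * (a + 16 * b) = a * (a + 16 * b) * b := by ring
    rw [e, abs_mul, abs_of_pos hb, le_div_iff₀ hb]
  rw [h1, Real.sqrt_le_iff, Real.le_sqrt (abs_nonneg _) h0, sq_abs, abs_le]
  have e2 : a * (a + 16 * b) = (a + 8 * b) ^ 2 - 64 * b ^ 2 := by ring
  rw [e2]
  constructor
  · rintro ⟨h2, h3⟩
    refine ⟨⟨abs_nonneg _, max_le ?_ (sq_nonneg _)⟩, ?_⟩
    · linarith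
    · linarith
  · rintro ⟨⟨-, h2⟩, h3⟩
    have h4 := (le_max_left _ _).trans h2
    constructor
    · linarith
    · linarith

theorem fiber_count (M : ℕ) (hM : 0 < M) (b α : ℤ) (hb : 0 < b) (X : ℝ) (hX : 0 ≤ X) :
    |(({a : ℤ | (a, b) ∈ Rg X ∧ a ≡ α [ZMOD M]}.ncard : ℕ) : ℝ) - L X (b : ℝ) / M| ≤ 8 := by
  have hM' : (0 : ℝ) < M := by exact_mod_cast hM
  have hB : (0 : ℝ) < (b : ℝ) := by exact_mod_cast hb
  set B : ℝ := (b : ℝ) with hBd
  set U : ℝ := √(64 * B ^ 2 + X / B) with hU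
  set V : ℝ := √(max (64 * B ^ 2 - X / B) 0) with hV
  have hV0 : 0 ≤ V := Real.sqrt_nonneg _
  have hXB : 0 ≤ X / B := by positivity
  have hVU : V ≤ U := by
    apply Real.sqrt_le_sqrt
    refine max_le (by linarith) ?_
    positivity
  set T : Set ℤ := {a : ℤ | (a, b) ∈ Rg X ∧ a ≡ α [ZMOD M]} with hT
  obtain ⟨f1, c1⟩ := As.A1b_interval M hM α (-8 * B - U) (-8 * B - V) (by linarith)
  obtain ⟨f2, c2⟩ := As.A1b_interval M hM α (-8 * B + V) (-8 * B + U) (by linarith)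
  set T1 : Set ℤ := {a : ℤ | (-8 * B - U ≤ (a : ℝ) ∧ (a : ℝ) ≤ -8 * B - V) ∧
    a ≡ α [ZMOD M]} with hT1
  set T2 : Set ℤ := {a : ℤ | (-8 * B + V ≤ (a : ℝ) ∧ (a : ℝ) ≤ -8 * B + U) ∧
    a ≡ α [ZMOD M]} with hT2
  have hnn : ∀ a : ℤ, ((nn (a, b) : ℕ) : ℝ) = |(a : ℝ) * B * ((a : ℝ) + 16 * B)| := by
    intro a
    rw [nn, cc, Nat.cast_natAbs, Int.cast_abs]
    push_cast
    rfl
  have hcond : ∀ a : ℤ, ((nn (a, b) : ℕ) : ℝ) ≤ X ↔
      (-8 * B - U ≤ (a : ℝ) ∧ (a : ℝ) ≤ -8 * B - V) ∨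
        (-8 * B + V ≤ (a : ℝ) ∧ (a : ℝ) ≤ -8 * B + U) := by
    intro a
    rw [hnn, A1b_cond a B X hB hX, ← hU, ← hV, abs_le, le_abs]
    constructor
    · rintro ⟨h1 | h1, h2, h3⟩
      · right
        constructor <;> linarith
      · left
        constructor <;> linarith
    · rintro (⟨h1, h2⟩ | ⟨h1, h2⟩)
      · exact ⟨Or.inr (by linarith), by linarith, by linarith⟩
      · exact ⟨Or.inl (by linarith), by linarith, by linarith⟩
  have hsub1 : T ⊆ T1 ∪ T2 := by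
    rintro a ⟨⟨-, -, -, ha⟩, ha'⟩
    rcases (hcond a).1 ha with h | h
    · exact Or.inl ⟨h, ha'⟩
    · exact Or.inr ⟨h, ha'⟩
  have hsub2 : T1 ∪ T2 ⊆ T ∪ {0, -16 * b} := by
    intro a ha
    have h1 : ((nn (a, b) : ℕ) : ℝ) ≤ X ∧ a ≡ α [ZMOD M] := by
      rcases ha with h | h
      · exact ⟨(hcond a).2 (Or.inl h.1), h.2⟩
      · exact ⟨(hcond a).2 (Or.inr h.1), h.2⟩
    by_cases h0 : a = 0
    · exact Or.inr (Or.inl h0)
    by_cases h2 : cc (a, b) = 0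
    · right
      right
      rw [Set.mem_singleton_iff]
      have h3 : a + 16 * b = 0 := h2
      omega
    · exact Or.inl ⟨⟨h0, hb, h2, h1.1⟩, h1.2⟩
  have hfin : (T1 ∪ T2).Finite := f1.union f2
  have hTfin : T.Finite := hfin.subset hsub1
  have k1 : T.ncard ≤ (T1 ∪ T2).ncard := Set.ncard_le_ncard hsub1 hfin
  have k2 : (T1 ∪ T2).ncard ≤ T.ncard + 2 := by
    have h1 : (T1 ∪ T2).ncard ≤ (T ∪ {0, -16 * b}).ncard :=
      Set.ncard_le_ncard hsub2 (hTfin.union (Set.toFinite _))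
    have h2 := Set.ncard_union_le T ({0, -16 * b} : Set ℤ)
    have h3 : ({0, -16 * b} : Set ℤ).ncard ≤ 2 := by
      have h4 := Set.ncard_insert_le (0 : ℤ) ({-16 * b} : Set ℤ)
      rw [Set.ncard_singleton] at h4
      exact h4
    omega
  have k3 : (T1 ∪ T2).ncard + (T1 ∩ T2).ncard = T1.ncard + T2.ncard :=
    Set.ncard_union_add_ncard_inter T1 T2 f1 f2
  have k4 : (T1 ∩ T2).ncard ≤ 1 := by
    rw [Set.ncard_le_one (f1.inter_of_left _)]
    rintro x ⟨⟨⟨-, hb1⟩, -⟩, ⟨⟨hb2, -⟩, -⟩⟩ y ⟨⟨⟨-, hc1⟩, -⟩, ⟨⟨hc2, -⟩, -⟩⟩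
    have h1 : (x : ℝ) = y := by
      apply le_antisymm <;> linarith
    exact_mod_cast h1
  have hL : L X B / M = (-8 * B - V - (-8 * B - U)) / M + (-8 * B + U - (-8 * B + V)) / M := by
    unfold L
    rw [← hU, ← hV]
    ring
  rw [hL]
  have q1 : (T.ncard : ℝ) ≤ (T1.ncard : ℝ) + T2.ncard := by
    have : T.ncard ≤ T1.ncard + T2.ncard := by omega
    exact_mod_cast this
  have q2 : (T1.ncard : ℝ) + T2.ncard ≤ (T.ncard : ℝ) + 3 := by
    have : T1.ncard + T2.ncard ≤ T.ncard + 3 := by omega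
    exact_mod_cast this
  rw [abs_le] at c1 c2 ⊢
  constructor <;> linarith [c1.1, c1.2, c2.1, c2.2]

end Fr

end Pool.Agent.Lib.MP_d8bd92_nt
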