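import Pool.Agent.Lib.MP_d8bd92_nt.Fr.A1a
import Pool.Agent.Lib.MP_d8bd92_nt.Fr.A1b
import Pool.Agent.Lib.MP_d8bd92_nt.As.A1c

set_option autoImplicit false

/-!
ROW fr-A1c. Points of the region in residue classes.

PROOF. As in As/A1c (lemmas A1c_ncard_fiber, ... can be used), now fibered over b = w.2 ∈ [1, √X] (`Rg_bound`: 15 b² <= X).
class_count: `sum_L` + `fiber_count`, error 8 √X. periodic_limit: sum over the classes in Ω.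
upper_div3: for fixed b the conditions s1 | x, s3 | x + 16 b are ONE class mod s1 s3 (s1, s3 coprime, CRT), s2 | b is the class 0 mod s2:
number <= ∑_{b ≡ 0 (s2)} (L X b/(s1 s3) + 8) <= (|A| X^(2/3)/s2 + C X^(1/2))/(s1 s3) + 8 √X  (`sum_L` is uniform in M = s2).
Rg_card: upper_div3 with s1 = s2 = s3 = 1.
-/

namespace Pool.Agent.Lib.MP_d8bd92_nt

namespace Fr

open Finset Filter Topology Pool.Agent.Lib.Szpiro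

theorem A1c_ncard_col (S : Set (ℤ × ℤ)) (b : ℤ) : {w | w ∈ S ∧ w.2 = b}.ncard = {a : ℤ | (a, b) ∈ S}.ncard := by
  have h1 : {w | w ∈ S ∧ w.2 = b} = (fun a : ℤ => (a, b)) '' {a : ℤ | (a, b) ∈ S} := by
    ext ⟨x, y⟩
    simp only [Set.mem_ofPred_eq, Set.mem_image, Prod.mk.injEq]
    constructor
    · rintro ⟨h1, rfl⟩
      exact ⟨x, h1, rfl, rfl⟩
    · rintro ⟨a, ha, rfl, rfl⟩
      exact ⟨ha, rfl⟩
  rw [h1]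
  exact Set.ncard_image_of_injective _ (fun x y hxy => (Prod.mk.inj hxy).1)

theorem A1c_mem_Icc {X : ℝ} {w : ℤ × ℤ} (hw : w ∈ Rg X) : w.2 ∈ Icc (1 : ℤ) ⌊√X⌋ := by
  have h1 := (Rg_bound X w hw).2.1
  have h2 : 0 < w.2 := hw.2.1
  rw [Finset.mem_Icc]
  refine ⟨h2, ?_⟩
  rw [Int.le_floor]
  apply Real.le_sqrt_of_sq_le
  nlinarith [sq_nonneg (w.2 : ℝ)]

theorem A1c_card_Icc (X : ℝ) : (((Icc (1 : ℤ) ⌊√X⌋).card : ℕ) : ℝ) ≤ X ^ (1 / 2 : ℝ) := by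
  rw [Int.card_Icc, ← Real.sqrt_eq_rpow]
  have h0 : 0 ≤ ⌊√X⌋ := Int.floor_nonneg.2 (Real.sqrt_nonneg _)
  have h1 : (((⌊√X⌋ + 1 - 1).toNat : ℕ) : ℤ) = ⌊√X⌋ := by
    rw [Int.toNat_of_nonneg (by omega)]
    ring
  have h2 : (((⌊√X⌋ + 1 - 1).toNat : ℕ) : ℝ) = (⌊√X⌋ : ℝ) := by
    have h3 : ((((⌊√X⌋ + 1 - 1).toNat : ℕ) : ℤ) : ℝ) = ((⌊√X⌋ : ℤ) : ℝ) := congrArg _ h1
    rwa [Int.cast_natCast] at h3
  rw [h2]
  exact Int.floor_le _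

theorem A1c_L_nonneg {X : ℝ} (hX : 0 ≤ X) {b : ℝ} (hb : 0 < b) : 0 ≤ L X b := by
  unfold L
  have h1 : 0 ≤ X / b := div_nonneg hX hb.le
  apply mul_nonneg (by norm_num)
  rw [sub_nonneg]
  apply Real.sqrt_le_sqrt
  apply max_le
  · linarith
  · positivity

theorem A1c_rpow_div {X : ℝ} (hX : 1 ≤ X) : X ^ (1 / 2 : ℝ) / X ^ (2 / 3 : ℝ) = X ^ (-(1 / 6) : ℝ) := by
  rw [← Real.rpow_sub (by linarith)]
  norm_num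

theorem class_count : ∃ A : ℝ, ∀ M : ℕ, 0 < M → ∃ C : ℝ, 0 < C ∧ ∀ (α β : ℤ) (X : ℝ), 1 ≤ X →
    |(({w ∈ Rg X | w.1 ≡ α [ZMOD M] ∧ w.2 ≡ β [ZMOD M]}.ncard : ℕ) : ℝ) -
      A / (M : ℝ) ^ 2 * X ^ (2 / 3 : ℝ)| ≤ C * X ^ (1 / 2 : ℝ) := by
  obtain ⟨A, C, hC, hC'⟩ := sum_L
  refine ⟨A, fun M hM => ⟨8 + C, by linarith, fun α β X hX => ?_⟩⟩
  have hM1 : (1 : ℝ) ≤ M := by exact_mod_cast hM
  have hM0 : (0 : ℝ) < M := by linarith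
  have hX0 : (0 : ℝ) ≤ X := by linarith
  obtain ⟨I, hI⟩ : ∃ I, I = (Icc (1 : ℤ) ⌊√X⌋).filter (fun b : ℤ => b ≡ β [ZMOD M]) := ⟨_, rfl⟩
  obtain ⟨S, hS⟩ : ∃ S, S = {w ∈ Rg X | w.1 ≡ α [ZMOD M] ∧ w.2 ≡ β [ZMOD M]} := ⟨_, rfl⟩
  have hSf : S.Finite := by
    rw [hS]
    exact (Rg_finite X).subset fun w hw => hw.1
  have hSI : ∀ w ∈ S, w.2 ∈ I := by
    intro w hw
    rw [hS] at hw
    rw [hI, Finset.mem_filter]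
    exact ⟨A1c_mem_Icc hw.1, hw.2.2⟩
  have hI0 : ∀ b ∈ I, 0 < b := by
    intro b hb
    rw [hI, Finset.mem_filter, Finset.mem_Icc] at hb
    omega
  have hsum : ((S.ncard : ℕ) : ℝ) =
      ∑ b ∈ I, (({a : ℤ | (a, b) ∈ Rg X ∧ a ≡ α [ZMOD M]}.ncard : ℕ) : ℝ) := by
    rw [As.A1c_ncard_fiber S hSf Prod.snd I hSI, Nat.cast_sum]
    refine Finset.sum_congr rfl fun b hb => ?_
    rw [A1c_ncard_col]
    have hb' : b ≡ β [ZMOD M] := by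
      rw [hI, Finset.mem_filter] at hb
      exact hb.2
    congr 2
    ext a
    rw [hS]
    simp only [Set.mem_ofPred_eq]
    exact ⟨fun h => ⟨h.1, h.2.1⟩, fun h => ⟨h.1, h.2, hb'⟩⟩
  have h1 := hC' M β X hM hX
  rw [← hI] at h1
  rw [← hS, hsum]
  have h2 : |∑ b ∈ I, ((({a : ℤ | (a, b) ∈ Rg X ∧ a ≡ α [ZMOD M]}.ncard : ℕ) : ℝ) - L X (b : ℝ) / M)| ≤
      8 * X ^ (1 / 2 : ℝ) := by
    refine (Finset.abs_sum_le_sum_abs _ _).trans ?_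
    refine (Finset.sum_le_sum fun b hb => fiber_count M hM b α (hI0 b hb) X hX0).trans ?_
    rw [Finset.sum_const, nsmul_eq_mul]
    have h3 : ((I.card : ℕ) : ℝ) ≤ X ^ (1 / 2 : ℝ) := by
      refine le_trans ?_ (A1c_card_Icc X)
      rw [hI]
      exact_mod_cast Finset.card_filter_le _ _
    linarith
  have h3 : ∑ b ∈ I, (({a : ℤ | (a, b) ∈ Rg X ∧ a ≡ α [ZMOD M]}.ncard : ℕ) : ℝ) - A / (M : ℝ) ^ 2 * X ^ (2 / 3 : ℝ) =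
      ∑ b ∈ I, ((({a : ℤ | (a, b) ∈ Rg X ∧ a ≡ α [ZMOD M]}.ncard : ℕ) : ℝ) - L X (b : ℝ) / M) +
        (∑ b ∈ I, L X (b : ℝ) - A / M * X ^ (2 / 3 : ℝ)) / M := by
    rw [Finset.sum_sub_distrib, ← Finset.sum_div]
    field_simp
    ring
  rw [h3]
  refine (abs_add_le _ _).trans ?_
  rw [add_mul]
  refine add_le_add h2 ?_
  rw [abs_div, abs_of_pos hM0]
  exact (div_le_self (abs_nonneg _) hM1).trans h1

theorem periodic_limit (M : ℕ) (hM : 0 < M) (Ω : Set (ℤ × ℤ))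
    (hΩ : ∀ w v : ℤ × ℤ, w.1 ≡ v.1 [ZMOD M] → w.2 ≡ v.2 [ZMOD M] → w ∈ Ω → v ∈ Ω) :
    ∃ r : ℝ, Tendsto (fun X : ℝ => (((Rg X ∩ Ω).ncard : ℕ) : ℝ) / X ^ (2 / 3 : ℝ)) atTop (𝓝 r) := by
  classical
  obtain ⟨A, hA⟩ := class_count
  obtain ⟨C, hC, hC'⟩ := hA M hM
  obtain ⟨t, ht⟩ : ∃ t, t = ((Finset.Ico (0 : ℤ) M) ×ˢ (Finset.Ico (0 : ℤ) M)).filter (fun w => w ∈ Ω) := ⟨_, rfl⟩
  have hM' : (0 : ℤ) < M := by exact_mod_cast hM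
  have hsum : ∀ X : ℝ, (((Rg X ∩ Ω).ncard : ℕ) : ℝ) =
      ∑ v ∈ t, (({w ∈ Rg X | w.1 ≡ v.1 [ZMOD M] ∧ w.2 ≡ v.2 [ZMOD M]}.ncard : ℕ) : ℝ) := by
    intro X
    have h1 : (Rg X ∩ Ω).Finite := (Rg_finite X).subset fun w hw => hw.1
    have h2 : ∀ w ∈ Rg X ∩ Ω, (w.1 % (M : ℤ), w.2 % (M : ℤ)) ∈ t := by
      intro w hw
      rw [ht, Finset.mem_filter, Finset.mem_product, Finset.mem_Ico, Finset.mem_Ico]
      refine ⟨⟨⟨Int.emod_nonneg _ hM'.ne', Int.emod_lt_of_pos _ hM'⟩, ⟨Int.emod_nonneg _ hM'.ne', Int.emod_lt_of_pos _ hM'⟩⟩, ?_⟩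
      exact hΩ w _ (Int.mod_modEq _ _).symm (Int.mod_modEq _ _).symm hw.2
    rw [As.A1c_ncard_fiber (Rg X ∩ Ω) h1 (fun w => (w.1 % (M : ℤ), w.2 % (M : ℤ))) t h2, Nat.cast_sum]
    refine Finset.sum_congr rfl fun v hv => ?_
    congr 2
    ext w
    rw [ht, Finset.mem_filter, Finset.mem_product, Finset.mem_Ico, Finset.mem_Ico] at hv
    simp only [Set.mem_ofPred_eq, Set.mem_inter_iff]
    constructor
    · rintro ⟨⟨h3, h4⟩, h5⟩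
      rw [← h5]
      exact ⟨h3, (Int.mod_modEq _ _).symm, (Int.mod_modEq _ _).symm⟩
    · rintro ⟨h3, h4, h5⟩
      refine ⟨⟨h3, hΩ v w h4.symm h5.symm hv.2⟩, ?_⟩
      have e1 : w.1 % (M : ℤ) = v.1 := by
        rw [h4]
        exact Int.emod_eq_of_lt hv.1.1.1 hv.1.1.2
      have e2 : w.2 % (M : ℤ) = v.2 := by
        rw [h5]
        exact Int.emod_eq_of_lt hv.1.2.1 hv.1.2.2
      rw [e1, e2]
  refine ⟨∑ v ∈ t, A / (M : ℝ) ^ 2, ?_⟩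
  have h1 : (fun X : ℝ => (((Rg X ∩ Ω).ncard : ℕ) : ℝ) / X ^ (2 / 3 : ℝ)) = fun X : ℝ =>
      ∑ v ∈ t, (({w ∈ Rg X | w.1 ≡ v.1 [ZMOD M] ∧ w.2 ≡ v.2 [ZMOD M]}.ncard : ℕ) : ℝ) / X ^ (2 / 3 : ℝ) := by
    funext X
    rw [hsum, Finset.sum_div]
  rw [h1]
  refine tendsto_finsetSum t fun v _ => ?_
  rw [tendsto_iff_dist_tendsto_zero]
  have h2 : Tendsto (fun X : ℝ => C * X ^ (-(1 / 6) : ℝ)) atTop (𝓝 0) := by
    have h3 := (tendsto_rpow_neg_atTop (show (0 : ℝ) < 1 / 6 by norm_num)).const_mul C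
    rwa [mul_zero] at h3
  refine squeeze_zero' (Filter.Eventually.of_forall fun X => dist_nonneg) ?_ h2
  filter_upwards [eventually_ge_atTop (1 : ℝ)] with X hX
  have hX0 : (0 : ℝ) < X := by linarith
  have hp : 0 < X ^ (2 / 3 : ℝ) := Real.rpow_pos_of_pos hX0 _
  have h3 := hC' v.1 v.2 X hX
  rw [Real.dist_eq, ← A1c_rpow_div hX, ← mul_div_assoc, le_div_iff₀ hp, ← abs_of_pos hp, ← abs_mul, sub_mul,
    abs_of_pos hp, div_mul_cancel₀ _ hp.ne']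
  exact h3

theorem upper_div3 : ∃ C : ℝ, 0 < C ∧ ∀ (s1 s2 s3 : ℕ) (X : ℝ), 1 ≤ X → 0 < s1 → 0 < s2 → 0 < s3 →
    Nat.Coprime s1 s3 →
    (({w ∈ Rg X | (s1 : ℤ) ∣ w.1 ∧ (s2 : ℤ) ∣ w.2 ∧ (s3 : ℤ) ∣ cc w}.ncard : ℕ) : ℝ) ≤
      C * (X ^ (2 / 3 : ℝ) / (s1 * s2 * s3 : ℝ) + X ^ (1 / 2 : ℝ)) := by
  obtain ⟨A, C, hC, hC'⟩ := sum_L
  refine ⟨|A| + C + 8, by positivity, fun s1 s2 s3 X hX h1 h2 h3 hco => ?_⟩
  have hX0 : (0 : ℝ) ≤ X := by linarith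
  obtain ⟨I, hI⟩ : ∃ I, I = (Icc (1 : ℤ) ⌊√X⌋).filter (fun b : ℤ => b ≡ 0 [ZMOD (s2 : ℤ)]) := ⟨_, rfl⟩
  obtain ⟨S, hS⟩ : ∃ S, S = {w ∈ Rg X | (s1 : ℤ) ∣ w.1 ∧ (s2 : ℤ) ∣ w.2 ∧ (s3 : ℤ) ∣ cc w} := ⟨_, rfl⟩
  have hSf : S.Finite := by
    rw [hS]
    exact (Rg_finite X).subset fun w hw => hw.1
  have hSI : ∀ w ∈ S, w.2 ∈ I := by
    intro w hw
    rw [hS] at hw
    rw [hI, Finset.mem_filter]
    exact ⟨A1c_mem_Icc hw.1, Int.modEq_zero_iff_dvd.2 hw.2.2.1⟩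
  have hI0 : ∀ b ∈ I, 0 < b := by
    intro b hb
    rw [hI, Finset.mem_filter, Finset.mem_Icc] at hb
    omega
  have hs : 0 < s1 * s3 := Nat.mul_pos h1 h3
  have hs1 : (1 : ℝ) ≤ ((s1 * s3 : ℕ) : ℝ) := by exact_mod_cast hs
  have hs0 : (0 : ℝ) < ((s1 * s3 : ℕ) : ℝ) := by linarith
  have hfib : ∀ b ∈ I, ((({w | w ∈ S ∧ w.2 = b}.ncard : ℕ)) : ℝ) ≤ L X (b : ℝ) / ((s1 * s3 : ℕ) : ℝ) + 8 := by
    intro b hb
    rw [A1c_ncard_col]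
    rcases Set.eq_empty_or_nonempty {a : ℤ | (a, b) ∈ S} with h4 | ⟨α, hα⟩
    · rw [h4, Set.ncard_empty, Nat.cast_zero]
      have h5 : 0 ≤ L X (b : ℝ) / ((s1 * s3 : ℕ) : ℝ) :=
        div_nonneg (A1c_L_nonneg hX0 (by exact_mod_cast hI0 b hb)) hs0.le
      linarith
    · have h4 : {a : ℤ | (a, b) ∈ S} ⊆ {a : ℤ | (a, b) ∈ Rg X ∧ a ≡ α [ZMOD ((s1 * s3 : ℕ) : ℤ)]} := by
        intro a ha
        rw [Set.mem_ofPred_eq, hS] at ha hα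
        refine ⟨ha.1, ?_⟩
        have e1 : (s1 : ℤ) ∣ α - a := dvd_sub hα.2.1 ha.2.1
        have e2 : (s3 : ℤ) ∣ α - a := by
          have e4 := dvd_sub hα.2.2.2 ha.2.2.2
          have e5 : cc (α, b) - cc (a, b) = α - a := by
            unfold cc
            ring
          rwa [e5] at e4
        have e4 : IsCoprime (s1 : ℤ) (s3 : ℤ) := Nat.isCoprime_iff_coprime.2 hco
        rw [Int.modEq_iff_dvd]
        push_cast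
        exact e4.mul_dvd e1 e2
      have h5 : {a : ℤ | (a, b) ∈ Rg X ∧ a ≡ α [ZMOD ((s1 * s3 : ℕ) : ℤ)]}.Finite := by
        have h6 : {a : ℤ | (a, b) ∈ Rg X}.Finite :=
          (Rg_finite X).preimage (fun x _ y _ hxy => (Prod.mk.inj hxy).1)
        exact h6.subset fun a ha => ha.1
      have h6 := fiber_count (s1 * s3) hs b α (hI0 b hb) X hX0
      have h7 : (({a : ℤ | (a, b) ∈ S}.ncard : ℕ) : ℝ) ≤
          (({a : ℤ | (a, b) ∈ Rg X ∧ a ≡ α [ZMOD ((s1 * s3 : ℕ) : ℤ)]}.ncard : ℕ) : ℝ) := by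
        exact_mod_cast Set.ncard_le_ncard h4 h5
      linarith [(abs_le.1 h6).2]
  have h4 := hC' s2 0 X h2 hX
  rw [← hI] at h4
  have hs2 : (0 : ℝ) < (s2 : ℝ) := by exact_mod_cast h2
  have p0 : 0 ≤ X ^ (1 / 2 : ℝ) := Real.rpow_nonneg hX0 _
  have p2 : 0 ≤ X ^ (2 / 3 : ℝ) := Real.rpow_nonneg hX0 _
  have h5 : ∑ b ∈ I, L X (b : ℝ) ≤ |A| * (X ^ (2 / 3 : ℝ) / s2) + C * X ^ (1 / 2 : ℝ) := by
    have h6 : A / s2 * X ^ (2 / 3 : ℝ) ≤ |A| * (X ^ (2 / 3 : ℝ) / s2) := by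
      have h7 : A / s2 * X ^ (2 / 3 : ℝ) = A * (X ^ (2 / 3 : ℝ) / s2) := by ring
      rw [h7]
      exact mul_le_mul_of_nonneg_right (le_abs_self A) (by positivity)
    linarith [(abs_le.1 h4).2]
  have h6 : ((I.card : ℕ) : ℝ) ≤ X ^ (1 / 2 : ℝ) := by
    refine le_trans ?_ (A1c_card_Icc X)
    rw [hI]
    exact_mod_cast Finset.card_filter_le _ _
  have h7 : ((S.ncard : ℕ) : ℝ) ≤ (∑ b ∈ I, L X (b : ℝ)) / ((s1 * s3 : ℕ) : ℝ) + 8 * X ^ (1 / 2 : ℝ) := by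
    rw [As.A1c_ncard_fiber S hSf Prod.snd I hSI, Nat.cast_sum]
    refine (Finset.sum_le_sum hfib).trans ?_
    rw [Finset.sum_add_distrib, ← Finset.sum_div, Finset.sum_const, nsmul_eq_mul]
    linarith
  rw [← hS]
  refine h7.trans ?_
  have h8 : (∑ b ∈ I, L X (b : ℝ)) / ((s1 * s3 : ℕ) : ℝ) ≤
      |A| * (X ^ (2 / 3 : ℝ) / (s1 * s2 * s3 : ℝ)) + C * X ^ (1 / 2 : ℝ) := by
    have h9 : (∑ b ∈ I, L X (b : ℝ)) / ((s1 * s3 : ℕ) : ℝ) ≤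
        (|A| * (X ^ (2 / 3 : ℝ) / s2) + C * X ^ (1 / 2 : ℝ)) / ((s1 * s3 : ℕ) : ℝ) :=
      div_le_div_of_nonneg_right h5 hs0.le
    rw [add_div] at h9
    have h10 : C * X ^ (1 / 2 : ℝ) / ((s1 * s3 : ℕ) : ℝ) ≤ C * X ^ (1 / 2 : ℝ) := div_le_self (by positivity) hs1
    have h11 : |A| * (X ^ (2 / 3 : ℝ) / s2) / ((s1 * s3 : ℕ) : ℝ) = |A| * (X ^ (2 / 3 : ℝ) / (s1 * s2 * s3 : ℝ)) := by
      push_cast
      have e1 : (0 : ℝ) < s1 := by exact_mod_cast h1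
      have e3 : (0 : ℝ) < s3 := by exact_mod_cast h3
      field_simp
    rw [h11] at h9
    linarith
  have p3 : 0 ≤ X ^ (2 / 3 : ℝ) / (s1 * s2 * s3 : ℝ) := by positivity
  have p4 : 0 ≤ |A| := abs_nonneg A
  nlinarith [mul_nonneg p4 p0, mul_nonneg hC.le p3]

theorem Rg_card : ∃ C : ℝ, 0 < C ∧ ∀ X : ℝ, 1 ≤ X →
    (((Rg X).ncard : ℕ) : ℝ) ≤ C * X ^ (2 / 3 : ℝ) := by
  obtain ⟨C, hC, h⟩ := upper_div3
  refine ⟨2 * C, by linarith, fun X hX => ?_⟩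
  have h1 := h 1 1 1 X hX one_pos one_pos one_pos (Nat.coprime_one_left 1)
  have h2 : {w ∈ Rg X | ((1 : ℕ) : ℤ) ∣ w.1 ∧ ((1 : ℕ) : ℤ) ∣ w.2 ∧ ((1 : ℕ) : ℤ) ∣ cc w} = Rg X := by
    ext w
    simp only [Set.mem_ofPred_eq, Nat.cast_one, one_dvd, and_true]
  rw [h2] at h1
  refine h1.trans ?_
  have h3 : X ^ (1 / 2 : ℝ) ≤ X ^ (2 / 3 : ℝ) := Real.rpow_le_rpow_of_exponent_le hX (by norm_num)
  have h4 : X ^ (2 / 3 : ℝ) / (((1 : ℕ) : ℝ) * ((1 : ℕ) : ℝ) * ((1 : ℕ) : ℝ)) = X ^ (2 / 3 : ℝ) := by norm_num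
  rw [h4]
  nlinarith

end Fr

end Pool.Agent.Lib.MP_d8bd92_nt
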