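import Pool.Agent.Lib.MP_d8bd92_nt.Fr.Defs
import Pool.Agent.Lib.MP_d8bd92_nt.As.B1

set_option autoImplicit false

/-!
ROW fr-B1b. Few points of the region with `d² | b`, `d > z`.

PROOF. For fixed b >= 1 (15 b² <= X) the number of x with x ≠ 0, x + 16 b ≠ 0, b |x (x + 16 b)| <= X is at most 50 min(√(X/b), X/b²):
for b³ <= X: (x + 8 b)² <= 64 b² + X/b <= 65 X/b; for b³ > X: one of |x|, |x + 16 b| is >= 8 b, so the other is <= X/(8 b²): at most 2 (2 X/(8 b²) + 1)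
values without 0 (none if X/(8 b²) < 1).
b = d² m: ∑_m min(√(X/(d² m)), X/(d⁴ m²)) <= C X^(2/3)/d² (cut at m0 = X^(1/3)/d²; if m0 < 1 then X/d⁴ <= X^(2/3)/d²),
and ∑_{d > z} 1/d² <= 2/z. (There is room: the term X^(3/5) may be used.) `As.B1_cover`, `As.B1_tail` may help.
-/

namespace Pool.Agent.Lib.MP_d8bd92_nt

namespace Fr

open Finset Filter Topology Pool.Agent.Lib.Szpiro

theorem B1b_sqrt_sum (N : ℕ) : ∑ n ∈ Finset.Ioc 0 N, (√(n : ℝ))⁻¹ ≤ 2 * √(N : ℝ) := by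
  induction N with
  | zero => simp
  | succ N ih =>
    rw [Finset.sum_Ioc_succ_top (by omega)]
    have h1 : 0 < √((N + 1 : ℕ) : ℝ) := Real.sqrt_pos.mpr (by positivity)
    have h3 : √((N + 1 : ℕ) : ℝ) ^ 2 = N + 1 := by
      rw [Real.sq_sqrt (by positivity)]; push_cast; ring
    have h4 : √(N : ℝ) ^ 2 = N := Real.sq_sqrt (by positivity)
    have h5 : (√((N + 1 : ℕ) : ℝ))⁻¹ ≤ 2 * √((N + 1 : ℕ) : ℝ) - 2 * √(N : ℝ) := by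
      rw [inv_le_iff_one_le_mul₀ h1]
      nlinarith [sq_nonneg (√((N + 1 : ℕ) : ℝ) - √(N : ℝ))]
    linarith

theorem B1b_prod (A : Set ℤ) (n : ℕ) (b : ℝ) (hA : A.Finite ∧ (A.ncard : ℝ) ≤ b) :
    (({(n : ℤ), -(n : ℤ)} : Set ℤ) ×ˢ A).Finite ∧
      (((({(n : ℤ), -(n : ℤ)} : Set ℤ) ×ˢ A).ncard : ℕ) : ℝ) ≤ 2 * b := by
  obtain ⟨h1, h2⟩ := As.B1_pm n
  refine ⟨h1.prod hA.1, ?_⟩
  rw [Set.ncard_prod]
  push_cast
  have h3 : (({(n : ℤ), -(n : ℤ)} : Set ℤ).ncard : ℝ) ≤ 2 := by exact_mod_cast h2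
  have h4 : (0 : ℝ) ≤ (A.ncard : ℝ) := Nat.cast_nonneg _
  nlinarith [hA.2]

/-- the points with `|x| ≤ |x + 16 b|` -/
def B1b_S (X z : ℝ) : Set (ℤ × ℤ) := {w | w.1 ≠ 0 ∧ 0 < w.2 ∧ |(w.1 : ℝ)| ^ 2 * w.2 ≤ X ∧
  |(w.1 : ℝ)| * (w.2 : ℝ) ^ 2 ≤ X ∧ ∃ d : ℕ, z < d ∧ (d : ℤ) ^ 2 ∣ w.2}

theorem B1b_mem (X z : ℝ) (x b y : ℤ) (hx : x ≠ 0) (hb : 0 < b)
    (hxy : y = x + 16 * b) (hX : |(x : ℝ)| * b * |(y : ℝ)| ≤ X) (hle : |(x : ℝ)| ≤ |(y : ℝ)|)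
    (hd : ∃ d : ℕ, z < d ∧ (d : ℤ) ^ 2 ∣ b) : (x, b) ∈ B1b_S X z := by
  have hb1 : (1 : ℝ) ≤ (b : ℝ) := by exact_mod_cast hb
  have hx0 : 0 ≤ |(x : ℝ)| := abs_nonneg _
  have hyb : (b : ℝ) ≤ |(y : ℝ)| := by
    have e : (y : ℝ) = x + 16 * b := by rw [hxy]; push_cast; ring
    have h1 := le_abs_self (y : ℝ)
    have h2 := neg_abs_le (x : ℝ)
    linarith
  refine ⟨hx, hb, ?_, ?_, hd⟩
  · calc |(x : ℝ)| ^ 2 * b = |(x : ℝ)| * b * |(x : ℝ)| := by ring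
      _ ≤ |(x : ℝ)| * b * |(y : ℝ)| := mul_le_mul_of_nonneg_left hle (by positivity)
      _ ≤ X := hX
  · calc |(x : ℝ)| * (b : ℝ) ^ 2 = |(x : ℝ)| * b * b := by ring
      _ ≤ |(x : ℝ)| * b * |(y : ℝ)| := mul_le_mul_of_nonneg_left hyb (by positivity)
      _ ≤ X := hX

theorem B1b_small (q z : ℝ) (hq : 1 ≤ q) (hz : 1 ≤ z) :
    {w ∈ B1b_S (q ^ 3) z | |(w.1 : ℝ)| ≤ q}.Finite ∧
    (({w ∈ B1b_S (q ^ 3) z | |(w.1 : ℝ)| ≤ q}.ncard : ℕ) : ℝ) ≤ 16 * (q ^ 2 / z) := by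
  have hz0 : 0 < z := by linarith
  have hq0 : 0 < q := by linarith
  have key := As.B1_cover {w ∈ B1b_S (q ^ 3) z | |(w.1 : ℝ)| ≤ q}
    (Finset.Ioc 0 ⌊q⌋₊)
    (fun n => ({(n : ℤ), -(n : ℤ)} : Set ℤ) ×ˢ
      {b : ℤ | b ≠ 0 ∧ |(b : ℝ)| ≤ √(q ^ 3) * (√(n : ℝ))⁻¹ ∧ ∃ d : ℕ, z < d ∧ (d : ℤ) ^ 2 ∣ b})
    (fun n => 2 * (4 * (√(q ^ 3) * (√(n : ℝ))⁻¹) / z)) ?_ ?_
  · refine ⟨key.1, key.2.trans ?_⟩
    have e : ∑ n ∈ Finset.Ioc 0 ⌊q⌋₊, 2 * (4 * (√(q ^ 3) * (√(n : ℝ))⁻¹) / z) =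
        8 * √(q ^ 3) / z * ∑ n ∈ Finset.Ioc 0 ⌊q⌋₊, (√(n : ℝ))⁻¹ := by
      rw [Finset.mul_sum]
      exact Finset.sum_congr rfl fun d _ => by ring
    rw [e]
    have h := B1b_sqrt_sum ⌊q⌋₊
    have h2 : √((⌊q⌋₊ : ℕ) : ℝ) ≤ √q := Real.sqrt_le_sqrt (Nat.floor_le hq0.le)
    have h3 : √(q ^ 3) * √q = q ^ 2 := by
      rw [← Real.sqrt_mul (by positivity)]
      have : q ^ 3 * q = (q ^ 2) ^ 2 := by ring
      rw [this, Real.sqrt_sq (by positivity)]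
    calc 8 * √(q ^ 3) / z * ∑ n ∈ Finset.Ioc 0 ⌊q⌋₊, (√(n : ℝ))⁻¹
        ≤ 8 * √(q ^ 3) / z * (2 * √q) :=
          mul_le_mul_of_nonneg_left (h.trans (by linarith)) (by positivity)
      _ = 16 * (√(q ^ 3) * √q) / z := by ring
      _ = 16 * (q ^ 2 / z) := by rw [h3]; ring
  · intro n _
    exact B1b_prod _ n _ (As.B1_M _ z (by positivity) hz0)
  · rintro ⟨x, b⟩ ⟨⟨hx, hb, h1, h2, hd⟩, hxq⟩
    dsimp only at hx hb h1 h2 hd hxq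
    have hn : ((x.natAbs : ℕ) : ℝ) = |(x : ℝ)| := As.B1_natAbs x
    have hx1 : (1 : ℝ) ≤ |(x : ℝ)| := by
      have : 1 ≤ |x| := Int.one_le_abs hx
      exact_mod_cast this
    have hb1 : (1 : ℝ) ≤ (b : ℝ) := by exact_mod_cast hb
    refine ⟨x.natAbs, ?_, ?_, ?_⟩
    · rw [Finset.mem_Ioc]
      refine ⟨Int.natAbs_pos.mpr hx, ?_⟩
      apply Nat.le_floor
      rw [hn]; exact hxq
    · dsimp only
      rcases Int.natAbs_eq x with h | h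
      · left; exact h
      · right; exact h
    · dsimp only
      refine ⟨hb.ne', ?_, hd⟩
      rw [hn, abs_of_pos (by linarith : (0 : ℝ) < (b : ℝ))]
      have hs : 0 < √|(x : ℝ)| := Real.sqrt_pos.mpr (by linarith)
      rw [← div_eq_mul_inv, le_div_iff₀ hs]
      apply Real.le_sqrt_of_sq_le
      rw [mul_pow, Real.sq_sqrt (abs_nonneg _)]
      linarith

theorem B1b_large (q z : ℝ) (hq : 1 ≤ q) (hz : 1 ≤ z) :
    {w ∈ B1b_S (q ^ 3) z | q < |(w.1 : ℝ)|}.Finite ∧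
    (({w ∈ B1b_S (q ^ 3) z | q < |(w.1 : ℝ)|}.ncard : ℕ) : ℝ) ≤ 16 * (q ^ 2 / z) := by
  have hz0 : 0 < z := by linarith
  have hq0 : 0 < q := by linarith
  have key := As.B1_cover {w ∈ B1b_S (q ^ 3) z | q < |(w.1 : ℝ)|}
    (Finset.Ioc ⌊q⌋₊ ⌊q ^ 3⌋₊)
    (fun n => ({(n : ℤ), -(n : ℤ)} : Set ℤ) ×ˢ
      {b : ℤ | b ≠ 0 ∧ |(b : ℝ)| ≤ q ^ 3 * ((n : ℝ) ^ 2)⁻¹ ∧ ∃ d : ℕ, z < d ∧ (d : ℤ) ^ 2 ∣ b})
    (fun n => 2 * (4 * (q ^ 3 * ((n : ℝ) ^ 2)⁻¹) / z)) ?_ ?_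
  · refine ⟨key.1, key.2.trans ?_⟩
    have e : ∑ n ∈ Finset.Ioc ⌊q⌋₊ ⌊q ^ 3⌋₊, 2 * (4 * (q ^ 3 * ((n : ℝ) ^ 2)⁻¹) / z) =
        8 * q ^ 3 / z * ∑ n ∈ Finset.Ioc ⌊q⌋₊ ⌊q ^ 3⌋₊, ((n : ℝ) ^ 2)⁻¹ := by
      rw [Finset.mul_sum]
      exact Finset.sum_congr rfl fun d _ => by ring
    rw [e]
    have h := As.B1_tail q hq0 ⌊q ^ 3⌋₊
    calc 8 * q ^ 3 / z * ∑ n ∈ Finset.Ioc ⌊q⌋₊ ⌊q ^ 3⌋₊, ((n : ℝ) ^ 2)⁻¹
        ≤ 8 * q ^ 3 / z * (2 / q) := mul_le_mul_of_nonneg_left h (by positivity)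
      _ = 16 * (q ^ 2 / z) := by field_simp; ring
  · intro n _
    exact B1b_prod _ n _ (As.B1_M _ z (by positivity) hz0)
  · rintro ⟨x, b⟩ ⟨⟨hx, hb, h1, h2, hd⟩, hxq⟩
    dsimp only at hx hb h1 h2 hd hxq
    have hn : ((x.natAbs : ℕ) : ℝ) = |(x : ℝ)| := As.B1_natAbs x
    have hx0 : 0 < |(x : ℝ)| := by linarith
    have hb1 : (1 : ℝ) ≤ (b : ℝ) := by exact_mod_cast hb
    refine ⟨x.natAbs, ?_, ?_, ?_⟩
    · rw [Finset.mem_Ioc]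
      constructor
      · apply (Nat.floor_lt hq0.le).2
        rw [hn]; exact hxq
      · apply Nat.le_floor
        rw [hn]
        have h3 : |(x : ℝ)| * 1 ≤ |(x : ℝ)| * (b : ℝ) ^ 2 :=
          mul_le_mul_of_nonneg_left (one_le_pow₀ hb1) hx0.le
        linarith
    · dsimp only
      rcases Int.natAbs_eq x with h | h
      · left; exact h
      · right; exact h
    · dsimp only
      refine ⟨hb.ne', ?_, hd⟩
      rw [hn, abs_of_pos (by linarith : (0 : ℝ) < (b : ℝ)), ← div_eq_mul_inv,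
        le_div_iff₀ (by positivity)]
      linarith

theorem B1b_count (q z : ℝ) (hq : 1 ≤ q) (hz : 1 ≤ z) :
    (B1b_S (q ^ 3) z).Finite ∧ (((B1b_S (q ^ 3) z).ncard : ℕ) : ℝ) ≤ 32 * (q ^ 2 / z) := by
  have h := As.B1_union (B1b_S (q ^ 3) z) _ _ _ _ (B1b_small q z hq hz) (B1b_large q z hq hz)
    (fun x hx => by
      rcases le_or_gt |(x.1 : ℝ)| q with h | h
      · left; exact ⟨hx, h⟩
      · right; exact ⟨hx, h⟩)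
  exact ⟨h.1, h.2.trans (by linarith)⟩

theorem tail_b : ∃ C : ℝ, 0 < C ∧ ∀ X z : ℝ, 1 ≤ X → 1 ≤ z →
    (({w ∈ Rg X | ∃ d : ℕ, z < (d : ℝ) ∧ (d : ℤ) ^ 2 ∣ w.2}.ncard : ℕ) : ℝ) ≤
      C * (X ^ (2 / 3 : ℝ) / z + X ^ (3 / 5 : ℝ)) := by
  refine ⟨64, by norm_num, fun X z hX hz => ?_⟩
  have hX0 : 0 < X := by linarith
  have hz0 : 0 < z := by linarith
  set q : ℝ := X ^ (1 / 3 : ℝ) with hqd
  have hq : 1 ≤ q := Real.one_le_rpow hX (by norm_num)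
  have hq3 : q ^ 3 = X := by
    rw [hqd, ← Real.rpow_natCast, ← Real.rpow_mul hX0.le]
    norm_num
  have hq2 : q ^ 2 = X ^ (2 / 3 : ℝ) := by
    rw [hqd, ← Real.rpow_natCast, ← Real.rpow_mul hX0.le]
    norm_num
  obtain ⟨hf, hc⟩ := B1b_count q z hq hz
  rw [hq3] at hf hc
  have himg : ((fun w : ℤ × ℤ => (-(w.1 + 16 * w.2), w.2)) '' B1b_S X z).Finite ∧
      ((((fun w : ℤ × ℤ => (-(w.1 + 16 * w.2), w.2)) '' B1b_S X z).ncard : ℕ) : ℝ) ≤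
        32 * (q ^ 2 / z) := by
    refine ⟨hf.image _, le_trans ?_ hc⟩
    exact_mod_cast Set.ncard_image_le hf
  have h := As.B1_union {w ∈ Rg X | ∃ d : ℕ, z < (d : ℝ) ∧ (d : ℤ) ^ 2 ∣ w.2} _ _ _ _
    ⟨hf, hc⟩ himg (by
      rintro ⟨x, b⟩ ⟨⟨hx, hb, hy, hn⟩, hd⟩
      rw [nn_eq] at hn
      dsimp only at hx hb hd hn
      push_cast [As.B1_natAbs] at hn
      rw [abs_of_pos (by exact_mod_cast hb : (0 : ℝ) < (b : ℝ))] at hn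
      rcases le_total |(x : ℝ)| |((cc (x, b) : ℤ) : ℝ)| with hle | hle
      · left
        exact B1b_mem X z x b (cc (x, b)) hx hb rfl hn hle hd
      · right
        refine ⟨(-(cc (x, b)), b), ?_, ?_⟩
        · refine B1b_mem X z (-(cc (x, b))) b (-x) (neg_ne_zero.mpr hy) hb ?_ ?_ ?_ hd
          · rw [cc]; ring
          · push_cast
            rw [abs_neg, abs_neg]
            calc |((cc (x, b) : ℤ) : ℝ)| * b * |(x : ℝ)| = |(x : ℝ)| * b * |((cc (x, b) : ℤ) : ℝ)| := by ring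
              _ ≤ X := hn
          · push_cast
            rw [abs_neg, abs_neg]
            exact hle
        · rw [cc]
          dsimp only
          congr 1
          ring)
  have h2 : 0 ≤ X ^ (3 / 5 : ℝ) := by positivity
  rw [← hq2]
  linarith [h.2]

end Fr

end Pool.Agent.Lib.MP_d8bd92_nt
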