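import Pool.Agent.Lib.MP_d8bd92_nt.Fr.B1a
import Pool.Agent.Lib.MP_d8bd92_nt.Fr.B1b
import Pool.Agent.Lib.MP_d8bd92_nt.Fr.A1c

set_option autoImplicit false

/-!
ROW fr-B1. tail_sq and tail_gcd.

PROOF of tail_sq. The map σ (x, b) = (-(x + 16 b), b) is an involution of Rg X with cc (σ w) = - w.1 and (σ w).1 = - cc w; so the
case d² | cc w is the case d² | w.1 of σ w: the set is contained in the union of the sets of tail_x, tail_b and σ '' (set of tail_x).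
PROOF of tail_gcd. If d | x, d | b, d > z, then w = (d x', d b') with (x', b') ∈ Rg (X/d³); Rg (X/d³) is empty for d³ > X (nn_pos), otherwise
`Rg_card`: at most C (X/d³)^(2/3) = C X^(2/3)/d²; sum over z < d.
-/

namespace Pool.Agent.Lib.MP_d8bd92_nt

namespace Fr

open Finset Filter Topology Pool.Agent.Lib.Szpiro

/-- the involution of the region -/
def B1_inv (w : ℤ × ℤ) : ℤ × ℤ := (-cc w, w.2)

theorem B1_inv_cc (w : ℤ × ℤ) : cc (B1_inv w) = -w.1 := by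
  simp only [B1_inv, cc]
  ring

theorem B1_inv_inv (w : ℤ × ℤ) : B1_inv (B1_inv w) = w := by
  apply Prod.ext
  · show -cc (B1_inv w) = w.1
    rw [B1_inv_cc, neg_neg]
  · rfl

theorem B1_inv_mem (X : ℝ) (w : ℤ × ℤ) (hw : w ∈ Rg X) : B1_inv w ∈ Rg X := by
  obtain ⟨h1, h2, h3, h4⟩ := hw
  refine ⟨neg_ne_zero.2 h3, h2, ?_, ?_⟩
  · rw [B1_inv_cc]
    exact neg_ne_zero.2 h1
  · have e : nn (B1_inv w) = nn w := by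
      rw [nn, nn, B1_inv_cc]
      congr 1
      show -cc w * w.2 * -w.1 = w.1 * w.2 * cc w
      ring
    rw [e]
    exact h4

theorem B1_sum (C X z : ℝ) (hC : 0 < C) (hX : 1 ≤ X) (hz : 1 ≤ z) :
    ∑ d ∈ Finset.Ioc ⌊z⌋₊ ⌊X⌋₊, C * (X ^ (2 / 3 : ℝ) * ((d : ℝ) ^ 2)⁻¹) ≤
      2 * C * (X ^ (2 / 3 : ℝ) / z + X ^ (3 / 5 : ℝ)) := by
  have h1 := As.B1_tail z (by linarith) ⌊X⌋₊
  have h2 : (0 : ℝ) ≤ X ^ (2 / 3 : ℝ) := Real.rpow_nonneg (by linarith) _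
  have h3 : (0 : ℝ) ≤ X ^ (3 / 5 : ℝ) := Real.rpow_nonneg (by linarith) _
  rw [← Finset.mul_sum, ← Finset.mul_sum]
  calc C * (X ^ (2 / 3 : ℝ) * ∑ d ∈ Finset.Ioc ⌊z⌋₊ ⌊X⌋₊, ((d : ℝ) ^ 2)⁻¹)
      ≤ C * (X ^ (2 / 3 : ℝ) * (2 / z)) :=
        mul_le_mul_of_nonneg_left (mul_le_mul_of_nonneg_left h1 h2) hC.le
    _ = 2 * C * (X ^ (2 / 3 : ℝ) / z) := by ring
    _ ≤ 2 * C * (X ^ (2 / 3 : ℝ) / z + X ^ (3 / 5 : ℝ)) :=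
        mul_le_mul_of_nonneg_left (by linarith) (by positivity)

theorem B1_scale (d : ℕ) (w : ℤ × ℤ) : nn ((d : ℤ) * w.1, (d : ℤ) * w.2) = d ^ 3 * nn w := by
  have e : ((d : ℤ) * w.1) * ((d : ℤ) * w.2) * cc ((d : ℤ) * w.1, (d : ℤ) * w.2) =
      (d : ℤ) ^ 3 * (w.1 * w.2 * cc w) := by
    simp only [cc]
    ring
  rw [nn, nn]
  show (((d : ℤ) * w.1) * ((d : ℤ) * w.2) * cc ((d : ℤ) * w.1, (d : ℤ) * w.2)).natAbs = _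
  rw [e, Int.natAbs_mul, Int.natAbs_pow, Int.natAbs_natCast]

theorem tail_sq : ∃ C : ℝ, 0 < C ∧ ∀ X z : ℝ, 1 ≤ X → 1 ≤ z →
    (({w ∈ Rg X | ∃ d : ℕ, z < (d : ℝ) ∧ ((d : ℤ) ^ 2 ∣ w.1 ∨ (d : ℤ) ^ 2 ∣ w.2 ∨
      (d : ℤ) ^ 2 ∣ cc w)}.ncard : ℕ) : ℝ) ≤
      C * (X ^ (2 / 3 : ℝ) / z + X ^ (3 / 5 : ℝ)) := by
  obtain ⟨C1, hC1, h1⟩ := tail_x
  obtain ⟨C2, hC2, h2⟩ := tail_b
  refine ⟨C1 + (C2 + C1), by positivity, fun X z hX hz => ?_⟩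
  have fin : ∀ P : ℤ × ℤ → Prop, {w ∈ Rg X | P w}.Finite := fun P =>
    (Rg_finite X).subset (fun w hw => hw.1)
  have a1 : {w ∈ Rg X | ∃ d : ℕ, z < (d : ℝ) ∧ (d : ℤ) ^ 2 ∣ w.1}.Finite ∧
      (({w ∈ Rg X | ∃ d : ℕ, z < (d : ℝ) ∧ (d : ℤ) ^ 2 ∣ w.1}.ncard : ℕ) : ℝ) ≤
      C1 * (X ^ (2 / 3 : ℝ) / z + X ^ (3 / 5 : ℝ)) := ⟨fin _, h1 X z hX hz⟩
  have a2 : {w ∈ Rg X | ∃ d : ℕ, z < (d : ℝ) ∧ (d : ℤ) ^ 2 ∣ w.2}.Finite ∧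
      (({w ∈ Rg X | ∃ d : ℕ, z < (d : ℝ) ∧ (d : ℤ) ^ 2 ∣ w.2}.ncard : ℕ) : ℝ) ≤
      C2 * (X ^ (2 / 3 : ℝ) / z + X ^ (3 / 5 : ℝ)) := ⟨fin _, h2 X z hX hz⟩
  have a3 : (B1_inv '' {w ∈ Rg X | ∃ d : ℕ, z < (d : ℝ) ∧ (d : ℤ) ^ 2 ∣ w.1}).Finite ∧
      (((B1_inv '' {w ∈ Rg X | ∃ d : ℕ, z < (d : ℝ) ∧ (d : ℤ) ^ 2 ∣ w.1}).ncard : ℕ) : ℝ) ≤
      C1 * (X ^ (2 / 3 : ℝ) / z + X ^ (3 / 5 : ℝ)) := by
    refine ⟨a1.1.image _, le_trans ?_ a1.2⟩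
    exact_mod_cast Set.ncard_image_le a1.1
  have a23 := As.B1_union ({w ∈ Rg X | ∃ d : ℕ, z < (d : ℝ) ∧ (d : ℤ) ^ 2 ∣ w.2} ∪
    (B1_inv '' {w ∈ Rg X | ∃ d : ℕ, z < (d : ℝ) ∧ (d : ℤ) ^ 2 ∣ w.1})) _ _ _ _ a2 a3
    (fun x hx => hx)
  have h3 := As.B1_union {w ∈ Rg X | ∃ d : ℕ, z < (d : ℝ) ∧ ((d : ℤ) ^ 2 ∣ w.1 ∨ (d : ℤ) ^ 2 ∣ w.2 ∨
      (d : ℤ) ^ 2 ∣ cc w)} _ _ _ _ a1 a23 (by
    rintro w ⟨hw, d, hzd, hd⟩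
    rcases hd with hd | hd | hd
    · exact Or.inl ⟨hw, d, hzd, hd⟩
    · exact Or.inr (Or.inl ⟨hw, d, hzd, hd⟩)
    · refine Or.inr (Or.inr ⟨B1_inv w, ⟨B1_inv_mem X w hw, d, hzd, ?_⟩, B1_inv_inv w⟩)
      exact (dvd_neg).2 hd)
  refine h3.2.trans (le_of_eq ?_)
  ring

theorem tail_gcd : ∃ C : ℝ, 0 < C ∧ ∀ X z : ℝ, 1 ≤ X → 1 ≤ z →
    (({w ∈ Rg X | ∃ d : ℕ, z < (d : ℝ) ∧ (d : ℤ) ∣ w.1 ∧ (d : ℤ) ∣ w.2}.ncard : ℕ) : ℝ) ≤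
      C * (X ^ (2 / 3 : ℝ) / z + X ^ (3 / 5 : ℝ)) := by
  obtain ⟨C, hC, h⟩ := Rg_card
  refine ⟨2 * C, by positivity, fun X z hX hz => ?_⟩
  have hX0 : 0 < X := by linarith
  have key := As.B1_cover {w ∈ Rg X | ∃ d : ℕ, z < (d : ℝ) ∧ (d : ℤ) ∣ w.1 ∧ (d : ℤ) ∣ w.2}
    (Finset.Ioc ⌊z⌋₊ ⌊X⌋₊) (fun d => (fun w : ℤ × ℤ => ((d : ℤ) * w.1, (d : ℤ) * w.2)) '' Rg (X / (d : ℝ) ^ 3))
    (fun d => C * (X ^ (2 / 3 : ℝ) * ((d : ℝ) ^ 2)⁻¹)) ?_ ?_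
  · exact key.2.trans (B1_sum C X z hC hX hz)
  · intro d hd
    rw [Finset.mem_Ioc] at hd
    have hd0 : (0 : ℝ) < d := by
      have : 0 < d := by omega
      exact_mod_cast this
    refine ⟨(Rg_finite _).image _, ?_⟩
    have h1 : ((((fun w : ℤ × ℤ => ((d : ℤ) * w.1, (d : ℤ) * w.2)) '' Rg (X / (d : ℝ) ^ 3)).ncard : ℕ) : ℝ) ≤
        (((Rg (X / (d : ℝ) ^ 3)).ncard : ℕ) : ℝ) := by
      exact_mod_cast Set.ncard_image_le (Rg_finite _)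
    refine h1.trans ?_
    rcases le_or_gt 1 (X / (d : ℝ) ^ 3) with h2 | h2
    · refine (h _ h2).trans (le_of_eq ?_)
      rw [Real.div_rpow hX0.le (by positivity)]
      have e : ((d : ℝ) ^ 3) ^ (2 / 3 : ℝ) = (d : ℝ) ^ 2 := by
        rw [← Real.rpow_natCast, ← Real.rpow_mul hd0.le, ← Real.rpow_natCast]
        norm_num
      rw [e, div_eq_mul_inv]
    · have e : Rg (X / (d : ℝ) ^ 3) = ∅ := by
        ext w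
        simp only [Set.mem_empty_iff_false, iff_false]
        rintro ⟨k1, k2, k3, k4⟩
        have k5 : (1 : ℝ) ≤ ((nn w : ℕ) : ℝ) := by exact_mod_cast nn_pos w k1 k2 k3
        linarith
      rw [e, Set.ncard_empty, Nat.cast_zero]
      have : (0 : ℝ) ≤ X ^ (2 / 3 : ℝ) := Real.rpow_nonneg hX0.le _
      positivity
  · rintro w ⟨⟨k1, k2, k3, k4⟩, d, hzd, ⟨x, hx⟩, ⟨b, hb⟩⟩
    have hd0 : (0 : ℝ) < d := by linarith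
    have hd1 : 0 < d := by exact_mod_cast hd0
    have hw : w = ((d : ℤ) * x, (d : ℤ) * b) := Prod.ext hx hb
    have hx0 : x ≠ 0 := by
      rintro rfl
      exact k1 (by rw [hx, mul_zero])
    have hb0 : 0 < b := by
      rw [hb] at k2
      have : (0 : ℤ) < d := by exact_mod_cast hd1
      exact pos_of_mul_pos_right k2 this.le
    have hc0 : cc (x, b) ≠ 0 := by
      intro h0
      apply k3
      have : cc w = (d : ℤ) * cc (x, b) := by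
        rw [hw]
        simp only [cc]
        ring
      rw [this, h0, mul_zero]
    have hn : ((nn w : ℕ) : ℝ) = (d : ℝ) ^ 3 * ((nn (x, b) : ℕ) : ℝ) := by
      rw [hw]
      have := B1_scale d (x, b)
      exact_mod_cast this
    have hn1 : (1 : ℝ) ≤ ((nn (x, b) : ℕ) : ℝ) := by exact_mod_cast nn_pos (x, b) hx0 hb0 hc0
    have hdr : (1 : ℝ) ≤ d := by exact_mod_cast hd1
    refine ⟨d, ?_, (x, b), ⟨hx0, hb0, hc0, ?_⟩, hw.symm⟩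
    · rw [Finset.mem_Ioc]
      refine ⟨(Nat.floor_lt (by linarith)).2 hzd, Nat.le_floor ?_⟩
      have h5 : (d : ℝ) ≤ (d : ℝ) ^ 3 := by
        have : (d : ℝ) ^ 1 ≤ (d : ℝ) ^ 3 := pow_le_pow_right₀ hdr (by norm_num)
        rwa [pow_one] at this
      have h6 : (d : ℝ) ^ 3 ≤ (d : ℝ) ^ 3 * ((nn (x, b) : ℕ) : ℝ) :=
        le_mul_of_one_le_right (by positivity) hn1
      rw [hn] at k4
      linarith
    · rw [le_div_iff₀ (by positivity), mul_comm, ← hn]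
      exact k4

end Fr

end Pool.Agent.Lib.MP_d8bd92_nt
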