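import Pool.Agent.Lib.MP_d8bd92_nt.Fr.Defs
import Pool.Agent.Lib.MP_d8bd92_nt.As.B1

set_option autoImplicit false

/-!
ROW fr-B1a. Few points of the region with `d² | x`, `d > z`.

PROOF. For fixed x ≠ 0 the number of b >= 1 with b |x (x + 16 b)| <= X, x + 16 b ≠ 0 is at most 60 min(√(X/|x|), X/x²), and 0 for |x| > 6 √X:
if 16 b >= 2|x| then |x + 16 b| >= 8 b, 8 b² |x| <= X, so b <= √(X/(8|x|)) (none if |x|³ > 8 X, as b >= |x|/8);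
if 16 b <= |x|/2 then |x + 16 b| >= |x|/2, b <= 2 X/x² (and b <= |x|/32);
if |x|/2 < 16 b < 2|x| then 0 ≠ |x + 16 b| <= X/(|x| b) <= 32 X/x²: at most 2 (32 X/x²)/16 + 1 <= 36 X/x² values (none if 32 X/x² < 1), and at most |x|/8.
(for |x|³ <= X: |x| <= √(X/|x|) and √(X/|x|) <= X/x²; for |x|³ > X the opposite.)
x = ± d² m: ∑_m min(√(X/(d² m)), X/(d⁴ m²)) <= C X^(2/3)/d² (cut at m0 = X^(1/3)/d²; if m0 < 1 then X/d⁴ <= X^(2/3)/d²),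
and ∑_{d > z} 1/d² <= 2/z. (There is room: the term X^(3/5) may be used, e.g. logs.) `As.B1_cover`, `As.B1_tail` may help.
-/

namespace Pool.Agent.Lib.MP_d8bd92_nt

namespace Fr

open Finset Filter Topology Pool.Agent.Lib.Szpiro

/-- sum of the inverse square roots -/
theorem B1a_sqrt (A : ℝ) (hA : 0 ≤ A) (N : ℕ) :
    ∑ n ∈ Finset.Icc 1 N, √(A / (n : ℝ)) ≤ 2 * √A * √(N : ℝ) := by
  induction N with
  | zero => simp
  | succ N ih =>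
    rw [Finset.sum_Icc_succ_top (by omega)]
    have h1 : √(A / ((N + 1 : ℕ) : ℝ)) ≤ 2 * √A * (√((N + 1 : ℕ) : ℝ) - √(N : ℝ)) := by
      rw [Real.sqrt_div hA]
      have hs : 0 < √((N + 1 : ℕ) : ℝ) := Real.sqrt_pos.2 (by positivity)
      have hs2 : √((N + 1 : ℕ) : ℝ) ^ 2 = (N : ℝ) + 1 := by
        rw [Real.sq_sqrt (by positivity)]; push_cast; ring
      have hr2 : √(N : ℝ) ^ 2 = (N : ℝ) := Real.sq_sqrt (by positivity)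
      rw [div_le_iff₀ hs]
      have h3 : 1 ≤ 2 * (√((N + 1 : ℕ) : ℝ) - √(N : ℝ)) * √((N + 1 : ℕ) : ℝ) := by
        nlinarith [sq_nonneg (√((N + 1 : ℕ) : ℝ) - √(N : ℝ))]
      calc √A = √A * 1 := by ring
        _ ≤ √A * (2 * (√((N + 1 : ℕ) : ℝ) - √(N : ℝ)) * √((N + 1 : ℕ) : ℝ)) :=
            mul_le_mul_of_nonneg_left h3 (Real.sqrt_nonneg _)
        _ = _ := by ring
    linarith

theorem B1a_sum1 (p : ℝ) (hp : 0 ≤ p) :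
    ∑ n ∈ Finset.Icc 1 ⌊p⌋₊, √(p ^ 3 / (n : ℝ)) ≤ 2 * p ^ 2 := by
  refine (B1a_sqrt (p ^ 3) (by positivity) _).trans ?_
  have h1 : √((⌊p⌋₊ : ℕ) : ℝ) ≤ √p := Real.sqrt_le_sqrt (Nat.floor_le hp)
  have h2 : √(p ^ 3) * √p = p ^ 2 := by
    rw [← Real.sqrt_mul (by positivity), show p ^ 3 * p = (p ^ 2) ^ 2 by ring, Real.sqrt_sq (by positivity)]
  calc 2 * √(p ^ 3) * √((⌊p⌋₊ : ℕ) : ℝ) ≤ 2 * √(p ^ 3) * √p :=
        mul_le_mul_of_nonneg_left h1 (by positivity)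
    _ = 2 * p ^ 2 := by rw [mul_assoc, h2]

theorem B1a_sum2 (X q : ℝ) (hX : 0 ≤ X) (hq : 0 < q) (N : ℕ) :
    ∑ n ∈ Finset.Ioc ⌊q⌋₊ N, X / (8 * (n : ℝ) ^ 2) ≤ X / (4 * q) := by
  have e : ∑ n ∈ Finset.Ioc ⌊q⌋₊ N, X / (8 * (n : ℝ) ^ 2) = X / 8 * ∑ n ∈ Finset.Ioc ⌊q⌋₊ N, ((n : ℝ) ^ 2)⁻¹ := by
    rw [Finset.mul_sum]
    exact Finset.sum_congr rfl fun d _ => by
      rw [div_mul_eq_div_div, div_eq_mul_inv (X / 8)]
  rw [e]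
  calc X / 8 * ∑ n ∈ Finset.Ioc ⌊q⌋₊ N, ((n : ℝ) ^ 2)⁻¹ ≤ X / 8 * (2 / q) :=
        mul_le_mul_of_nonneg_left (As.B1_tail q hq N) (by positivity)
    _ = X / (4 * q) := by field_simp; ring

/-- cover by the values of b -/
theorem B1a_cover (S : Set (ℤ × ℤ)) (I : Finset ℕ) (F : ℕ → Set ℤ) (b : ℕ → ℝ)
    (hF : ∀ n ∈ I, (F n).Finite ∧ ((F n).ncard : ℝ) ≤ b n)
    (hS : ∀ w ∈ S, ∃ n ∈ I, w.2 = (n : ℤ) ∧ w.1 ∈ F n) :
    S.Finite ∧ (S.ncard : ℝ) ≤ ∑ n ∈ I, b n := by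
  refine As.B1_cover S I (fun n => F n ×ˢ ({(n : ℤ)} : Set ℤ)) b ?_ ?_
  · intro n hn
    obtain ⟨h1, h2⟩ := hF n hn
    refine ⟨h1.prod (Set.finite_singleton _), ?_⟩
    rw [Set.ncard_prod, Set.ncard_singleton, mul_one]
    exact h2
  · intro w hw
    obtain ⟨n, hn, h1, h2⟩ := hS w hw
    exact ⟨n, hn, h2, h1⟩

/-- the set -/
def B1a_S (X z : ℝ) : Set (ℤ × ℤ) := {w ∈ Rg X | ∃ d : ℕ, z < (d : ℝ) ∧ (d : ℤ) ^ 2 ∣ w.1}

theorem B1a_facts (X : ℝ) (w : ℤ × ℤ) (hw : w ∈ Rg X) :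
    (1 : ℝ) ≤ w.2 ∧ (1 : ℝ) ≤ |(w.1 : ℝ) + 16 * w.2| ∧ |(w.1 : ℝ)| * w.2 * |(w.1 : ℝ) + 16 * w.2| ≤ X ∧
      (w.2 : ℝ) ≤ X ∧ (((w.2.toNat : ℕ) : ℤ) = w.2) ∧ (((w.2.toNat : ℕ) : ℝ) = w.2) := by
  obtain ⟨k1, k2, k3⟩ := Rg_bound X w hw
  obtain ⟨h1, h2, hc, hX⟩ := hw
  have hb : (1 : ℝ) ≤ w.2 := by exact_mod_cast h2
  have hcr : ((cc w : ℤ) : ℝ) = (w.1 : ℝ) + 16 * w.2 := by rw [cc]; push_cast; ring
  have hn : ((w.2.toNat : ℕ) : ℤ) = w.2 := Int.toNat_of_nonneg h2.le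
  refine ⟨hb, ?_, ?_, ?_, hn, ?_⟩
  · rw [← hcr]
    have : 1 ≤ |cc w| := Int.one_le_abs hc
    exact_mod_cast this
  · rw [nn, As.B1_natAbs] at hX
    push_cast at hX
    rw [abs_mul, abs_mul, hcr, abs_of_pos (by linarith : (0 : ℝ) < w.2)] at hX
    exact hX
  · nlinarith
  · exact_mod_cast hn

theorem B1a_real (X u v b : ℝ) (hu : 0 ≤ u) (hb : 0 < b) (h : u * b * v ≤ X) (huv : u ≤ v)
    (h16 : 16 * b ≤ u + v) : u ≤ √(X / b) ∧ u ≤ X / (8 * b ^ 2) := by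
  have hub : 0 ≤ u * b := mul_nonneg hu hb.le
  constructor
  · apply Real.le_sqrt_of_sq_le
    rw [le_div_iff₀ hb]
    calc u ^ 2 * b = u * b * u := by ring
      _ ≤ u * b * v := mul_le_mul_of_nonneg_left huv hub
      _ ≤ X := h
  · rw [le_div_iff₀ (by positivity)]
    calc u * (8 * b ^ 2) = u * b * (8 * b) := by ring
      _ ≤ u * b * v := mul_le_mul_of_nonneg_left (by linarith) hub
      _ ≤ X := h

/-- the case |x| ≤ |c| -/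
theorem B1a_A (X z : ℝ) (hz : 1 ≤ z) (S : Set (ℤ × ℤ)) (I : Finset ℕ) (ρ : ℕ → ℝ) (hρ : ∀ n ∈ I, 0 ≤ ρ n)
    (hS : ∀ w ∈ S, w ∈ B1a_S X z ∧ ∃ n ∈ I, w.2 = (n : ℤ) ∧ |(w.1 : ℝ)| ≤ ρ n) :
    S.Finite ∧ (S.ncard : ℝ) ≤ 4 / z * ∑ n ∈ I, ρ n := by
  have key := B1a_cover S I
    (fun n => {x : ℤ | x ≠ 0 ∧ |(x : ℝ)| ≤ ρ n ∧ ∃ d : ℕ, z < d ∧ (d : ℤ) ^ 2 ∣ x})
    (fun n => 4 * ρ n / z) (fun n hn => As.B1_M (ρ n) z (hρ n hn) (by linarith)) ?_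
  · refine ⟨key.1, key.2.trans (le_of_eq ?_)⟩
    rw [Finset.mul_sum]
    exact Finset.sum_congr rfl fun d _ => by ring
  · intro w hw
    obtain ⟨⟨hR, hd⟩, n, hn, h1, h2⟩ := hS w hw
    exact ⟨n, hn, h1, hR.1, h2, hd⟩

/-- the case |c| ≤ |x|, b not large -/
theorem B1a_B (X z D : ℝ) (hz : 1 ≤ z) (hD : 0 ≤ D) (S : Set (ℤ × ℤ)) (I : Finset ℕ) (ρ : ℕ → ℝ)
    (hρ : ∀ n ∈ I, 0 ≤ ρ n) (hI : ∀ n ∈ I, 16 * (n : ℝ) + ρ n ≤ D ^ 2)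
    (hS : ∀ w ∈ S, w ∈ B1a_S X z ∧ ∃ n ∈ I, w.2 = (n : ℤ) ∧ |(w.1 : ℝ) + 16 * w.2| ≤ ρ n) :
    S.Finite ∧ (S.ncard : ℝ) ≤ 4 / z * ∑ n ∈ I, ρ n + (I.card : ℝ) * D := by
  have key := B1a_cover S I
    (fun n => {x : ℤ | |(x : ℝ) - (-(16 * (n : ℝ)))| ≤ ρ n ∧ ∃ d : ℕ, z < d ∧ (d : ℝ) ≤ D ∧ (d : ℤ) ^ 2 ∣ x})
    (fun n => 4 * ρ n / z + D) (fun n hn => As.B1_N (-(16 * (n : ℝ))) (ρ n) z D (hρ n hn) (by linarith) hD) ?_
  · refine ⟨key.1, key.2.trans (le_of_eq ?_)⟩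
    rw [Finset.sum_add_distrib, Finset.sum_const, nsmul_eq_mul, Finset.mul_sum]
    congr 1
    exact Finset.sum_congr rfl fun d _ => by ring
  · intro w hw
    obtain ⟨⟨hR, d, hzd, hd⟩, n, hn, h1, h2⟩ := hS w hw
    have hbn : (w.2 : ℝ) = (n : ℝ) := by rw [h1]; simp
    rw [hbn] at h2
    refine ⟨n, hn, h1, ?_, d, hzd, ?_, hd⟩
    · rw [sub_neg_eq_add]; exact h2
    · have h3 : ((d : ℝ)) ^ 2 ≤ |(w.1 : ℝ)| := by
        have h4 : (d : ℤ) ^ 2 ≤ |w.1| := by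
          apply Int.le_of_dvd (abs_pos.2 hR.1)
          exact (dvd_abs _ _).2 hd
        exact_mod_cast h4
      have h5 : |(w.1 : ℝ)| ≤ |(w.1 : ℝ) + 16 * (n : ℝ)| + 16 * (n : ℝ) := by
        have h6 := abs_sub_abs_le_abs_sub (w.1 : ℝ) (-(16 * (n : ℝ)))
        rw [sub_neg_eq_add, abs_neg, abs_of_nonneg (by positivity : (0 : ℝ) ≤ 16 * (n : ℝ))] at h6
        linarith
      have h7 := hI n hn
      have h8 : (d : ℝ) ^ 2 ≤ D ^ 2 := by linarith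
      exact abs_le_of_sq_le_sq' h8 hD |>.2

/-- the case |c| ≤ |x|, b large -/
theorem B1a_C (X : ℝ) (S : Set (ℤ × ℤ)) (I : Finset ℕ) (ρ : ℕ → ℝ)
    (hρ : ∀ n ∈ I, 0 ≤ ρ n)
    (hS : ∀ w ∈ S, w ∈ Rg X ∧ ∃ n ∈ I, w.2 = (n : ℤ) ∧ |(w.1 : ℝ) + 16 * w.2| ≤ ρ n) :
    S.Finite ∧ (S.ncard : ℝ) ≤ 2 * ∑ n ∈ I, ρ n := by
  have key := B1a_cover S I
    (fun n => (fun k : ℤ => k - 16 * (n : ℤ)) '' {k : ℤ | k ≠ 0 ∧ |(k : ℝ)| ≤ ρ n})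
    (fun n => 2 * ρ n) ?_ ?_
  · refine ⟨key.1, key.2.trans (le_of_eq ?_)⟩
    rw [Finset.mul_sum]
  · intro n hn
    have h := As.B1_ball0 (ρ n) (hρ n hn)
    refine ⟨h.1.image _, le_trans ?_ h.2⟩
    exact_mod_cast Set.ncard_image_le h.1
  · intro w hw
    obtain ⟨hR, n, hn, h1, h2⟩ := hS w hw
    refine ⟨n, hn, h1, w.1 + 16 * (n : ℤ), ⟨?_, ?_⟩, ?_⟩
    · have := hR.2.2.1
      rw [cc, h1] at this
      exact this
    · push_cast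
      rw [h1] at h2
      push_cast at h2
      exact h2
    · dsimp only
      ring

theorem tail_x : ∃ C : ℝ, 0 < C ∧ ∀ X z : ℝ, 1 ≤ X → 1 ≤ z →
    (({w ∈ Rg X | ∃ d : ℕ, z < (d : ℝ) ∧ (d : ℤ) ^ 2 ∣ w.1}.ncard : ℕ) : ℝ) ≤
      C * (X ^ (2 / 3 : ℝ) / z + X ^ (3 / 5 : ℝ)) := by
  refine ⟨18, by norm_num, fun X z hX hz => ?_⟩
  have hX0 : 0 < X := by linarith
  have hz0 : 0 < z := by linarith
  obtain ⟨y, hy1, hy60, hy40, hy36⟩ : ∃ y : ℝ, 1 ≤ y ∧ y ^ 60 = X ∧ y ^ 40 = X ^ (2 / 3 : ℝ) ∧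
      y ^ 36 = X ^ (3 / 5 : ℝ) := by
    refine ⟨X ^ (1 / 60 : ℝ), Real.one_le_rpow hX (by norm_num), ?_, ?_, ?_⟩
    · rw [← Real.rpow_natCast, ← Real.rpow_mul hX0.le]; norm_num
    · rw [← Real.rpow_natCast, ← Real.rpow_mul hX0.le]; norm_num
    · rw [← Real.rpow_natCast, ← Real.rpow_mul hX0.le]; norm_num
  rw [← hy40, ← hy36]
  change ((B1a_S X z).ncard : ℝ) ≤ _
  have hy0 : 0 < y := by linarith
  set p : ℝ := y ^ 20 with hp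
  set P : ℝ := y ^ 24 with hP
  have hp1 : 1 ≤ p := one_le_pow₀ hy1
  have hP1 : 1 ≤ P := one_le_pow₀ hy1
  have hpP : p ≤ P := pow_le_pow_right₀ hy1 (by norm_num)
  have hp0 : 0 < p := by linarith
  have hP0 : 0 < P := by linarith
  have hXp : X = p ^ 3 := by rw [hp, ← pow_mul, ← hy60]
  -- the five parts
  have hA1 := B1a_A X z hz
    {w ∈ B1a_S X z | |(w.1 : ℝ)| ≤ |(w.1 : ℝ) + 16 * w.2| ∧ (w.2 : ℝ) ≤ p}
    (Finset.Icc 1 ⌊p⌋₊) (fun n => √(p ^ 3 / (n : ℝ))) (fun n _ => Real.sqrt_nonneg _) (by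
      rintro w ⟨hw, h1, h2⟩
      refine ⟨hw, w.2.toNat, ?_, ?_, ?_⟩
      all_goals obtain ⟨f1, f2, f3, f4, f5, f6⟩ := B1a_facts X w hw.1
      · rw [Finset.mem_Icc]
        constructor
        · have := hw.1.2.1
          omega
        · apply Nat.le_floor
          rw [f6]; exact h2
      · exact f5.symm
      · rw [f6, ← hXp]
        refine (B1a_real X _ |(w.1 : ℝ) + 16 * w.2| w.2 (abs_nonneg _) (by linarith) f3 h1 ?_).1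
        have h3 := abs_sub_abs_le_abs_sub ((w.1 : ℝ) + 16 * w.2) (w.1 : ℝ)
        have h4 := abs_sub (((w.1 : ℝ) + 16 * w.2)) (w.1 : ℝ)
        rw [add_sub_cancel_left, abs_of_pos (by linarith : (0 : ℝ) < 16 * w.2)] at h4
        linarith)
  have hA2 := B1a_A X z hz
    {w ∈ B1a_S X z | |(w.1 : ℝ)| ≤ |(w.1 : ℝ) + 16 * w.2| ∧ p < (w.2 : ℝ)}
    (Finset.Ioc ⌊p⌋₊ ⌊X⌋₊) (fun n => X / (8 * (n : ℝ) ^ 2)) (fun n _ => by positivity) (by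
      rintro w ⟨hw, h1, h2⟩
      refine ⟨hw, w.2.toNat, ?_, ?_, ?_⟩
      all_goals obtain ⟨f1, f2, f3, f4, f5, f6⟩ := B1a_facts X w hw.1
      · rw [Finset.mem_Ioc]
        constructor
        · apply (Nat.floor_lt hp0.le).2
          rw [f6]; exact h2
        · apply Nat.le_floor
          rw [f6]; exact f4
      · exact f5.symm
      · rw [f6]
        refine (B1a_real X _ |(w.1 : ℝ) + 16 * w.2| w.2 (abs_nonneg _) (by linarith) f3 h1 ?_).2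
        have h4 := abs_sub (((w.1 : ℝ) + 16 * w.2)) (w.1 : ℝ)
        rw [add_sub_cancel_left, abs_of_pos (by linarith : (0 : ℝ) < 16 * w.2)] at h4
        linarith)
  have hB1 := B1a_B X z (5 * y ^ 15) hz (by positivity)
    {w ∈ B1a_S X z | |(w.1 : ℝ) + 16 * w.2| ≤ |(w.1 : ℝ)| ∧ (w.2 : ℝ) ≤ p}
    (Finset.Icc 1 ⌊p⌋₊) (fun n => √(p ^ 3 / (n : ℝ))) (fun n _ => Real.sqrt_nonneg _) (by
      intro n hn
      rw [Finset.mem_Icc] at hn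
      have hn1 : (1 : ℝ) ≤ n := by exact_mod_cast hn.1
      have hn2 : (n : ℝ) ≤ p := le_trans (by exact_mod_cast hn.2) (Nat.floor_le hp0.le)
      have h3 : √(p ^ 3 / (n : ℝ)) ≤ y ^ 30 := by
        apply Real.sqrt_le_iff.2
        refine ⟨by positivity, ?_⟩
        calc p ^ 3 / (n : ℝ) ≤ p ^ 3 / 1 := div_le_div_of_nonneg_left (by positivity) (by norm_num) hn1
          _ = (y ^ 30) ^ 2 := by rw [hp]; ring
      have h4 : p ≤ y ^ 30 := pow_le_pow_right₀ hy1 (by norm_num)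
      have h5 : (5 * y ^ 15) ^ 2 = 25 * y ^ 30 := by ring
      have h6 : 0 < y ^ 30 := by positivity
      rw [h5]
      linarith) (by
      rintro w ⟨hw, h1, h2⟩
      refine ⟨hw, w.2.toNat, ?_, ?_, ?_⟩
      all_goals obtain ⟨f1, f2, f3, f4, f5, f6⟩ := B1a_facts X w hw.1
      · rw [Finset.mem_Icc]
        constructor
        · have := hw.1.2.1
          omega
        · apply Nat.le_floor
          rw [f6]; exact h2
      · exact f5.symm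
      · rw [f6, ← hXp]
        refine (B1a_real X _ |(w.1 : ℝ)| w.2 (abs_nonneg _) (by linarith) (by linarith) h1 ?_).1
        have h4 := abs_sub (((w.1 : ℝ) + 16 * w.2)) (w.1 : ℝ)
        rw [add_sub_cancel_left, abs_of_pos (by linarith : (0 : ℝ) < 16 * w.2)] at h4
        linarith)
  have hB2 := B1a_B X z (5 * y ^ 12) hz (by positivity)
    {w ∈ B1a_S X z | |(w.1 : ℝ) + 16 * w.2| ≤ |(w.1 : ℝ)| ∧ p < (w.2 : ℝ) ∧ (w.2 : ℝ) ≤ P}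
    (Finset.Ioc ⌊p⌋₊ ⌊P⌋₊) (fun n => X / (8 * (n : ℝ) ^ 2)) (fun n _ => by positivity) (by
      intro n hn
      rw [Finset.mem_Ioc] at hn
      have hn1 : p < (n : ℝ) := (Nat.floor_lt hp0.le).1 hn.1
      have hn2 : (n : ℝ) ≤ P := le_trans (by exact_mod_cast hn.2) (Nat.floor_le hP0.le)
      have h3 : X / (8 * (n : ℝ) ^ 2) ≤ P := by
        have hn3 : 0 < (n : ℝ) := by linarith
        rw [div_le_iff₀ (by positivity), hXp]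
        have h7 : p ^ 2 ≤ (n : ℝ) ^ 2 := pow_le_pow_left₀ hp0.le hn1.le 2
        calc p ^ 3 = p * p ^ 2 := by ring
          _ ≤ P * (n : ℝ) ^ 2 := mul_le_mul hpP h7 (by positivity) hP0.le
          _ ≤ P * (8 * (n : ℝ) ^ 2) := by
              apply mul_le_mul_of_nonneg_left _ hP0.le
              nlinarith [sq_nonneg (n : ℝ)]
      have h5 : (5 * y ^ 12) ^ 2 = 25 * P := by rw [hP]; ring
      rw [h5]
      linarith) (by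
      rintro w ⟨hw, h1, h2, h3⟩
      refine ⟨hw, w.2.toNat, ?_, ?_, ?_⟩
      all_goals obtain ⟨f1, f2, f3, f4, f5, f6⟩ := B1a_facts X w hw.1
      · rw [Finset.mem_Ioc]
        constructor
        · apply (Nat.floor_lt hp0.le).2
          rw [f6]; exact h2
        · apply Nat.le_floor
          rw [f6]; exact h3
      · exact f5.symm
      · rw [f6]
        refine (B1a_real X _ |(w.1 : ℝ)| w.2 (abs_nonneg _) (by linarith) (by linarith) h1 ?_).2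
        have h4 := abs_sub (((w.1 : ℝ) + 16 * w.2)) (w.1 : ℝ)
        rw [add_sub_cancel_left, abs_of_pos (by linarith : (0 : ℝ) < 16 * w.2)] at h4
        linarith)
  have hB3 := B1a_C X
    {w ∈ B1a_S X z | |(w.1 : ℝ) + 16 * w.2| ≤ |(w.1 : ℝ)| ∧ P < (w.2 : ℝ)}
    (Finset.Ioc ⌊P⌋₊ ⌊X⌋₊) (fun n => X / (8 * (n : ℝ) ^ 2)) (fun n _ => by positivity) (by
      rintro w ⟨hw, h1, h2⟩
      refine ⟨hw.1, w.2.toNat, ?_, ?_, ?_⟩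
      all_goals obtain ⟨f1, f2, f3, f4, f5, f6⟩ := B1a_facts X w hw.1
      · rw [Finset.mem_Ioc]
        constructor
        · apply (Nat.floor_lt hP0.le).2
          rw [f6]; exact h2
        · apply Nat.le_floor
          rw [f6]; exact f4
      · exact f5.symm
      · rw [f6]
        refine (B1a_real X _ |(w.1 : ℝ)| w.2 (abs_nonneg _) (by linarith) (by linarith) h1 ?_).2
        have h4 := abs_sub (((w.1 : ℝ) + 16 * w.2)) (w.1 : ℝ)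
        rw [add_sub_cancel_left, abs_of_pos (by linarith : (0 : ℝ) < 16 * w.2)] at h4
        linarith)
  have u1 := As.B1_union {w ∈ B1a_S X z | |(w.1 : ℝ)| ≤ |(w.1 : ℝ) + 16 * w.2|} _ _ _ _ hA1 hA2 (by
    rintro w ⟨hw, h⟩
    rcases le_or_gt (w.2 : ℝ) p with h1 | h1
    · left; exact ⟨hw, h, h1⟩
    · right; exact ⟨hw, h, h1⟩)
  have u2 := As.B1_union {w ∈ B1a_S X z | |(w.1 : ℝ) + 16 * w.2| ≤ |(w.1 : ℝ)| ∧ p < (w.2 : ℝ)} _ _ _ _ hB2 hB3 (by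
    rintro w ⟨hw, h, h2⟩
    rcases le_or_gt (w.2 : ℝ) P with h1 | h1
    · left; exact ⟨hw, h, h2, h1⟩
    · right; exact ⟨hw, h, h1⟩)
  have u3 := As.B1_union {w ∈ B1a_S X z | |(w.1 : ℝ) + 16 * w.2| ≤ |(w.1 : ℝ)|} _ _ _ _ hB1 u2 (by
    rintro w ⟨hw, h⟩
    rcases le_or_gt (w.2 : ℝ) p with h1 | h1
    · left; exact ⟨hw, h, h1⟩
    · right; exact ⟨hw, h, h1⟩)
  have u4 := As.B1_union (B1a_S X z) _ _ _ _ u1 u3 (by
    intro w hw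
    rcases le_total |(w.1 : ℝ)| |(w.1 : ℝ) + 16 * w.2| with h1 | h1
    · left; exact ⟨hw, h1⟩
    · right; exact ⟨hw, h1⟩)
  refine u4.2.trans ?_
  have s1 := B1a_sum1 p hp0.le
  have s2 := B1a_sum2 X p hX0.le hp0 ⌊X⌋₊
  have s3 := B1a_sum2 X p hX0.le hp0 ⌊P⌋₊
  have s4 := B1a_sum2 X P hX0.le hP0 ⌊X⌋₊
  have e1 : X / (4 * p) = p ^ 2 / 4 := by rw [hXp]; field_simp
  have e2 : X / (4 * P) = y ^ 36 / 4 := by rw [← hy60, hP]; field_simp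
  rw [e1] at s2 s3
  rw [e2] at s4
  have hz4 : 0 ≤ 4 / z := by positivity
  have t1 := mul_le_mul_of_nonneg_left s1 hz4
  have t2 := mul_le_mul_of_nonneg_left s2 hz4
  have t3 := mul_le_mul_of_nonneg_left s3 hz4
  have c1 : ((Finset.Icc 1 ⌊p⌋₊).card : ℝ) * (5 * y ^ 15) ≤ 5 * y ^ 36 := by
    rw [Nat.card_Icc, Nat.add_sub_cancel]
    calc ((⌊p⌋₊ : ℕ) : ℝ) * (5 * y ^ 15) ≤ p * (5 * y ^ 15) :=
          mul_le_mul_of_nonneg_right (Nat.floor_le hp0.le) (by positivity)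
      _ = 5 * y ^ 35 := by rw [hp]; ring
      _ ≤ 5 * y ^ 36 := by
          have : y ^ 35 ≤ y ^ 36 := pow_le_pow_right₀ hy1 (by norm_num)
          linarith
  have c2 : ((Finset.Ioc ⌊p⌋₊ ⌊P⌋₊).card : ℝ) * (5 * y ^ 12) ≤ 5 * y ^ 36 := by
    rw [Nat.card_Ioc]
    have h1 : ((⌊P⌋₊ - ⌊p⌋₊ : ℕ) : ℝ) ≤ P := by
      refine le_trans ?_ (Nat.floor_le hP0.le)
      exact_mod_cast Nat.sub_le _ _
    calc ((⌊P⌋₊ - ⌊p⌋₊ : ℕ) : ℝ) * (5 * y ^ 12) ≤ P * (5 * y ^ 12) :=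
          mul_le_mul_of_nonneg_right h1 (by positivity)
      _ = 5 * y ^ 36 := by rw [hP]; ring
  have e3 : 4 / z * (2 * p ^ 2) = 8 * (y ^ 40 / z) := by rw [hp]; ring
  have e4 : 4 / z * (p ^ 2 / 4) = y ^ 40 / z := by rw [hp]; ring
  rw [e3] at t1
  rw [e4] at t2 t3
  have h36 : 0 < y ^ 36 := by positivity
  linarith

end Fr

end Pool.Agent.Lib.MP_d8bd92_nt
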