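import Pool.Agent.Lib.MP_d8bd92_nt.Fr.A1c
import Pool.Agent.Lib.MP_d8bd92_nt.As.B3

set_option autoImplicit false

/-!
ROW fr-B3. Few good pairs with large excess `nn w / rd (nn w)`. (Adapt As/B3; `As.sum_conv`, `As.B3_split`, ... can be used.)

PROOF. w good, n = nn w = |x| b |x + 16 b| with three pairwise coprime factors (`good_cop`), rd n is the product of their rd;
|x| = k1 rd|x|, b = k2 rd b, |cc w| = k3 rd|cc w|, k = k1 k2 k3 = n/rd n in (K, Y^(1/40)], n = k rd n <= k Y. s_i = k_i rd k_i divides the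
i-th factor, s1, s3 coprime. By `upper_div3` with X = k1 k2 k3 Y the number is at most
∑_{k1,k2,k3 <= Y^(1/40), k1 k2 k3 > K} C ((k1 k2 k3 Y)^(2/3)/(s1 s2 s3) + (k1 k2 k3 Y)^(1/2)); here k1 k2 k3 <= Y^(1/40); first part:
Y^(2/3) (k1k2k3)^(-1/3)/(rd k1 rd k2 rd k3) <= Y^(2/3) K^(-1/5) (k1k2k3)^(-1/20)/(rd k1 rd k2 rd k3), by sum_conv <= C Y^(2/3) K^(-1/5);
second part: <= Y^(3/40) (Y^(1/40) Y)^(1/2) <= Y^(3/5).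
-/

namespace Pool.Agent.Lib.MP_d8bd92_nt

namespace Fr

open Finset Filter Topology Pool.Agent.Lib.Szpiro

/-- the covering of the set -/
theorem B3_cover (Y K : ℝ) (w : ℤ × ℤ)
    (hw : Good w ∧ ((rd (nn w) : ℕ) : ℝ) ≤ Y ∧ K * ((rd (nn w) : ℕ) : ℝ) < ((nn w : ℕ) : ℝ) ∧
      ((nn w : ℕ) : ℝ) ≤ Y ^ (1 / 40 : ℝ) * ((rd (nn w) : ℕ) : ℝ)) :
    ∃ k1 k2 k3 : ℕ, 0 < k1 ∧ 0 < k2 ∧ 0 < k3 ∧ K < (k1 : ℝ) * k2 * k3 ∧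
      (k1 : ℝ) * k2 * k3 ≤ Y ^ (1 / 40 : ℝ) ∧ Nat.Coprime (k1 * rd k1) (k3 * rd k3) ∧
      w ∈ {w ∈ Rg ((k1 : ℝ) * k2 * k3 * Y) | ((k1 * rd k1 : ℕ) : ℤ) ∣ w.1 ∧
        ((k2 * rd k2 : ℕ) : ℤ) ∣ w.2 ∧ ((k3 * rd k3 : ℕ) : ℤ) ∣ cc w} := by
  obtain ⟨hg, h1, h2, h3⟩ := hw
  obtain ⟨cx, cb⟩ := good_cop w hg
  obtain ⟨hx, hc⟩ := good_ne w hg
  obtain ⟨_, hb, hxb⟩ := hg
  have hx' : w.1.natAbs ≠ 0 := Int.natAbs_ne_zero.mpr hx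
  have hb' : w.2.natAbs ≠ 0 := Int.natAbs_ne_zero.mpr hb.ne'
  have hc' : (cc w).natAbs ≠ 0 := Int.natAbs_ne_zero.mpr hc
  have nx : Nat.Coprime w.1.natAbs (cc w).natAbs := Int.isCoprime_iff_gcd_eq_one.mp cx
  have nb : Nat.Coprime w.2.natAbs (cc w).natAbs := Int.isCoprime_iff_gcd_eq_one.mp cb
  have nxb : Nat.Coprime w.1.natAbs w.2.natAbs := Int.isCoprime_iff_gcd_eq_one.mp hxb
  obtain ⟨k1, hk1, e1, d1⟩ := As.B3_split _ hx'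
  obtain ⟨k2, hk2, e2, d2⟩ := As.B3_split _ hb'
  obtain ⟨k3, hk3, e3, d3⟩ := As.B3_split _ hc'
  have hrd : rd (nn w) = rd w.1.natAbs * rd w.2.natAbs * rd (cc w).natAbs := by
    rw [nn_eq, rd_mul_coprime _ _ (Nat.mul_ne_zero hx' hb') hc' (Nat.Coprime.mul_left nx nb),
      rd_mul_coprime _ _ hx' hb' nxb]
  have hnn : nn w = k1 * k2 * k3 * rd (nn w) := by
    rw [hrd, nn_eq]
    conv_lhs => rw [e1, e2, e3]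
    ring
  have hr0 : (0 : ℝ) < ((rd (nn w) : ℕ) : ℝ) := by exact_mod_cast rd_pos _
  have hnnR : ((nn w : ℕ) : ℝ) = (k1 : ℝ) * k2 * k3 * ((rd (nn w) : ℕ) : ℝ) := by exact_mod_cast hnn
  rw [hnnR] at h2 h3
  have hkk : (0 : ℝ) ≤ (k1 : ℝ) * k2 * k3 := by positivity
  refine ⟨k1, k2, k3, hk1, hk2, hk3, lt_of_mul_lt_mul_right h2 hr0.le, le_of_mul_le_mul_right h3 hr0, ?_,
    ⟨⟨hx, hb, hc, ?_⟩, ?_, ?_, ?_⟩⟩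
  · exact (nx.coprime_dvd_left d1).coprime_dvd_right d3
  · rw [hnnR]
    exact mul_le_mul_of_nonneg_left h1 hkk
  · exact Int.natCast_dvd.mpr d1
  · exact Int.natCast_dvd.mpr d2
  · exact Int.natCast_dvd.mpr d3

/-- the exponents of the first part -/
theorem B3_first (Y K k1 k2 k3 r1 r2 r3 : ℝ) (hY : 1 ≤ Y) (hK : 1 ≤ K) (h1 : 0 < k1) (h2 : 0 < k2)
    (h3 : 0 < k3) (hr1 : 0 < r1) (hr2 : 0 < r2) (hr3 : 0 < r3) (hk : K < k1 * k2 * k3) :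
    (k1 * k2 * k3 * Y) ^ (2 / 3 : ℝ) / (k1 * r1 * (k2 * r2) * (k3 * r3)) ≤
      Y ^ (2 / 3 : ℝ) * K ^ (-(1 / 5) : ℝ) * ((k1 ^ (-(1 / 20) : ℝ) * r1⁻¹) *
        ((k2 ^ (-(1 / 20) : ℝ) * r2⁻¹) * (k3 ^ (-(1 / 20) : ℝ) * r3⁻¹))) := by
  have hY0 : 0 < Y := by linarith
  have hK0 : 0 < K := by linarith
  have hkk : 0 < k1 * k2 * k3 := by positivity
  have hk1 : 1 ≤ k1 * k2 * k3 := by linarith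
  have e0 : (k1 * k2 * k3) ^ (2 / 3 : ℝ) ≤ (k1 * k2 * k3) * ((k1 * k2 * k3) ^ (-(1 / 5) : ℝ) *
      (k1 ^ (-(1 / 20) : ℝ) * k2 ^ (-(1 / 20) : ℝ) * k3 ^ (-(1 / 20) : ℝ))) := by
    rw [← Real.mul_rpow h1.le h2.le, ← Real.mul_rpow (by positivity) h3.le, ← Real.rpow_add hkk]
    have g : (k1 * k2 * k3) * (k1 * k2 * k3) ^ (-(1 / 5) + -(1 / 20) : ℝ) =
        (k1 * k2 * k3) ^ (3 / 4 : ℝ) := by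
      nth_rewrite 1 [← Real.rpow_one (k1 * k2 * k3)]
      rw [← Real.rpow_add hkk]
      norm_num
    rw [g]
    exact Real.rpow_le_rpow_of_exponent_le hk1 (by norm_num)
  have e1 : (k1 * k2 * k3 * Y) ^ (2 / 3 : ℝ) ≤ (k1 * k2 * k3) * ((k1 * k2 * k3) ^ (-(1 / 5) : ℝ) *
      (k1 ^ (-(1 / 20) : ℝ) * k2 ^ (-(1 / 20) : ℝ) * k3 ^ (-(1 / 20) : ℝ))) * Y ^ (2 / 3 : ℝ) := by
    rw [Real.mul_rpow hkk.le hY0.le]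
    exact mul_le_mul_of_nonneg_right e0 (by positivity)
  have e3 : (k1 * k2 * k3) ^ (-(1 / 5) : ℝ) ≤ K ^ (-(1 / 5) : ℝ) :=
    Real.rpow_le_rpow_of_nonpos hK0 hk.le (by norm_num)
  calc (k1 * k2 * k3 * Y) ^ (2 / 3 : ℝ) / (k1 * r1 * (k2 * r2) * (k3 * r3))
      ≤ (k1 * k2 * k3) * ((k1 * k2 * k3) ^ (-(1 / 5) : ℝ) *
      (k1 ^ (-(1 / 20) : ℝ) * k2 ^ (-(1 / 20) : ℝ) * k3 ^ (-(1 / 20) : ℝ))) * Y ^ (2 / 3 : ℝ) /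
        (k1 * r1 * (k2 * r2) * (k3 * r3)) := by
        gcongr
    _ = Y ^ (2 / 3 : ℝ) * (k1 * k2 * k3) ^ (-(1 / 5) : ℝ) * ((k1 ^ (-(1 / 20) : ℝ) * r1⁻¹) *
        ((k2 ^ (-(1 / 20) : ℝ) * r2⁻¹) * (k3 ^ (-(1 / 20) : ℝ) * r3⁻¹))) := by
        field_simp
    _ ≤ _ := by
        gcongr

theorem excess : ∃ C : ℝ, 0 < C ∧ ∀ Y K : ℝ, 1 ≤ Y → 1 ≤ K →
    {w : ℤ × ℤ | Good w ∧ ((rd (nn w) : ℕ) : ℝ) ≤ Y ∧ K * ((rd (nn w) : ℕ) : ℝ) < ((nn w : ℕ) : ℝ) ∧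
      ((nn w : ℕ) : ℝ) ≤ Y ^ (1 / 40 : ℝ) * ((rd (nn w) : ℕ) : ℝ)}.Finite ∧
    (({w : ℤ × ℤ | Good w ∧ ((rd (nn w) : ℕ) : ℝ) ≤ Y ∧ K * ((rd (nn w) : ℕ) : ℝ) < ((nn w : ℕ) : ℝ) ∧
      ((nn w : ℕ) : ℝ) ≤ Y ^ (1 / 40 : ℝ) * ((rd (nn w) : ℕ) : ℝ)}.ncard : ℕ) : ℝ) ≤
      C * (Y ^ (2 / 3 : ℝ) * K ^ (-(1 / 5) : ℝ) + Y ^ (3 / 5 : ℝ)) := by
  classical
  obtain ⟨C0, hC0, h0⟩ := As.sum_conv
  obtain ⟨C1, hC1, h1⟩ := upper_div3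
  refine ⟨C1 * (C0 ^ 3 + 1), by positivity, fun Y K hY hK => ?_⟩
  have hY0 : 0 < Y := by linarith
  have hK0 : 0 < K := by linarith
  set E : Set (ℤ × ℤ) := {w : ℤ × ℤ | Good w ∧ ((rd (nn w) : ℕ) : ℝ) ≤ Y ∧
      K * ((rd (nn w) : ℕ) : ℝ) < ((nn w : ℕ) : ℝ) ∧
      ((nn w : ℕ) : ℝ) ≤ Y ^ (1 / 40 : ℝ) * ((rd (nn w) : ℕ) : ℝ)} with hE
  set y : ℝ := Y ^ (1 / 40 : ℝ) with hy
  have hy0 : 0 < y := by positivity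
  have hy1 : 1 ≤ y := Real.one_le_rpow hY (by norm_num)
  have hfin : E.Finite := by
    refine (Rg_finite (y * Y)).subset ?_
    rintro w ⟨hg, a1, a2, a3⟩
    obtain ⟨hx, hc⟩ := good_ne w hg
    exact ⟨hx, hg.2.1, hc, a3.trans (mul_le_mul_of_nonneg_left a1 hy0.le)⟩
  refine ⟨hfin, ?_⟩
  set Z : ℕ := ⌊y⌋₊ with hZ
  set I : Finset (ℕ × ℕ × ℕ) := (Icc 1 Z ×ˢ (Icc 1 Z ×ˢ Icc 1 Z)).filter (fun k =>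
    K < (k.1 : ℝ) * k.2.1 * k.2.2 ∧ (k.1 : ℝ) * k.2.1 * k.2.2 ≤ y ∧
    Nat.Coprime (k.1 * rd k.1) (k.2.2 * rd k.2.2)) with hI
  set S : ℕ × ℕ × ℕ → Set (ℤ × ℤ) := fun k => {w ∈ Rg ((k.1 : ℝ) * k.2.1 * k.2.2 * Y) |
    ((k.1 * rd k.1 : ℕ) : ℤ) ∣ w.1 ∧ ((k.2.1 * rd k.2.1 : ℕ) : ℤ) ∣ w.2 ∧
      ((k.2.2 * rd k.2.2 : ℕ) : ℤ) ∣ cc w} with hS
  have hSfin : ∀ k, (S k).Finite := fun k => (Rg_finite _).subset fun w hw => hw.1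
  have hsub : E ⊆ ⋃ k ∈ I, S k := by
    intro w hw
    obtain ⟨k1, k2, k3, p1, p2, p3, q1, q2, q3, q5⟩ := B3_cover Y K w hw
    have r1 : (1 : ℝ) ≤ (k1 : ℝ) := by exact_mod_cast p1
    have r2 : (1 : ℝ) ≤ (k2 : ℝ) := by exact_mod_cast p2
    have r3 : (1 : ℝ) ≤ (k3 : ℝ) := by exact_mod_cast p3
    have r12 : (1 : ℝ) ≤ (k1 : ℝ) * k2 := one_le_mul_of_one_le_of_one_le r1 r2
    have m1 : k1 ≤ Z := Nat.le_floor (by nlinarith)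
    have m2 : k2 ≤ Z := Nat.le_floor (by nlinarith)
    have m3 : k3 ≤ Z := Nat.le_floor (by nlinarith)
    refine Set.mem_biUnion (x := (k1, k2, k3)) ?_ q5
    rw [Finset.mem_coe, hI, Finset.mem_filter, Finset.mem_product, Finset.mem_product, Finset.mem_Icc,
      Finset.mem_Icc, Finset.mem_Icc]
    exact ⟨⟨⟨p1, m1⟩, ⟨p2, m2⟩, ⟨p3, m3⟩⟩, q1, q2, q3⟩
  have hcard : ((E.ncard : ℕ) : ℝ) ≤ ∑ k ∈ I, (((S k).ncard : ℕ) : ℝ) := by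
    have g1 : E.ncard ≤ (⋃ k ∈ I, S k).ncard :=
      Set.ncard_le_ncard hsub (I.finite_toSet.biUnion fun k _ => hSfin k)
    have g2 : (⋃ k ∈ I, S k).ncard ≤ ∑ k ∈ I, (S k).ncard := Finset.set_ncard_biUnion_le I S
    exact_mod_cast g1.trans g2
  -- each term
  have hterm : ∀ k ∈ I, (((S k).ncard : ℕ) : ℝ) ≤ C1 * (Y ^ (2 / 3 : ℝ) * K ^ (-(1 / 5) : ℝ) *
      (((k.1 : ℝ) ^ (-(1 / 20) : ℝ) * ((rd k.1 : ℕ) : ℝ)⁻¹) *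
        (((k.2.1 : ℝ) ^ (-(1 / 20) : ℝ) * ((rd k.2.1 : ℕ) : ℝ)⁻¹) *
          ((k.2.2 : ℝ) ^ (-(1 / 20) : ℝ) * ((rd k.2.2 : ℕ) : ℝ)⁻¹))) + (y * Y) ^ (1 / 2 : ℝ)) := by
    intro k hk
    rw [hI, Finset.mem_filter, Finset.mem_product, Finset.mem_product, Finset.mem_Icc, Finset.mem_Icc,
      Finset.mem_Icc] at hk
    obtain ⟨⟨⟨p1, _⟩, ⟨p2, _⟩, ⟨p3, _⟩⟩, q1, q2, q3⟩ := hk
    have hk1 : (0 : ℝ) < (k.1 : ℝ) := by exact_mod_cast p1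
    have hk2 : (0 : ℝ) < (k.2.1 : ℝ) := by exact_mod_cast p2
    have hk3 : (0 : ℝ) < (k.2.2 : ℝ) := by exact_mod_cast p3
    have hX : 1 ≤ (k.1 : ℝ) * k.2.1 * k.2.2 * Y := by
      have : 1 ≤ (k.1 : ℝ) * k.2.1 * k.2.2 := (hK.trans q1.le)
      nlinarith
    have g := h1 (k.1 * rd k.1) (k.2.1 * rd k.2.1) (k.2.2 * rd k.2.2) ((k.1 : ℝ) * k.2.1 * k.2.2 * Y) hX
      (Nat.mul_pos p1 (rd_pos _)) (Nat.mul_pos p2 (rd_pos _)) (Nat.mul_pos p3 (rd_pos _)) q3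
    refine g.trans (mul_le_mul_of_nonneg_left ?_ hC1.le)
    have hr1 : (0 : ℝ) < ((rd k.1 : ℕ) : ℝ) := by exact_mod_cast rd_pos _
    have hr2 : (0 : ℝ) < ((rd k.2.1 : ℕ) : ℝ) := by exact_mod_cast rd_pos _
    have hr3 : (0 : ℝ) < ((rd k.2.2 : ℕ) : ℝ) := by exact_mod_cast rd_pos _
    refine add_le_add ?_ ?_
    · have g1 := B3_first Y K k.1 k.2.1 k.2.2 (rd k.1) (rd k.2.1) (rd k.2.2) hY hK hk1 hk2 hk3 hr1 hr2 hr3 q1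
      push_cast
      exact g1
    · refine Real.rpow_le_rpow (by positivity) ?_ (by norm_num)
      exact mul_le_mul_of_nonneg_right q2 hY0.le
  have g4 : 0 ≤ ∑ k ∈ Icc 1 Z, (k : ℝ) ^ (-(1 / 20) : ℝ) * ((rd k : ℕ) : ℝ)⁻¹ :=
    Finset.sum_nonneg fun k _ => by positivity
  have hsum1 : ∑ k ∈ I, (((k.1 : ℝ) ^ (-(1 / 20) : ℝ) * ((rd k.1 : ℕ) : ℝ)⁻¹) *
        (((k.2.1 : ℝ) ^ (-(1 / 20) : ℝ) * ((rd k.2.1 : ℕ) : ℝ)⁻¹) *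
          ((k.2.2 : ℝ) ^ (-(1 / 20) : ℝ) * ((rd k.2.2 : ℕ) : ℝ)⁻¹))) ≤ C0 ^ 3 := by
    have g1 : ∑ k ∈ I, (((k.1 : ℝ) ^ (-(1 / 20) : ℝ) * ((rd k.1 : ℕ) : ℝ)⁻¹) *
        (((k.2.1 : ℝ) ^ (-(1 / 20) : ℝ) * ((rd k.2.1 : ℕ) : ℝ)⁻¹) *
          ((k.2.2 : ℝ) ^ (-(1 / 20) : ℝ) * ((rd k.2.2 : ℕ) : ℝ)⁻¹))) ≤
        ∑ k ∈ Icc 1 Z ×ˢ (Icc 1 Z ×ˢ Icc 1 Z), (((k.1 : ℝ) ^ (-(1 / 20) : ℝ) * ((rd k.1 : ℕ) : ℝ)⁻¹) *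
        (((k.2.1 : ℝ) ^ (-(1 / 20) : ℝ) * ((rd k.2.1 : ℕ) : ℝ)⁻¹) *
          ((k.2.2 : ℝ) ^ (-(1 / 20) : ℝ) * ((rd k.2.2 : ℕ) : ℝ)⁻¹))) :=
      Finset.sum_le_sum_of_subset_of_nonneg (Finset.filter_subset _ _) fun k _ _ => by positivity
    have g2 : ∑ k ∈ Icc 1 Z ×ˢ (Icc 1 Z ×ˢ Icc 1 Z), (((k.1 : ℝ) ^ (-(1 / 20) : ℝ) * ((rd k.1 : ℕ) : ℝ)⁻¹) *
        (((k.2.1 : ℝ) ^ (-(1 / 20) : ℝ) * ((rd k.2.1 : ℕ) : ℝ)⁻¹) *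
          ((k.2.2 : ℝ) ^ (-(1 / 20) : ℝ) * ((rd k.2.2 : ℕ) : ℝ)⁻¹))) =
        (∑ k ∈ Icc 1 Z, (k : ℝ) ^ (-(1 / 20) : ℝ) * ((rd k : ℕ) : ℝ)⁻¹) *
        ((∑ k ∈ Icc 1 Z, (k : ℝ) ^ (-(1 / 20) : ℝ) * ((rd k : ℕ) : ℝ)⁻¹) *
        (∑ k ∈ Icc 1 Z, (k : ℝ) ^ (-(1 / 20) : ℝ) * ((rd k : ℕ) : ℝ)⁻¹)) := by
      rw [Finset.sum_mul_sum, Finset.sum_product, ← Finset.sum_product', Finset.sum_product,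
        Finset.sum_mul_sum]
      refine Finset.sum_congr rfl fun i _ => ?_
      rw [Finset.sum_product]
      refine Finset.sum_congr rfl fun j _ => ?_
      rw [Finset.mul_sum]
    have g3 := h0 Z
    rw [g2] at g1
    have g5 : (∑ k ∈ Icc 1 Z, (k : ℝ) ^ (-(1 / 20) : ℝ) * ((rd k : ℕ) : ℝ)⁻¹) ^ 3 ≤ C0 ^ 3 :=
      pow_le_pow_left₀ g4 g3 3
    refine g1.trans (le_trans (le_of_eq ?_) g5)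
    ring
  have hIcard : ((I.card : ℕ) : ℝ) ≤ y ^ 3 := by
    have g1 : I.card ≤ Z ^ 3 := by
      refine (Finset.card_filter_le _ _).trans ?_
      rw [Finset.card_product, Finset.card_product, Nat.card_Icc]
      simp only [Nat.add_sub_cancel]
      exact le_of_eq (by ring)
    have g2 : (Z : ℝ) ≤ y := Nat.floor_le hy0.le
    have g3 : ((I.card : ℕ) : ℝ) ≤ (Z : ℝ) ^ 3 := by exact_mod_cast g1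
    exact g3.trans (pow_le_pow_left₀ (Nat.cast_nonneg _) g2 3)
  have hsum2 : ((I.card : ℕ) : ℝ) * (y * Y) ^ (1 / 2 : ℝ) ≤ Y ^ (3 / 5 : ℝ) := by
    have g1 : (y * Y) ^ (1 / 2 : ℝ) = Y ^ (41 / 80 : ℝ) := by
      rw [hy]
      nth_rewrite 2 [← Real.rpow_one Y]
      rw [← Real.rpow_add hY0, ← Real.rpow_mul hY0.le]
      norm_num
    have g2 : y ^ 3 = Y ^ (3 / 40 : ℝ) := by
      rw [hy, ← Real.rpow_natCast, ← Real.rpow_mul hY0.le]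
      norm_num
    calc ((I.card : ℕ) : ℝ) * (y * Y) ^ (1 / 2 : ℝ) ≤ y ^ 3 * (y * Y) ^ (1 / 2 : ℝ) :=
          mul_le_mul_of_nonneg_right hIcard (by positivity)
      _ = Y ^ (3 / 40 + 41 / 80 : ℝ) := by rw [g1, g2, ← Real.rpow_add hY0]
      _ ≤ Y ^ (3 / 5 : ℝ) := Real.rpow_le_rpow_of_exponent_le hY (by norm_num)
  have hA : 0 ≤ Y ^ (2 / 3 : ℝ) * K ^ (-(1 / 5) : ℝ) := by positivity
  have hB : 0 ≤ Y ^ (3 / 5 : ℝ) := by positivity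
  calc ((E.ncard : ℕ) : ℝ) ≤ ∑ k ∈ I, (((S k).ncard : ℕ) : ℝ) := hcard
    _ ≤ ∑ k ∈ I, C1 * (Y ^ (2 / 3 : ℝ) * K ^ (-(1 / 5) : ℝ) *
      (((k.1 : ℝ) ^ (-(1 / 20) : ℝ) * ((rd k.1 : ℕ) : ℝ)⁻¹) *
        (((k.2.1 : ℝ) ^ (-(1 / 20) : ℝ) * ((rd k.2.1 : ℕ) : ℝ)⁻¹) *
          ((k.2.2 : ℝ) ^ (-(1 / 20) : ℝ) * ((rd k.2.2 : ℕ) : ℝ)⁻¹))) + (y * Y) ^ (1 / 2 : ℝ)) :=
        Finset.sum_le_sum hterm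
    _ = C1 * (Y ^ (2 / 3 : ℝ) * K ^ (-(1 / 5) : ℝ) *
      (∑ k ∈ I, (((k.1 : ℝ) ^ (-(1 / 20) : ℝ) * ((rd k.1 : ℕ) : ℝ)⁻¹) *
        (((k.2.1 : ℝ) ^ (-(1 / 20) : ℝ) * ((rd k.2.1 : ℕ) : ℝ)⁻¹) *
          ((k.2.2 : ℝ) ^ (-(1 / 20) : ℝ) * ((rd k.2.2 : ℕ) : ℝ)⁻¹)))) +
        ((I.card : ℕ) : ℝ) * (y * Y) ^ (1 / 2 : ℝ)) := by
        rw [← Finset.mul_sum, Finset.sum_add_distrib, ← Finset.mul_sum, Finset.sum_const,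
          nsmul_eq_mul]
    _ ≤ C1 * (Y ^ (2 / 3 : ℝ) * K ^ (-(1 / 5) : ℝ) * C0 ^ 3 + Y ^ (3 / 5 : ℝ)) := by
        refine mul_le_mul_of_nonneg_left (add_le_add ?_ hsum2) hC1.le
        exact mul_le_mul_of_nonneg_left hsum1 hA
    _ ≤ C1 * (C0 ^ 3 + 1) * (Y ^ (2 / 3 : ℝ) * K ^ (-(1 / 5) : ℝ) + Y ^ (3 / 5 : ℝ)) := by
        have g1 : 0 ≤ C1 * (Y ^ (2 / 3 : ℝ) * K ^ (-(1 / 5) : ℝ)) := mul_nonneg hC1.le hA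
        have g2 : 0 ≤ C1 * C0 ^ 3 * Y ^ (3 / 5 : ℝ) := by positivity
        nlinarith

end Fr

end Pool.Agent.Lib.MP_d8bd92_nt
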