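import Pool.Agent.Lib.MP_d8bd92_nt.Fr.A1c
import Pool.Agent.Lib.MP_d8bd92_nt.Fr.B1
import Pool.Agent.Lib.MP_d8bd92_nt.As.C1

set_option autoImplicit false

/-!
ROW fr-C1. For fixed `k` the number of the good pairs in the region with excess exactly `k` has a limit.

PROOF. For z in ℕ, z >= k, let Ω z be the set of the w with: w.1 % 4 = 1; for all primes p <= z not (p | w.1 and p | w.2);
k rd k | nn w; for all primes p <= z: p | k -> not p k rd k | nn w, and not p | k -> not p² | nn w.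
It is periodic modulo M = 4 (k rd k) (z!)². T = {w in Rg X, good, nn w = k rd (nn w)} is contained in Ω z, and a w in Rg X ∩ Ω z for
which there is no d > z with d² | w.1 or d² | w.2 or d² | cc w or (d | w.1 and d | w.2) is in T.
So |card T - card (Rg X ∩ Ω z)| <= C (X^(2/3)/z + X^(3/5)) (`tail_sq`, `tail_gcd`), `periodic_limit`, and `limit_of_approx`.
-/

namespace Pool.Agent.Lib.MP_d8bd92_nt

namespace Fr

open Finset Filter Topology Pool.Agent.Lib.Szpiro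

/-- the periodic set -/
def C1Om (k z : ℕ) : Set (ℤ × ℤ) :=
  {w | w.1 % 4 = 1 ∧ (∀ p : ℕ, p.Prime → p ≤ z → ¬ ((p : ℤ) ∣ w.1 ∧ (p : ℤ) ∣ w.2)) ∧
    k * rd k ∣ nn w ∧ (∀ p : ℕ, p.Prime → p ≤ z →
      (p ∣ k → ¬ p * (k * rd k) ∣ nn w) ∧ (¬ p ∣ k → ¬ p ^ 2 ∣ nn w))}

theorem C1Om_periodic (k z : ℕ) (w v : ℤ × ℤ)
    (h1 : w.1 ≡ v.1 [ZMOD ((4 * (k * rd k) * (z.factorial) ^ 2 : ℕ) : ℤ)])
    (h2 : w.2 ≡ v.2 [ZMOD ((4 * (k * rd k) * (z.factorial) ^ 2 : ℕ) : ℤ)])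
    (hw : w ∈ C1Om k z) : v ∈ C1Om k z := by
  obtain ⟨ha, hb, hc, hd⟩ := hw
  set M : ℕ := 4 * (k * rd k) * (z.factorial) ^ 2 with hM
  have hN : w.1 * w.2 * cc w ≡ v.1 * v.2 * cc v [ZMOD (M : ℤ)] := by
    unfold cc
    exact (h1.mul h2).mul (h1.add (h2.mul_left 16))
  have key : ∀ d : ℕ, d ∣ M → (d ∣ nn v ↔ d ∣ nn w) := by
    intro d hdM
    unfold nn
    rw [← Int.natCast_dvd, ← Int.natCast_dvd]
    exact (As.C1_dvd_congr hdM hN).symm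
  have hz : ∀ p : ℕ, p.Prime → p ≤ z → p ∣ z.factorial := fun p hp hpz =>
    (hp.dvd_factorial).mpr hpz
  have hzM : z.factorial ∣ M := by
    rw [hM]
    exact (dvd_pow_self _ (by norm_num)).trans (dvd_mul_left _ _)
  refine ⟨?_, ?_, ?_, ?_⟩
  · have h4 : w.1 ≡ v.1 [ZMOD (4 : ℤ)] := by
      refine h1.of_dvd ?_
      have : (4 : ℕ) ∣ M := by
        rw [hM, mul_assoc]; exact dvd_mul_right _ _
      exact_mod_cast this
    have h5 : w.1 % 4 = v.1 % 4 := h4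
    omega
  · intro p hp hpz hpv
    have hpM : p ∣ M := (hz p hp hpz).trans hzM
    exact hb p hp hpz ⟨(As.C1_dvd_congr hpM h1).mpr hpv.1, (As.C1_dvd_congr hpM h2).mpr hpv.2⟩
  · refine (key _ ?_).mpr hc
    rw [hM, mul_comm 4, mul_assoc]
    exact dvd_mul_right _ _
  · intro p hp hpz
    refine ⟨fun hpk hpv => ?_, fun hpk hpv => ?_⟩
    · refine (hd p hp hpz).1 hpk ((key _ ?_).mp hpv)
      rw [hM]
      calc p * (k * rd k) ∣ z.factorial ^ 2 * (k * rd k) :=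
            mul_dvd_mul ((hz p hp hpz).trans (dvd_pow_self _ (by norm_num))) dvd_rfl
        _ ∣ 4 * (k * rd k) * z.factorial ^ 2 := ⟨4, by ring⟩
    · refine (hd p hp hpz).2 hpk ((key _ ?_).mp hpv)
      rw [hM]
      exact (pow_dvd_pow_of_dvd (hz p hp hpz) 2).trans (dvd_mul_left _ _)

/-- the set to be counted -/
def C1T (k : ℕ) (X : ℝ) : Set (ℤ × ℤ) := {w ∈ Rg X | Good w ∧ nn w = k * rd (nn w)}

theorem C1T_sub (k z : ℕ) (hk : 0 < k) (X : ℝ) : C1T k X ⊆ Rg X ∩ C1Om k z := by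
  rintro w ⟨hR, hG, hn⟩
  refine ⟨hR, hG.1, ?_, ?_, ?_⟩
  · intro p hp _ hpp
    have h1 := hG.2.2.isUnit_of_dvd' hpp.1 hpp.2
    have h2 := Int.isUnit_iff_natAbs_eq.mp h1
    simp at h2
    exact hp.one_lt.ne' h2
  · have hn0 : nn w ≠ 0 := by
      have := nn_pos w hR.1 hR.2.1 hR.2.2.1
      omega
    have h1 : k ∣ nn w := ⟨rd (nn w), hn⟩
    calc k * rd k ∣ k * rd (nn w) := mul_dvd_mul dvd_rfl (As.C1_rd_dvd_rd hn0 h1)
      _ = nn w := hn.symm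
  · have hn0 : nn w ≠ 0 := by
      have := nn_pos w hR.1 hR.2.1 hR.2.2.1
      omega
    intro p hp _
    refine ⟨fun hpk h => ?_, fun hpk h => ?_⟩
    · have h1 : k * (p * rd k) ∣ k * rd (nn w) := by
        rw [← hn]
        have : k * (p * rd k) = p * (k * rd k) := by ring
        rw [this]
        exact h
      have h2 : p * rd k ∣ rd (nn w) := Nat.dvd_of_mul_dvd_mul_left hk h1
      have h3 : p ∣ rd k := (As.C1_dvd_rd hk.ne' hp).mpr hpk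
      have h4 : p * p ∣ rd (nn w) := (mul_dvd_mul dvd_rfl h3).trans h2
      have h5 := As.C1_rd_squarefree (nn w) p h4
      exact hp.one_lt.ne' (Nat.isUnit_iff.mp h5)
    · rw [hn] at h
      have hc : Nat.Coprime (p ^ 2) k :=
        Nat.Coprime.pow_left 2 ((Nat.Prime.coprime_iff_not_dvd hp).mpr hpk)
      have h4 : p ^ 2 ∣ rd (nn w) := hc.dvd_of_dvd_mul_left h
      rw [pow_two] at h4
      have h5 := As.C1_rd_squarefree (nn w) p h4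
      exact hp.one_lt.ne' (Nat.isUnit_iff.mp h5)

/-- the square of a prime which divides the product of three coprime numbers divides one of them -/
theorem C1_sq_dvd {p a b c : ℤ} (hp : Prime p) (hab : IsCoprime a b) (hac : IsCoprime a c)
    (hbc : IsCoprime b c) (h : p ^ 2 ∣ a * b * c) : p ^ 2 ∣ a ∨ p ^ 2 ∣ b ∨ p ^ 2 ∣ c := by
  have key : ∀ x y : ℤ, IsCoprime x y → p ^ 2 ∣ x * y → p ^ 2 ∣ x ∨ p ^ 2 ∣ y := by
    intro x y hxy hd
    by_cases hx : p ∣ x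
    · left
      have hy : ¬ p ∣ y := fun hy => hp.not_isUnit (hxy.isUnit_of_dvd' hx hy)
      have hco : IsCoprime (p ^ 2) y := ((Prime.coprime_iff_not_dvd hp).mpr hy).pow_left
      exact hco.dvd_of_dvd_mul_right hd
    · right
      have hco : IsCoprime (p ^ 2) x := ((Prime.coprime_iff_not_dvd hp).mpr hx).pow_left
      exact hco.dvd_of_dvd_mul_left hd
  rcases key (a * b) c (IsCoprime.mul_left hac hbc) h with h | h
  · rcases key a b hab h with h | h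
    · exact Or.inl h
    · exact Or.inr (Or.inl h)
  · exact Or.inr (Or.inr h)

theorem C1_diff (k z : ℕ) (hk : 0 < k) (hz : k ≤ z) (X : ℝ) (w : ℤ × ℤ)
    (hw : w ∈ Rg X ∩ C1Om k z)
    (h1 : ¬ ∃ d : ℕ, (z : ℝ) < d ∧ ((d : ℤ) ^ 2 ∣ w.1 ∨ (d : ℤ) ^ 2 ∣ w.2 ∨ (d : ℤ) ^ 2 ∣ cc w))
    (h2 : ¬ ∃ d : ℕ, (z : ℝ) < d ∧ (d : ℤ) ∣ w.1 ∧ (d : ℤ) ∣ w.2) : w ∈ C1T k X := by
  obtain ⟨hR, ha, hb, hc, hd⟩ := hw
  have hcop : IsCoprime w.1 w.2 := by
    rw [Int.isCoprime_iff_gcd_eq_one]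
    by_contra hne
    obtain ⟨p, hp, hpd⟩ := Nat.exists_prime_and_dvd hne
    have hp1 : (p : ℤ) ∣ w.1 := (Int.natCast_dvd_natCast.mpr hpd).trans (Int.gcd_dvd_left ..)
    have hp2 : (p : ℤ) ∣ w.2 := (Int.natCast_dvd_natCast.mpr hpd).trans (Int.gcd_dvd_right ..)
    by_cases hpz : p ≤ z
    · exact hb p hp hpz ⟨hp1, hp2⟩
    · exact h2 ⟨p, by exact_mod_cast not_le.mp hpz, hp1, hp2⟩
  have hgood : Good w := ⟨ha, hR.2.1, hcop⟩
  have hn0 : nn w ≠ 0 := by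
    have := nn_pos w hR.1 hR.2.1 hR.2.2.1
    omega
  have hsq : ∀ p : ℕ, p.Prime → z < p → ¬ p ^ 2 ∣ nn w := by
    intro p hp hpz hpn
    apply h1
    refine ⟨p, by exact_mod_cast hpz, ?_⟩
    have hpn' : ((p ^ 2 : ℕ) : ℤ) ∣ w.1 * w.2 * cc w := Int.natCast_dvd.mpr hpn
    have hpn'' : (p : ℤ) ^ 2 ∣ w.1 * w.2 * cc w := by exact_mod_cast hpn'
    have hpp : Prime (p : ℤ) := Nat.prime_iff_prime_int.mp hp
    exact C1_sq_dvd hpp hcop (good_cop w hgood).1 (good_cop w hgood).2 hpn''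
  refine ⟨hR, hgood, ?_⟩
  obtain ⟨m, hm⟩ : k ∣ nn w := (dvd_mul_right _ _).trans hc
  have hkm : rd k ∣ m := by
    rw [hm] at hc
    exact Nat.dvd_of_mul_dvd_mul_left hk hc
  have hmsq : Squarefree m := by
    rw [Nat.squarefree_iff_prime_squarefree]
    intro p hp hpm
    by_cases hpk : p ∣ k
    · have hpz : p ≤ z := (Nat.le_of_dvd hk hpk).trans hz
      apply (hd p hp hpz).1 hpk
      obtain ⟨r, hr⟩ : p ∣ rd k := (As.C1_dvd_rd hk.ne' hp).mpr hpk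
      have hpr : ¬ p ∣ r := by
        intro hpr
        have h4 : p * p ∣ rd k := by
          rw [hr]
          exact mul_dvd_mul dvd_rfl hpr
        exact hp.one_lt.ne' (Nat.isUnit_iff.mp (As.C1_rd_squarefree k p h4))
      have hrm : r ∣ m := (Dvd.intro_left p hr.symm).trans hkm
      have hco : Nat.Coprime (p * p) r :=
        Nat.Coprime.mul_left ((Nat.Prime.coprime_iff_not_dvd hp).mpr hpr)
          ((Nat.Prime.coprime_iff_not_dvd hp).mpr hpr)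
      have h5 : p * p * r ∣ m := hco.mul_dvd_of_dvd_of_dvd hpm hrm
      rw [hm, hr]
      have : p * (k * (p * r)) = k * (p * p * r) := by ring
      rw [this]
      exact mul_dvd_mul dvd_rfl h5
    · have h6 : p ^ 2 ∣ nn w := by
        rw [hm, pow_two]
        exact hpm.trans (dvd_mul_left _ _)
      by_cases hpz : p ≤ z
      · exact (hd p hp hpz).2 hpk h6
      · exact hsq p hp (not_le.mp hpz) h6
  have h7 : rd (nn w) = m := by
    rw [hm]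
    refine As.C1_rd_mul hk.ne' hmsq (fun p hp hpk => ?_)
    exact ((As.C1_dvd_rd hk.ne' hp).mpr hpk).trans hkm
  rw [h7]
  exact hm

theorem C1_card : ∃ C : ℝ, 0 < C ∧ ∀ (k z : ℕ) (X : ℝ), 0 < k → k ≤ z → 1 ≤ X →
    |(((C1T k X).ncard : ℕ) : ℝ) - (((Rg X ∩ C1Om k z).ncard : ℕ) : ℝ)| ≤
      C * (X ^ (2 / 3 : ℝ) / z + X ^ (3 / 5 : ℝ)) := by
  obtain ⟨C1, hC1, h1⟩ := tail_sq
  obtain ⟨C2, hC2, h2⟩ := tail_gcd
  refine ⟨C1 + C2, by positivity, ?_⟩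
  intro k z X hk hkz hX
  have hz1 : (1 : ℝ) ≤ z := by exact_mod_cast hk.trans_le hkz
  have e1 := h1 X z hX hz1
  have e2 := h2 X z hX hz1
  set S1 : Set (ℤ × ℤ) := {w ∈ Rg X | ∃ d : ℕ, (z : ℝ) < d ∧
    ((d : ℤ) ^ 2 ∣ w.1 ∨ (d : ℤ) ^ 2 ∣ w.2 ∨ (d : ℤ) ^ 2 ∣ cc w)} with hS1
  set S2 : Set (ℤ × ℤ) := {w ∈ Rg X | ∃ d : ℕ, (z : ℝ) < d ∧ (d : ℤ) ∣ w.1 ∧ (d : ℤ) ∣ w.2}
    with hS2
  have f0 : (Rg X).Finite := Rg_finite X
  have f1 : S1.Finite := f0.subset (fun w hw => hw.1)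
  have f2 : S2.Finite := f0.subset (fun w hw => hw.1)
  have fT : (C1T k X).Finite := f0.subset (fun w hw => hw.1)
  have fO : (Rg X ∩ C1Om k z).Finite := f0.subset Set.inter_subset_left
  have g1 : (C1T k X).ncard ≤ (Rg X ∩ C1Om k z).ncard := Set.ncard_le_ncard (C1T_sub k z hk X) fO
  have g2 : Rg X ∩ C1Om k z ⊆ C1T k X ∪ (S1 ∪ S2) := by
    intro w hw
    by_cases q1 : ∃ d : ℕ, (z : ℝ) < d ∧ ((d : ℤ) ^ 2 ∣ w.1 ∨ (d : ℤ) ^ 2 ∣ w.2 ∨
        (d : ℤ) ^ 2 ∣ cc w)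
    · right; left
      exact ⟨hw.1, q1⟩
    · by_cases q2 : ∃ d : ℕ, (z : ℝ) < d ∧ (d : ℤ) ∣ w.1 ∧ (d : ℤ) ∣ w.2
      · right; right
        exact ⟨hw.1, q2⟩
      · left
        exact C1_diff k z hk hkz X w hw q1 q2
  have g3 : (Rg X ∩ C1Om k z).ncard ≤ (C1T k X).ncard + (S1.ncard + S2.ncard) :=
    calc (Rg X ∩ C1Om k z).ncard ≤ (C1T k X ∪ (S1 ∪ S2)).ncard :=
          Set.ncard_le_ncard g2 (fT.union (f1.union f2))
      _ ≤ (C1T k X).ncard + (S1 ∪ S2).ncard := Set.ncard_union_le _ _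
      _ ≤ (C1T k X).ncard + (S1.ncard + S2.ncard) :=
          Nat.add_le_add_left (Set.ncard_union_le _ _) _
  have g1' : (((C1T k X).ncard : ℕ) : ℝ) ≤ (((Rg X ∩ C1Om k z).ncard : ℕ) : ℝ) := by
    exact_mod_cast g1
  have g3' : (((Rg X ∩ C1Om k z).ncard : ℕ) : ℝ) ≤ (((C1T k X).ncard : ℕ) : ℝ) +
      (((S1.ncard : ℕ) : ℝ) + ((S2.ncard : ℕ) : ℝ)) := by
    exact_mod_cast g3
  rw [abs_le]
  have hp : 0 ≤ X ^ (2 / 3 : ℝ) / z + X ^ (3 / 5 : ℝ) := by positivity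
  constructor
  · rw [add_mul]
    linarith
  · have := mul_nonneg (add_pos hC1 hC2).le hp
    linarith

theorem Tk_limit (k : ℕ) (hk : 0 < k) : ∃ r : ℝ,
    Tendsto (fun X : ℝ => (({w ∈ Rg X | Good w ∧ nn w = k * rd (nn w)}.ncard : ℕ) : ℝ) / X ^ (2 / 3 : ℝ))
      atTop (𝓝 r) := by
  obtain ⟨C, hC, hcard⟩ := C1_card
  apply As.limit_of_approx
  intro ε hε
  obtain ⟨z0, hz0⟩ := exists_nat_gt (3 * C / ε)
  set z : ℕ := max k z0 with hz
  have hkz : k ≤ z := le_max_left _ _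
  have hzpos : (0 : ℝ) < z := by exact_mod_cast hk.trans_le hkz
  have hCz : C / z ≤ ε / 3 := by
    have h1 : 3 * C / ε ≤ z := hz0.le.trans (by exact_mod_cast le_max_right _ _)
    rw [div_le_iff₀ hε] at h1
    rw [div_le_iff₀ hzpos]
    linarith
  obtain ⟨r, hr⟩ := periodic_limit (4 * (k * rd k) * (z.factorial) ^ 2)
    (by have := rd_pos k; have := Nat.factorial_pos z; positivity) (C1Om k z)
    (fun w v h1 h2 hw => C1Om_periodic k z w v h1 h2 hw)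
  refine ⟨r, ?_⟩
  have e1 : ∀ᶠ X : ℝ in atTop,
      |(((Rg X ∩ C1Om k z).ncard : ℕ) : ℝ) / X ^ (2 / 3 : ℝ) - r| ≤ ε / 3 := by
    have := (Metric.tendsto_nhds.mp hr) (ε / 3) (by positivity)
    filter_upwards [this] with X hX
    rw [Real.dist_eq] at hX
    exact hX.le
  have e2 : ∀ᶠ X : ℝ in atTop, C * X ^ (-(1 / 15 : ℝ)) ≤ ε / 3 := by
    have h0 : Tendsto (fun X : ℝ => C * X ^ (-(1 / 15 : ℝ))) atTop (𝓝 (C * 0)) :=
      (tendsto_rpow_neg_atTop (by norm_num : (0 : ℝ) < 1 / 15)).const_mul C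
    rw [mul_zero] at h0
    have := h0.eventually (ge_mem_nhds (show (0 : ℝ) < ε / 3 by positivity))
    exact this
  filter_upwards [e1, e2, eventually_ge_atTop (1 : ℝ)] with X h1 h2 hX
  have hX0 : 0 < X := by linarith
  have hXp : 0 < X ^ (2 / 3 : ℝ) := by positivity
  have h3 := hcard k z X hk hkz hX
  have h4 : |(((C1T k X).ncard : ℕ) : ℝ) / X ^ (2 / 3 : ℝ) -
      (((Rg X ∩ C1Om k z).ncard : ℕ) : ℝ) / X ^ (2 / 3 : ℝ)| ≤ C / z + C * X ^ (-(1 / 15 : ℝ)) := by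
    rw [← sub_div, abs_div, abs_of_pos hXp, div_le_iff₀ hXp]
    refine h3.trans (le_of_eq ?_)
    have h5 : X ^ (-(1 / 15 : ℝ)) * X ^ (2 / 3 : ℝ) = X ^ (3 / 5 : ℝ) := by
      rw [← Real.rpow_add hX0]
      norm_num
    rw [add_mul, mul_assoc C, h5]
    ring
  have h6 : |(((C1T k X).ncard : ℕ) : ℝ) / X ^ (2 / 3 : ℝ) - r| ≤ ε := by
    calc |(((C1T k X).ncard : ℕ) : ℝ) / X ^ (2 / 3 : ℝ) - r|
        = |((((C1T k X).ncard : ℕ) : ℝ) / X ^ (2 / 3 : ℝ) -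
            (((Rg X ∩ C1Om k z).ncard : ℕ) : ℝ) / X ^ (2 / 3 : ℝ)) +
            ((((Rg X ∩ C1Om k z).ncard : ℕ) : ℝ) / X ^ (2 / 3 : ℝ) - r)| := by
          congr 1; ring
      _ ≤ |(((C1T k X).ncard : ℕ) : ℝ) / X ^ (2 / 3 : ℝ) -
            (((Rg X ∩ C1Om k z).ncard : ℕ) : ℝ) / X ^ (2 / 3 : ℝ)| +
            |(((Rg X ∩ C1Om k z).ncard : ℕ) : ℝ) / X ^ (2 / 3 : ℝ) - r| := abs_add_le _ _
      _ ≤ ε := by linarith
  exact h6

end Fr

end Pool.Agent.Lib.MP_d8bd92_nt
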