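import Pool.Agent.Lib.MP_d8bd92_nt.Fr.B3
import Pool.Agent.Lib.MP_d8bd92_nt.Fr.C1

set_option autoImplicit false

/-!
ROW fr-C2. The number of the good pairs with conductor `≤ Y` and excess `≤ Y ^ η`.

PROOF. For K in ℕ: {w good, rd (nn w) <= Y, nn w <= K rd (nn w)} is the disjoint union over k in [1,K] of
{w in Rg (k Y) good, nn w = k rd (nn w)} (rd n | n); by `Tk_limit` the quotient by Y^(2/3) tends to c_K := ∑ r_k k^(2/3).
By `excess` (K real, K = the natural number) the quotient F(Y) for excess <= Y^η (η <= 1/40; for Y large K <= Y^η) differs from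
that by at most C (K^(-1/5) + Y^(-1/15)): `As.limit_of_approx` gives the limit L_η, and |L_η - c_K| <= C K^(-1/5) for all K
shows that it does not depend on η.
-/

namespace Pool.Agent.Lib.MP_d8bd92_nt

namespace Fr

open Finset Filter Topology Pool.Agent.Lib.Szpiro

/-- the good pairs with conductor `≤ Y` and excess `≤ Y ^ η` -/
def Gs (Y η : ℝ) : Set (ℤ × ℤ) :=
  {w | Good w ∧ ((rd (nn w) : ℕ) : ℝ) ≤ Y ∧ ((nn w : ℕ) : ℝ) ≤ Y ^ η * ((rd (nn w) : ℕ) : ℝ)}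

theorem Gs_finite (Y η : ℝ) : (Gs Y η).Finite := by
  by_cases hY : 0 ≤ Y
  · refine (Rg_finite (Y ^ η * Y)).subset ?_
    rintro w ⟨hw, h1, h2⟩
    refine ⟨(good_ne w hw).1, hw.2.1, (good_ne w hw).2, h2.trans ?_⟩
    exact mul_le_mul_of_nonneg_left h1 (Real.rpow_nonneg hY _)
  · have : Gs Y η = ∅ := by
      ext w
      simp only [Set.mem_empty_iff_false, iff_false]
      rintro ⟨_, h1, _⟩
      have := one_le_rd (nn w)
      linarith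
    rw [this]
    exact Set.finite_empty

/-- the good pairs of the region with excess exactly `k` -/
def C2_T (k : ℕ) (X : ℝ) : Set (ℤ × ℤ) := {w ∈ Rg X | Good w ∧ nn w = k * rd (nn w)}

/-- the good pairs with conductor `≤ Y` and excess `≤ K` -/
def C2_S (K : ℕ) (Y : ℝ) : Set (ℤ × ℤ) :=
  {w | Good w ∧ ((rd (nn w) : ℕ) : ℝ) ≤ Y ∧ nn w ≤ K * rd (nn w)}

theorem C2_S_finite (K : ℕ) (Y : ℝ) : (C2_S K Y).Finite := by
  refine (Rg_finite ((K : ℝ) * Y)).subset ?_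
  rintro w ⟨hw, h1, h2⟩
  refine ⟨(good_ne w hw).1, hw.2.1, (good_ne w hw).2, ?_⟩
  have h3 : ((nn w : ℕ) : ℝ) ≤ (K : ℝ) * ((rd (nn w) : ℕ) : ℝ) := by exact_mod_cast h2
  exact h3.trans (mul_le_mul_of_nonneg_left h1 (Nat.cast_nonneg _))

theorem C2_T_finite (k : ℕ) (X : ℝ) : (C2_T k X).Finite :=
  (Rg_finite X).subset fun _ hw => hw.1

theorem C2_nn_pos {w : ℤ × ℤ} (hw : Good w) : 0 < nn w := nn_pos w (good_ne w hw).1 hw.2.1 (good_ne w hw).2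

theorem C2_div {w : ℤ × ℤ} (_hw : Good w) : nn w = nn w / rd (nn w) * rd (nn w) := by
  have hd : rd (nn w) ∣ nn w := Nat.prod_primeFactors_dvd _
  exact (Nat.div_mul_cancel hd).symm

theorem C2_card (K : ℕ) (Y : ℝ) :
    (C2_S K Y).ncard = ∑ k ∈ Icc 1 K, (C2_T k ((k : ℝ) * Y)).ncard := by
  classical
  have h1 : Set.MapsTo (fun w : ℤ × ℤ => nn w / rd (nn w)) ((C2_S_finite K Y).toFinset : Set (ℤ × ℤ))
      ((Icc 1 K : Finset ℕ) : Set ℕ) := by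
    intro w hw
    rw [Finset.mem_coe, Set.Finite.mem_toFinset] at hw
    obtain ⟨hg, hY, hK⟩ := hw
    have hr := rd_pos (nn w)
    have hn := C2_nn_pos hg
    rw [Finset.mem_coe, Finset.mem_Icc]
    constructor
    · exact Nat.div_pos (rd_le hn.ne') hr
    · exact Nat.div_le_of_le_mul (by rw [mul_comm]; exact hK)
  rw [Set.ncard_eq_toFinset_card _ (C2_S_finite K Y), Finset.card_eq_sum_card_fiberwise h1]
  refine Finset.sum_congr rfl fun k hk => ?_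
  rw [Set.ncard_eq_toFinset_card _ (C2_T_finite k ((k : ℝ) * Y))]
  congr 1
  ext w
  rw [Finset.mem_filter, Set.Finite.mem_toFinset, Set.Finite.mem_toFinset]
  have hk' := Finset.mem_Icc.mp hk
  have hk0 : (0 : ℝ) < (k : ℝ) := by exact_mod_cast hk'.1
  constructor
  · rintro ⟨⟨hg, hY, _⟩, hkk⟩
    have e : nn w = k * rd (nn w) := by
      have := C2_div hg
      rw [hkk] at this
      exact this
    refine ⟨⟨(good_ne w hg).1, hg.2.1, (good_ne w hg).2, ?_⟩, hg, e⟩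
    have e' : ((nn w : ℕ) : ℝ) = (k : ℝ) * ((rd (nn w) : ℕ) : ℝ) := by exact_mod_cast e
    rw [e']
    exact mul_le_mul_of_nonneg_left hY hk0.le
  · rintro ⟨⟨_, _, _, hX⟩, hg, e⟩
    have e' : ((nn w : ℕ) : ℝ) = (k : ℝ) * ((rd (nn w) : ℕ) : ℝ) := by exact_mod_cast e
    have hr := rd_pos (nn w)
    refine ⟨⟨hg, ?_, ?_⟩, ?_⟩
    · rw [e'] at hX
      exact le_of_mul_le_mul_left hX hk0
    · calc nn w = k * rd (nn w) := e
        _ ≤ K * rd (nn w) := Nat.mul_le_mul_right _ hk'.2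
    · calc nn w / rd (nn w) = (k * rd (nn w)) / rd (nn w) := by rw [← e]
        _ = k := Nat.mul_div_cancel _ hr

theorem C2_lim_T (k : ℕ) (hk : 0 < k) : ∃ r : ℝ,
    Tendsto (fun Y : ℝ => (((C2_T k ((k : ℝ) * Y)).ncard : ℕ) : ℝ) / Y ^ (2 / 3 : ℝ)) atTop (𝓝 r) := by
  obtain ⟨r, hr⟩ := Tk_limit k hk
  have hk0 : (0 : ℝ) < (k : ℝ) := by exact_mod_cast hk
  refine ⟨(k : ℝ) ^ (2 / 3 : ℝ) * r, ?_⟩
  have h1 : Tendsto (fun Y : ℝ => (k : ℝ) * Y) atTop atTop :=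
    tendsto_id.const_mul_atTop hk0
  have h2 := (hr.comp h1).const_mul ((k : ℝ) ^ (2 / 3 : ℝ))
  refine h2.congr' ?_
  filter_upwards [eventually_gt_atTop (0 : ℝ)] with Y hY
  simp only [Function.comp_apply]
  rw [Real.mul_rpow hk0.le hY.le]
  have hkp : (k : ℝ) ^ (2 / 3 : ℝ) ≠ 0 := (Real.rpow_pos_of_pos hk0 _).ne'
  have hYp : Y ^ (2 / 3 : ℝ) ≠ 0 := (Real.rpow_pos_of_pos hY _).ne'
  rw [← mul_div_assoc, mul_div_mul_left _ _ hkp]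
  rfl

theorem C2_lim_S (K : ℕ) : ∃ c : ℝ,
    Tendsto (fun Y : ℝ => (((C2_S K Y).ncard : ℕ) : ℝ) / Y ^ (2 / 3 : ℝ)) atTop (𝓝 c) := by
  have h : ∀ k : ℕ, ∃ r : ℝ, k ∈ Icc 1 K →
      Tendsto (fun Y : ℝ => (((C2_T k ((k : ℝ) * Y)).ncard : ℕ) : ℝ) / Y ^ (2 / 3 : ℝ)) atTop (𝓝 r) := by
    intro k
    by_cases hk : k ∈ Icc 1 K
    · obtain ⟨r, hr⟩ := C2_lim_T k (by have := Finset.mem_Icc.mp hk; omega)
      exact ⟨r, fun _ => hr⟩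
    · exact ⟨0, fun h => absurd h hk⟩
  choose r hr using h
  refine ⟨∑ k ∈ Icc 1 K, r k, ?_⟩
  have h1 := tendsto_finsetSum (Icc 1 K) fun k hk => hr k hk
  refine h1.congr fun Y => ?_
  rw [C2_card, ← Finset.sum_div]
  push_cast
  rfl

theorem C2_key : ∃ C : ℝ, 0 < C ∧ ∃ c : ℕ → ℝ, ∀ η : ℝ, 0 < η → η ≤ 1 / 40 → ∀ K : ℕ, 1 ≤ K →
    ∀ᶠ Y : ℝ in atTop, |(((Gs Y η).ncard : ℕ) : ℝ) / Y ^ (2 / 3 : ℝ) - c K| ≤
      C * (K : ℝ) ^ (-(1 / 5) : ℝ) := by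
  obtain ⟨C, hC, hexc⟩ := excess
  choose c hc using C2_lim_S
  refine ⟨2 * C, by positivity, c, fun η hη hη' K hK => ?_⟩
  have hK0 : (0 : ℝ) < (K : ℝ) := by exact_mod_cast hK
  have hK1 : (1 : ℝ) ≤ (K : ℝ) := by exact_mod_cast hK
  have hKp : 0 < (K : ℝ) ^ (-(1 / 5) : ℝ) := Real.rpow_pos_of_pos hK0 _
  have hδ : 0 < C * (K : ℝ) ^ (-(1 / 5) : ℝ) / 2 := by positivity
  have e1 : ∀ᶠ Y : ℝ in atTop, |(((C2_S K Y).ncard : ℕ) : ℝ) / Y ^ (2 / 3 : ℝ) - c K| <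
      C * (K : ℝ) ^ (-(1 / 5) : ℝ) / 2 := by
    have := (Metric.tendsto_nhds.mp (hc K)) _ hδ
    simpa only [Real.dist_eq] using this
  have e2 : ∀ᶠ Y : ℝ in atTop, C * Y ^ (-(1 / 15) : ℝ) < C * (K : ℝ) ^ (-(1 / 5) : ℝ) / 2 := by
    have h1 : Tendsto (fun Y : ℝ => C * Y ^ (-(1 / 15) : ℝ)) atTop (𝓝 (C * 0)) :=
      (tendsto_rpow_neg_atTop (by norm_num : (0 : ℝ) < 1 / 15)).const_mul C
    rw [mul_zero] at h1
    exact h1.eventually (gt_mem_nhds hδ)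
  have e3 : ∀ᶠ Y : ℝ in atTop, (K : ℝ) ≤ Y ^ η :=
    (tendsto_rpow_atTop hη).eventually_ge_atTop _
  filter_upwards [e1, e2, e3, eventually_ge_atTop (1 : ℝ)] with Y h1 h2 h3 hY
  have hY0 : 0 < Y := by linarith
  have hYp : 0 < Y ^ (2 / 3 : ℝ) := Real.rpow_pos_of_pos hY0 _
  obtain ⟨hfin, hcard⟩ := hexc Y (K : ℝ) hY hK1
  set E : Set (ℤ × ℤ) := {w : ℤ × ℤ | Good w ∧ ((rd (nn w) : ℕ) : ℝ) ≤ Y ∧
      (K : ℝ) * ((rd (nn w) : ℕ) : ℝ) < ((nn w : ℕ) : ℝ) ∧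
      ((nn w : ℕ) : ℝ) ≤ Y ^ (1 / 40 : ℝ) * ((rd (nn w) : ℕ) : ℝ)} with hE
  have s1 : C2_S K Y ⊆ Gs Y η := by
    rintro w ⟨hg, hr, hk⟩
    refine ⟨hg, hr, ?_⟩
    have h4 : ((nn w : ℕ) : ℝ) ≤ (K : ℝ) * ((rd (nn w) : ℕ) : ℝ) := by exact_mod_cast hk
    exact h4.trans (mul_le_mul_of_nonneg_right h3 (Nat.cast_nonneg _))
  have s2 : Gs Y η ⊆ C2_S K Y ∪ E := by
    rintro w ⟨hg, hr, hk⟩
    by_cases h4 : nn w ≤ K * rd (nn w)
    · exact Or.inl ⟨hg, hr, h4⟩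
    · right
      refine ⟨hg, hr, ?_, hk.trans (mul_le_mul_of_nonneg_right
        (Real.rpow_le_rpow_of_exponent_le hY hη') (Nat.cast_nonneg _))⟩
      push Not at h4
      exact_mod_cast h4
  have c1 : ((C2_S K Y).ncard : ℝ) ≤ ((Gs Y η).ncard : ℝ) := by
    exact_mod_cast Set.ncard_le_ncard s1 (Gs_finite Y η)
  have c2 : ((Gs Y η).ncard : ℝ) ≤ ((C2_S K Y).ncard : ℝ) + (E.ncard : ℝ) := by
    have h5 := Set.ncard_le_ncard s2 ((C2_S_finite K Y).union hfin)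
    have h6 := Set.ncard_union_le (C2_S K Y) E
    exact_mod_cast h5.trans h6
  have c3 : (E.ncard : ℝ) / Y ^ (2 / 3 : ℝ) ≤
      C * (K : ℝ) ^ (-(1 / 5) : ℝ) + C * Y ^ (-(1 / 15) : ℝ) := by
    rw [div_le_iff₀ hYp]
    refine hcard.trans (le_of_eq ?_)
    have e5 : Y ^ (-(1 / 15) : ℝ) * Y ^ (2 / 3 : ℝ) = Y ^ (3 / 5 : ℝ) := by
      rw [← Real.rpow_add hY0]
      norm_num
    rw [add_mul, mul_assoc C (Y ^ (-(1 / 15) : ℝ)), e5]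
    ring
  have c4 : ((C2_S K Y).ncard : ℝ) / Y ^ (2 / 3 : ℝ) ≤ ((Gs Y η).ncard : ℝ) / Y ^ (2 / 3 : ℝ) :=
    div_le_div_of_nonneg_right c1 hYp.le
  have c5 : ((Gs Y η).ncard : ℝ) / Y ^ (2 / 3 : ℝ) ≤
      ((C2_S K Y).ncard : ℝ) / Y ^ (2 / 3 : ℝ) + (E.ncard : ℝ) / Y ^ (2 / 3 : ℝ) := by
    rw [← add_div]
    exact div_le_div_of_nonneg_right c2 hYp.le
  rw [abs_lt] at h1
  rw [abs_le]
  constructor
  · linarith [h1.1]
  · linarith [h1.2]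

theorem G_limit : ∃ c : ℝ, ∀ η : ℝ, 0 < η → η ≤ 1 / 40 →
    Tendsto (fun Y : ℝ => (((Gs Y η).ncard : ℕ) : ℝ) / Y ^ (2 / 3 : ℝ)) atTop (𝓝 c) := by
  obtain ⟨C, hC, c, hkey⟩ := C2_key
  have hsmall : ∀ ε : ℝ, 0 < ε → ∃ K : ℕ, 1 ≤ K ∧ C * (K : ℝ) ^ (-(1 / 5) : ℝ) < ε := by
    intro ε hε
    have h1 : Tendsto (fun x : ℝ => C * x ^ (-(1 / 5) : ℝ)) atTop (𝓝 (C * 0)) :=
      (tendsto_rpow_neg_atTop (by norm_num : (0 : ℝ) < 1 / 5)).const_mul C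
    rw [mul_zero] at h1
    have h2 := (h1.comp tendsto_natCast_atTop_atTop).eventually (gt_mem_nhds hε)
    obtain ⟨K, hK, hK'⟩ := (h2.and (eventually_ge_atTop 1)).exists
    exact ⟨K, hK', hK⟩
  have h40 : (0 : ℝ) < 1 / 40 := by norm_num
  obtain ⟨l, hl⟩ := As.limit_of_approx
    (fun Y : ℝ => (((Gs Y (1 / 40)).ncard : ℕ) : ℝ) / Y ^ (2 / 3 : ℝ)) (by
      intro ε hε
      obtain ⟨K, hK, hK'⟩ := hsmall ε hε
      refine ⟨c K, ?_⟩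
      filter_upwards [hkey (1 / 40) h40 le_rfl K hK] with Y hY
      exact hY.trans hK'.le)
  refine ⟨l, fun η hη hη' => ?_⟩
  rw [Metric.tendsto_nhds]
  intro ε hε
  obtain ⟨K, hK, hK'⟩ := hsmall (ε / 4) (by positivity)
  have h3 : ∀ᶠ Y : ℝ in atTop,
      |(((Gs Y (1 / 40)).ncard : ℕ) : ℝ) / Y ^ (2 / 3 : ℝ) - l| < ε / 4 := by
    have := (Metric.tendsto_nhds.mp hl) (ε / 4) (by positivity)
    simpa only [Real.dist_eq] using this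
  filter_upwards [hkey η hη hη' K hK, hkey (1 / 40) h40 le_rfl K hK, h3] with Y a1 a2 a3
  rw [Real.dist_eq, abs_lt]
  rw [abs_le] at a1 a2
  rw [abs_lt] at a3
  constructor
  · linarith [a1.1, a2.2, a3.1]
  · linarith [a1.2, a2.1, a3.2]

end Fr

end Pool.Agent.Lib.MP_d8bd92_nt
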