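import Pool.Agent.Lib.MP_d8bd92_nt.As.Defs

set_option autoImplicit false

/-!
The number of the semistable curves with full rational 2-torsion, conductor `≤ Y` and `|Δ| ≤ Y ^ κ` is
asymptotic to `c Y ^ (2/3)`, with one constant `c` for all `κ > 2`: definitions.
A pair `w = (x, b)`, `cc w = x + 16 b`; the curve has `Δ = (x b (x + 16 b)) ^ 2`.
-/

namespace Pool.Agent.Lib.MP_d8bd92_nt

namespace Fr

open Finset Filter Topology Pool.Agent.Lib.Szpiro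

/-- the third number `x + 16 b` -/
def cc (w : ℤ × ℤ) : ℤ := w.1 + 16 * w.2

/-- `|x b (x + 16 b)|` -/
def nn (w : ℤ × ℤ) : ℕ := (w.1 * w.2 * cc w).natAbs

/-- the pairs which give the curves -/
def Good (w : ℤ × ℤ) : Prop := w.1 % 4 = 1 ∧ 0 < w.2 ∧ IsCoprime w.1 w.2

/-- the region `b > 0`, `0 < |x b (x + 16 b)| ≤ X` -/
def Rg (X : ℝ) : Set (ℤ × ℤ) := {w | w.1 ≠ 0 ∧ 0 < w.2 ∧ cc w ≠ 0 ∧ ((nn w : ℕ) : ℝ) ≤ X}

/-- the length of the set of the real `x` with `b |x (x + 16 b)| ≤ X` -/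
noncomputable def L (X b : ℝ) : ℝ := 2 * (√(64 * b ^ 2 + X / b) - √(max (64 * b ^ 2 - X / b) 0))

theorem nn_eq (w : ℤ × ℤ) : nn w = w.1.natAbs * w.2.natAbs * (cc w).natAbs := by
  rw [nn, Int.natAbs_mul, Int.natAbs_mul]

theorem nn_pos (w : ℤ × ℤ) (h1 : w.1 ≠ 0) (h2 : 0 < w.2) (hc : cc w ≠ 0) : 1 ≤ nn w := by
  rw [nn]; exact Int.natAbs_pos.mpr (mul_ne_zero (mul_ne_zero h1 h2.ne') hc)

theorem good_ne (w : ℤ × ℤ) (hw : Good w) : w.1 ≠ 0 ∧ cc w ≠ 0 := by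
  obtain ⟨h, _, _⟩ := hw
  constructor
  · omega
  · rw [cc]; omega

theorem good_cop (w : ℤ × ℤ) (hw : Good w) : IsCoprime w.1 (cc w) ∧ IsCoprime w.2 (cc w) := by
  obtain ⟨h, _, hc⟩ := hw
  have h2 : IsCoprime w.1 (2 : ℤ) := by
    refine ⟨1, -(w.1 / 2), ?_⟩
    omega
  have h16 : IsCoprime w.1 (16 * w.2) := by
    have : (16 : ℤ) = 2 ^ 4 := by norm_num
    rw [this]
    exact (h2.pow_right).mul_right hc
  constructor
  · rw [cc, add_comm]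
    have := IsCoprime.add_mul_left_right h16 1
    rwa [mul_one] at this
  · rw [cc]
    exact (hc.symm).add_mul_right_right 16

/-- in the region `|x| ≤ X`, `b ≤ √X` (indeed `15 b ^ 2 ≤ X`), `|x + 16 b| ≤ X` -/
theorem Rg_bound (X : ℝ) (w : ℤ × ℤ) (hw : w ∈ Rg X) :
    (w.1.natAbs : ℝ) ≤ X ∧ 15 * (w.2 : ℝ) ^ 2 ≤ X ∧ ((cc w).natAbs : ℝ) ≤ X := by
  obtain ⟨h1, h2, hc, hX⟩ := hw
  have a1 : 1 ≤ w.1.natAbs := Int.natAbs_pos.mpr h1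
  have b1 : 1 ≤ w.2.natAbs := Int.natAbs_pos.mpr h2.ne'
  have c1 : 1 ≤ (cc w).natAbs := Int.natAbs_pos.mpr hc
  rw [nn_eq] at hX
  have k1 : w.1.natAbs ≤ w.1.natAbs * w.2.natAbs * (cc w).natAbs := by
    calc w.1.natAbs = w.1.natAbs * 1 * 1 := by ring
      _ ≤ w.1.natAbs * w.2.natAbs * (cc w).natAbs := by gcongr
  have k3 : (cc w).natAbs ≤ w.1.natAbs * w.2.natAbs * (cc w).natAbs := by
    calc (cc w).natAbs = 1 * 1 * (cc w).natAbs := by ring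
      _ ≤ w.1.natAbs * w.2.natAbs * (cc w).natAbs := by gcongr
  have k2 : 15 * w.2.natAbs ≤ w.1.natAbs * (cc w).natAbs := by
    have e : 16 * w.2.natAbs ≤ w.1.natAbs + (cc w).natAbs := by
      rw [cc]; omega
    nlinarith
  have k2' : 15 * w.2.natAbs ^ 2 ≤ w.1.natAbs * w.2.natAbs * (cc w).natAbs := by
    nlinarith
  have e2 : (w.2 : ℝ) ^ 2 = ((w.2.natAbs ^ 2 : ℕ) : ℝ) := by
    push_cast
    rw [Nat.cast_natAbs, Int.cast_abs, sq_abs]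
  refine ⟨?_, ?_, ?_⟩
  · exact le_trans (by exact_mod_cast k1) hX
  · rw [e2]
    exact le_trans (by exact_mod_cast k2') hX
  · exact le_trans (by exact_mod_cast k3) hX

theorem Rg_finite (X : ℝ) : (Rg X).Finite := by
  have hsub : Rg X ⊆ (Set.Icc (-((⌊X⌋₊ : ℕ) : ℤ)) ((⌊X⌋₊ : ℕ) : ℤ)) ×ˢ
      (Set.Icc (0 : ℤ) ((⌊X⌋₊ : ℕ) : ℤ)) := by
    intro w hw
    obtain ⟨k1, k2, _⟩ := Rg_bound X w hw
    obtain ⟨_, h2, _, _⟩ := hw
    have a1 : w.1.natAbs ≤ ⌊X⌋₊ := Nat.le_floor k1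
    have b1 : (1 : ℝ) ≤ (w.2 : ℝ) := by exact_mod_cast h2
    have a2 : w.2.natAbs ≤ ⌊X⌋₊ := by
      apply Nat.le_floor
      rw [Nat.cast_natAbs, Int.cast_abs, abs_of_pos (by linarith)]
      nlinarith
    rw [Set.mem_prod, Set.mem_Icc, Set.mem_Icc]
    omega
  exact ((Set.finite_Icc _ _).prod (Set.finite_Icc _ _)).subset hsub

theorem Rg_mono {X X' : ℝ} (h : X ≤ X') : Rg X ⊆ Rg X' := fun _ hw =>
  ⟨hw.1, hw.2.1, hw.2.2.1, hw.2.2.2.trans h⟩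

end Fr

end Pool.Agent.Lib.MP_d8bd92_nt
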